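import Mathlib

/-!
# H1F FLIP F1: adjoining an inverse

`R ⊔ adjoin {t⁻¹}` is the localization of the subring `R` of `K` at `t`.
-/

universe u

namespace H1F.FLIP

variable {R₀ : Type*} [CommRing R₀] {K : Type*} [Field K] [Algebra R₀ K]

/-- F1a: elements of `R[t⁻¹]`. -/
theorem mem_sup_inv_iff (R : Subalgebra R₀ K) {t : K} (ht : t ∈ R) (ht0 : t ≠ 0) (x : K) :
    x ∈ R ⊔ Algebra.adjoin R₀ {t⁻¹} ↔ ∃ (n : ℕ) (r : K), r ∈ R ∧ x = r * (t⁻¹) ^ n := by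
  constructor
  · intro hx
    have hle : R ⊔ Algebra.adjoin R₀ {t⁻¹} = Algebra.adjoin R₀ ((R : Set K) ∪ {t⁻¹}) := by
      rw [Algebra.adjoin_union, Algebra.adjoin_eq]
    rw [hle] at hx
    induction hx using Algebra.adjoin_induction with
    | mem y hy =>
      rcases hy with hy | hy
      · exact ⟨0, y, hy, by simp⟩
      · rw [Set.mem_singleton_iff] at hy
        exact ⟨1, 1, R.one_mem, by rw [hy]; simp⟩
    | algebraMap r => exact ⟨0, algebraMap R₀ K r, R.algebraMap_mem r, by simp⟩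
    | add y z _ _ hy hz =>
      obtain ⟨n, r, hr, rfl⟩ := hy
      obtain ⟨m, s, hs, rfl⟩ := hz
      refine ⟨n + m, r * t ^ m + s * t ^ n,
        R.add_mem (R.mul_mem hr (R.pow_mem ht m)) (R.mul_mem hs (R.pow_mem ht n)), ?_⟩
      have h1 : t ^ m * t⁻¹ ^ m = 1 := by rw [← mul_pow, mul_inv_cancel₀ ht0, one_pow]
      have h2 : t ^ n * t⁻¹ ^ n = 1 := by rw [← mul_pow, mul_inv_cancel₀ ht0, one_pow]
      rw [pow_add]
      linear_combination (-(r * t⁻¹ ^ n)) * h1 - s * t⁻¹ ^ m * h2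
    | mul y z _ _ hy hz =>
      obtain ⟨n, r, hr, rfl⟩ := hy
      obtain ⟨m, s, hs, rfl⟩ := hz
      exact ⟨n + m, r * s, R.mul_mem hr hs, by rw [pow_add]; ring⟩
  · rintro ⟨n, r, hr, rfl⟩
    exact Subalgebra.mul_mem _ ((le_sup_left : R ≤ R ⊔ Algebra.adjoin R₀ {t⁻¹}) hr)
      (Subalgebra.pow_mem _ ((le_sup_right : Algebra.adjoin R₀ {t⁻¹} ≤ R ⊔ Algebra.adjoin R₀ {t⁻¹})
        (Algebra.subset_adjoin rfl)) n)

/-- F1b: `R[t⁻¹]` is a localization of `R`. -/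
theorem isLocalization_away (R R' : Subalgebra R₀ K) {t : K} (ht : t ∈ R) (ht0 : t ≠ 0)
    (hR : R ≤ R') (h : R' = R ⊔ Algebra.adjoin R₀ {t⁻¹}) :
    @IsLocalization.Away R _ ⟨t, ht⟩ R' _ (Subalgebra.inclusion hR).toRingHom.toAlgebra := by
  let _ : Algebra R R' := (Subalgebra.inclusion hR).toRingHom.toAlgebra
  have hmap : ∀ r : R, ((algebraMap R R' r : R') : K) = r := fun r ↦ rfl
  have hti : t⁻¹ ∈ R' := by
    rw [h]
    exact (le_sup_right : Algebra.adjoin R₀ {t⁻¹} ≤ R ⊔ Algebra.adjoin R₀ {t⁻¹})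
      (Algebra.subset_adjoin rfl)
  refine ⟨?_, ?_, ?_⟩
  · rintro ⟨y, n, hy⟩
    refine ⟨⟨algebraMap R R' y, ⟨t⁻¹, hti⟩ ^ n, ?_, ?_⟩, rfl⟩
    · apply Subtype.ext
      rw [← hy]
      simp only [map_pow, MulMemClass.coe_mul, SubmonoidClass.coe_pow, hmap, OneMemClass.coe_one]
      rw [← mul_pow, mul_inv_cancel₀ ht0, one_pow]
    · apply Subtype.ext
      rw [← hy]
      simp only [map_pow, MulMemClass.coe_mul, SubmonoidClass.coe_pow, hmap, OneMemClass.coe_one]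
      rw [← mul_pow, inv_mul_cancel₀ ht0, one_pow]
  · intro z
    obtain ⟨n, r, hr, hz⟩ := (mem_sup_inv_iff R ht ht0 z).1 (h ▸ z.2)
    refine ⟨⟨⟨r, hr⟩, ⟨⟨t, ht⟩ ^ n, n, rfl⟩⟩, ?_⟩
    apply Subtype.ext
    simp only [map_pow, MulMemClass.coe_mul, SubmonoidClass.coe_pow, hmap]
    rw [hz, mul_assoc, ← mul_pow, inv_mul_cancel₀ ht0, one_pow, mul_one]
  · intro y z hyz
    refine ⟨1, ?_⟩
    have := congrArg (Subtype.val) hyz
    rw [hmap, hmap] at this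
    rw [Subtype.ext this]

/-- F1c: extension of ring homomorphisms. -/
theorem extend_hom (R R' : Subalgebra R₀ K) {t : K} (ht : t ∈ R) (ht0 : t ≠ 0) (hR : R ≤ R')
    (h : R' = R ⊔ Algebra.adjoin R₀ {t⁻¹}) {L : Type*} [Field L] (φ : R →+* L)
    (hφ : φ ⟨t, ht⟩ ≠ 0) :
    ∃ φ' : R' →+* L, ∀ r : R, φ' (Subalgebra.inclusion hR r) = φ r := by
  let _ : Algebra R R' := (Subalgebra.inclusion hR).toRingHom.toAlgebra
  have : IsLocalization.Away (⟨t, ht⟩ : R) R' := isLocalization_away R R' ht ht0 hR h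
  have hu : IsUnit (φ ⟨t, ht⟩) := isUnit_iff_ne_zero.2 hφ
  refine ⟨IsLocalization.Away.lift (⟨t, ht⟩ : R) hu, fun r ↦ ?_⟩
  exact IsLocalization.Away.lift_eq (⟨t, ht⟩ : R) hu r

end H1F.FLIP
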