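import Pool.Agent.Lib.H1F.Rings

/-!
# H1F FLIP F5: the charts `P1, P2` are `Y0[t], Y0[t⁻¹]`, and `P3, P4` are `Y0[y], Y0[y⁻¹]`
-/

universe u

namespace H1F.FLIP

variable (R₀ : Type*) [CommRing R₀] {K : Type*} [Field K] [Algebra R₀ K] (p : ℕ) [Fact p.Prime]
  [CharP K p] (A v w : K)

/-- `n = (w - 1)^2 y`. -/
theorem nn_eq (hv : v ≠ 1) (hw : w ≠ 1) (hvw : v ≠ w) :
    nn p A v w = (w - 1) ^ 2 * yy p A v w := by
  have h1 : v - 1 ≠ 0 := sub_ne_zero.2 hv
  have h2 : w - 1 ≠ 0 := sub_ne_zero.2 hw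
  have h3 : v - w ≠ 0 := sub_ne_zero.2 hvw
  have hp : 1 ≤ p := (Fact.out : p.Prime).one_lt.le
  have hpow : (v - 1) ^ p = v ^ p - 1 := by
    rw [sub_pow_char_of_commute _ (Commute.one_right v), one_pow]
  have hpow' : (v - 1) ^ p = (v - 1) ^ (p - 1) * (v - 1) := by
    rw [← pow_succ, Nat.sub_add_cancel hp]
  rw [nn, yy, CharP.cast_eq_zero, zero_mul, sub_zero, ← hpow]
  have hvp : v ^ p = (v - 1) ^ p + 1 := by rw [hpow]; ring
  rw [hvp, hpow']
  field_simp
  ring

/-- F5a. -/
theorem P2_eq (hv : v ≠ 1) (hw : w ≠ 1) (hvw : v ≠ w) :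
    P2 R₀ p A v w = Y0 R₀ p A v w ⊔ Algebra.adjoin R₀ {(v - 1) / (w - 1)} := by
  have h1 : v - 1 ≠ 0 := sub_ne_zero.2 hv
  have h2 : w - 1 ≠ 0 := sub_ne_zero.2 hw
  have hn := nn_eq p A v w hv hw hvw
  apply le_antisymm
  · rw [P2]
    refine Algebra.adjoin_le ?_
    have hY : Y0 R₀ p A v w ≤ Y0 R₀ p A v w ⊔ Algebra.adjoin R₀ {(v - 1) / (w - 1)} := le_sup_left
    rintro x hx
    simp only [Set.mem_insert_iff, Set.mem_singleton_iff] at hx
    rcases hx with rfl | rfl | rfl | rfl | rfl | rfl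
    · exact (le_sup_right : Algebra.adjoin R₀ {(v - 1) / (w - 1)} ≤ _)
        (Algebra.subset_adjoin rfl)
    · exact hY (Algebra.subset_adjoin (by simp))
    · rw [hn]
      exact hY (Algebra.subset_adjoin (by simp))
    · exact hY (Algebra.subset_adjoin (by simp))
    · exact hY (Algebra.subset_adjoin (by simp))
    · exact hY (Algebra.subset_adjoin (by simp))
  · have hs : (v - 1) / (w - 1) ∈ P2 R₀ p A v w := Algebra.subset_adjoin (by simp)
    have hr : w - 1 ∈ P2 R₀ p A v w := Algebra.subset_adjoin (by simp)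
    have hnn : (w - 1) ^ 2 * yy p A v w ∈ P2 R₀ p A v w := by
      rw [← hn]
      exact Algebra.subset_adjoin (by simp)
    refine sup_le ?_ (Algebra.adjoin_le (by simpa using hs))
    rw [Y0]
    refine Algebra.adjoin_le ?_
    rintro x hx
    simp only [Set.mem_insert_iff, Set.mem_singleton_iff] at hx
    rcases hx with rfl | rfl | rfl | rfl | rfl | rfl | rfl | rfl
    · have : v - 1 = (v - 1) / (w - 1) * (w - 1) := by field_simp
      rw [this]
      exact Subalgebra.mul_mem _ hs hr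
    · exact hr
    · have : (v - 1) ^ 2 * yy p A v w =
          ((v - 1) / (w - 1)) ^ 2 * ((w - 1) ^ 2 * yy p A v w) := by field_simp
      rw [this]
      exact Subalgebra.mul_mem _ (Subalgebra.pow_mem _ hs 2) hnn
    · have : (v - 1) * (w - 1) * yy p A v w =
          (v - 1) / (w - 1) * ((w - 1) ^ 2 * yy p A v w) := by field_simp
      rw [this]
      exact Subalgebra.mul_mem _ hs hnn
    · exact hnn
    · exact Algebra.subset_adjoin (by simp)
    · exact Algebra.subset_adjoin (by simp)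
    · exact Algebra.subset_adjoin (by simp)

/-- F5b. -/
theorem P1_eq (hv : v ≠ 1) (hw : w ≠ 1) (hvw : v ≠ w) :
    P1 R₀ p A v w = Y0 R₀ p A v w ⊔ Algebra.adjoin R₀ {(w - 1) / (v - 1)} := by
  have h1 : v - 1 ≠ 0 := sub_ne_zero.2 hv
  have h2 : w - 1 ≠ 0 := sub_ne_zero.2 hw
  have hn := nn_eq p A v w hv hw hvw
  have hn' : -(((v - 1) / (w - 1)) ^ 2 * nn p A v w + p * ((v - 1) / (w - 1))) =
      -((v - 1) ^ 2 * yy p A v w) := by
    rw [hn, CharP.cast_eq_zero]
    field_simp
    ring
  apply le_antisymm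
  · rw [P1]
    refine Algebra.adjoin_le ?_
    have hY : Y0 R₀ p A v w ≤ Y0 R₀ p A v w ⊔ Algebra.adjoin R₀ {(w - 1) / (v - 1)} := le_sup_left
    rintro x hx
    simp only [Set.mem_insert_iff, Set.mem_singleton_iff] at hx
    rcases hx with rfl | rfl | rfl | rfl | rfl | rfl
    · exact (le_sup_right : Algebra.adjoin R₀ {(w - 1) / (v - 1)} ≤ _)
        (Algebra.subset_adjoin rfl)
    · exact hY (Algebra.subset_adjoin (by simp))
    · rw [hn']
      exact Subalgebra.neg_mem _ (hY (Algebra.subset_adjoin (by simp)))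
    · exact hY (Algebra.subset_adjoin (by simp))
    · exact hY (Algebra.subset_adjoin (by simp))
    · exact hY (Algebra.subset_adjoin (by simp))
  · have hs : (w - 1) / (v - 1) ∈ P1 R₀ p A v w := Algebra.subset_adjoin (by simp)
    have hr : v - 1 ∈ P1 R₀ p A v w := Algebra.subset_adjoin (by simp)
    have hnn : (v - 1) ^ 2 * yy p A v w ∈ P1 R₀ p A v w := by
      have : (v - 1) ^ 2 * yy p A v w =
          -(-(((v - 1) / (w - 1)) ^ 2 * nn p A v w + p * ((v - 1) / (w - 1)))) := by
        rw [hn', neg_neg]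
      rw [this]
      exact Subalgebra.neg_mem _ (Algebra.subset_adjoin (by simp))
    refine sup_le ?_ (Algebra.adjoin_le (by simpa using hs))
    rw [Y0]
    refine Algebra.adjoin_le ?_
    rintro x hx
    simp only [Set.mem_insert_iff, Set.mem_singleton_iff] at hx
    rcases hx with rfl | rfl | rfl | rfl | rfl | rfl | rfl | rfl
    · exact hr
    · have : w - 1 = (w - 1) / (v - 1) * (v - 1) := by field_simp
      rw [this]
      exact Subalgebra.mul_mem _ hs hr
    · exact hnn
    · have : (v - 1) * (w - 1) * yy p A v w =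
          (w - 1) / (v - 1) * ((v - 1) ^ 2 * yy p A v w) := by field_simp
      rw [this]
      exact Subalgebra.mul_mem _ hs hnn
    · have : (w - 1) ^ 2 * yy p A v w =
          ((w - 1) / (v - 1)) ^ 2 * ((v - 1) ^ 2 * yy p A v w) := by field_simp
      rw [this]
      exact Subalgebra.mul_mem _ (Subalgebra.pow_mem _ hs 2) hnn
    · exact Algebra.subset_adjoin (by simp)
    · exact Algebra.subset_adjoin (by simp)
    · exact Algebra.subset_adjoin (by simp)

omit [Fact p.Prime] [CharP K p] in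
/-- F5c. -/
theorem P3_eq : P3 R₀ p A v w = Y0 R₀ p A v w ⊔ Algebra.adjoin R₀ {yy p A v w} := by
  apply le_antisymm
  · rw [P3]
    refine Algebra.adjoin_le ?_
    have hY : Y0 R₀ p A v w ≤ Y0 R₀ p A v w ⊔ Algebra.adjoin R₀ {yy p A v w} := le_sup_left
    rintro x hx
    simp only [Set.mem_insert_iff, Set.mem_singleton_iff] at hx
    rcases hx with rfl | rfl | rfl | rfl | rfl | rfl
    · exact hY (Algebra.subset_adjoin (by simp))
    · exact hY (Algebra.subset_adjoin (by simp))
    · exact (le_sup_right : Algebra.adjoin R₀ {yy p A v w} ≤ _) (Algebra.subset_adjoin rfl)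
    · exact hY (Algebra.subset_adjoin (by simp))
    · exact hY (Algebra.subset_adjoin (by simp))
    · exact hY (Algebra.subset_adjoin (by simp))
  · have hv : v - 1 ∈ P3 R₀ p A v w := Algebra.subset_adjoin (by simp)
    have hw : w - 1 ∈ P3 R₀ p A v w := Algebra.subset_adjoin (by simp)
    have hy : yy p A v w ∈ P3 R₀ p A v w := Algebra.subset_adjoin (by simp)
    refine sup_le ?_ (Algebra.adjoin_le (by simpa using hy))
    rw [Y0]
    refine Algebra.adjoin_le ?_
    rintro x hx
    simp only [Set.mem_insert_iff, Set.mem_singleton_iff] at hx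
    rcases hx with rfl | rfl | rfl | rfl | rfl | rfl | rfl | rfl
    · exact hv
    · exact hw
    · exact Subalgebra.mul_mem _ (Subalgebra.pow_mem _ hv 2) hy
    · exact Subalgebra.mul_mem _ (Subalgebra.mul_mem _ hv hw) hy
    · exact Subalgebra.mul_mem _ (Subalgebra.pow_mem _ hw 2) hy
    · exact Algebra.subset_adjoin (by simp)
    · exact Algebra.subset_adjoin (by simp)
    · exact Algebra.subset_adjoin (by simp)

omit [Fact p.Prime] [CharP K p] in
/-- F5d. -/
theorem P4_eq : P4 R₀ p A v w = Y0 R₀ p A v w ⊔ Algebra.adjoin R₀ {(yy p A v w)⁻¹} := by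
  rw [P4, Y0, ← Algebra.adjoin_union]
  congr 1
  ext x
  simp only [Set.mem_insert_iff, Set.mem_singleton_iff, Set.mem_union]
  tauto

end H1F.FLIP
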