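import Pool.Agent.Lib.H1F.Rings

/-!
# H1F FLIP F6: no point of `B` lies over the point `y0`
-/

universe u

namespace H1F.FLIP

variable {R₀ : Type*} [CommRing R₀] {K : Type*} [Field K] [Algebra R₀ K]

/-- In a local subring of a field: if `x, y` generate the unit ideal, then `x` or `y` is a unit. -/
theorem F6_loc (O : Subalgebra R₀ K) [IsLocalRing O] {a b x y : K} (ha : a ∈ O) (hb : b ∈ O)
    (hx : x ∈ O) (hy : y ∈ O) (h : a * x + b * y = 1) : x⁻¹ ∈ O ∨ y⁻¹ ∈ O := by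
  have h' : (⟨a, ha⟩ : O) * ⟨x, hx⟩ + ⟨b, hb⟩ * ⟨y, hy⟩ = 1 := Subtype.ext h
  rcases IsLocalRing.isUnit_or_isUnit_of_add_one h' with hu | hu
  · left
    have hu' := isUnit_of_mul_isUnit_right hu
    obtain ⟨z, hz⟩ := hu'.exists_right_inv
    have : x * z = 1 := congrArg Subtype.val hz
    rw [← eq_inv_of_mul_eq_one_right this]
    exact z.2
  · right
    have hu' := isUnit_of_mul_isUnit_right hu
    obtain ⟨z, hz⟩ := hu'.exists_right_inv
    have : y * z = 1 := congrArg Subtype.val hz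
    rw [← eq_inv_of_mul_eq_one_right this]
    exact z.2

variable (p : ℕ) (A v w : K)

/-- F6: if the local ring `O` contains a chart ring of `B` and `Y0`, then `v - 1` or `w - 1` is a
unit of `O`. -/
theorem unit_of_chart_of_Y0 (hA0 : A ≠ 0) (hv0 : v ≠ 0) (hw0 : w ≠ 0) (hv : v ≠ 1) (hw : w ≠ 1)
    (hvw : v ≠ w) (hA1 : A ≠ 1) (O : Subalgebra R₀ K) [IsLocalRing O] (c : Ch) (hc : c.inY)
    (hcY : c ≠ .Y0) (h1 : ring R₀ p A v w c ≤ O) (h2 : Y0 R₀ p A v w ≤ O) :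
    (v - 1)⁻¹ ∈ O ∨ (w - 1)⁻¹ ∈ O := by
  have n1 : v - 1 ≠ 0 := sub_ne_zero.2 hv
  have n2 : w - 1 ≠ 0 := sub_ne_zero.2 hw
  have n3 : v - w ≠ 0 := sub_ne_zero.2 hvw
  have n3' : w - v ≠ 0 := sub_ne_zero.2 hvw.symm
  have n4 : A - 1 ≠ 0 := sub_ne_zero.2 hA1
  have n5 : 1 - v ≠ 0 := sub_ne_zero.2 hv.symm
  have n6 : 1 - w ≠ 0 := sub_ne_zero.2 hw.symm
  have m1 : v - 1 ∈ O := h2 (Algebra.subset_adjoin (by simp))
  have m2 : w - 1 ∈ O := h2 (Algebra.subset_adjoin (by simp))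
  have m3 : v⁻¹ ∈ O := h2 (Algebra.subset_adjoin (by simp))
  have m4 : w⁻¹ ∈ O := h2 (Algebra.subset_adjoin (by simp))
  have m5 : (v - 1) ^ 2 * yy p A v w ∈ O := h2 (Algebra.subset_adjoin (by simp))
  have m6 : (w - 1) ^ 2 * yy p A v w ∈ O := h2 (Algebra.subset_adjoin (by simp))
  -- the six frames
  have key : ∀ f : Fin 6, (fw v w f - 1)⁻¹ ∈ O → (v - 1)⁻¹ ∈ O ∨ (w - 1)⁻¹ ∈ O := by
    intro f hf
    fin_cases f
    · right; simpa [fw] using hf
    · left; simpa [fw] using hf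
    · replace hf : (w / v - 1)⁻¹ ∈ O := hf
      have e : (-(v⁻¹ * (w / v - 1)⁻¹)) * (v - 1) + (v⁻¹ * (w / v - 1)⁻¹) * (w - 1) = 1 := by
        have : w / v - 1 = (w - v) / v := by field_simp
        rw [this]
        field_simp
        ring
      exact F6_loc O (O.neg_mem (O.mul_mem m3 hf)) (O.mul_mem m3 hf) m1 m2 e
    · left
      replace hf : (v⁻¹ - 1)⁻¹ ∈ O := hf
      have e : (v - 1)⁻¹ = -(v⁻¹ * (v⁻¹ - 1)⁻¹) := by
        have : v⁻¹ - 1 = -(v - 1) / v := by field_simp; ring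
        rw [this]
        field_simp
      rw [e]
      exact O.neg_mem (O.mul_mem m3 hf)
    · replace hf : (v / w - 1)⁻¹ ∈ O := hf
      have e : (w⁻¹ * (v / w - 1)⁻¹) * (v - 1) + (-(w⁻¹ * (v / w - 1)⁻¹)) * (w - 1) = 1 := by
        have : v / w - 1 = (v - w) / w := by field_simp
        rw [this]
        field_simp
        ring
      exact F6_loc O (O.mul_mem m4 hf) (O.neg_mem (O.mul_mem m4 hf)) m1 m2 e
    · right
      replace hf : (w⁻¹ - 1)⁻¹ ∈ O := hf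
      have e : (w - 1)⁻¹ = -(w⁻¹ * (w⁻¹ - 1)⁻¹) := by
        have : w⁻¹ - 1 = -(w - 1) / w := by field_simp; ring
        rw [this]
        field_simp
      rw [e]
      exact O.neg_mem (O.mul_mem m4 hf)
  cases c with
  | NI f => exact key f (h1 (Algebra.subset_adjoin (by simp)))
  | NII f => exact key f (h1 (Algebra.subset_adjoin (by simp)))
  | M i =>
    fin_cases i
    · left
      exact h1 (show (v - 1)⁻¹ ∈ MM R₀ p A v w from Algebra.subset_adjoin (by simp))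
    · exact key 3 (h1 (show (v⁻¹ - 1)⁻¹ ∈ MM R₀ p (A / v ^ p) v⁻¹ (w / v) from
        Algebra.subset_adjoin (by simp)))
    · exact key 5 (h1 (show (w⁻¹ - 1)⁻¹ ∈ MM R₀ p (A / w ^ p) w⁻¹ (v / w) from
        Algebra.subset_adjoin (by simp)))
  | T6 =>
    have hT : (A - 1)⁻¹ ∈ O :=
      h1 (show (A - 1)⁻¹ ∈ T6 R₀ p A v w from Algebra.subset_adjoin (by simp))
    have e : (-((A - 1)⁻¹ * ((w - 1) ^ 2 * yy p A v w))) * (v - 1) +
        ((A - 1)⁻¹ * ((v - 1) ^ (p - 1) + (v - 1) ^ 2 * yy p A v w)) * (w - 1) = 1 := by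
      have hy : yy p A v w * ((v - 1) * (w - 1) * (v - w)) =
          A - 1 - (v - 1) ^ (p - 1) * (w - 1) := by
        rw [yy]
        field_simp
      have hA : A - 1 = yy p A v w * ((v - 1) * (w - 1) * (v - w)) +
          (v - 1) ^ (p - 1) * (w - 1) := by rw [hy]; ring
      have hAi : (A - 1)⁻¹ * (A - 1) = 1 := inv_mul_cancel₀ n4
      linear_combination hAi + (A - 1)⁻¹ * (-hA)
    exact F6_loc O (O.neg_mem (O.mul_mem hT m6))
      (O.mul_mem hT (O.add_mem (O.pow_mem m1 _) m5)) m1 m2 e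
  | P1 => exact absurd hc (by simp [Ch.inY])
  | P2 => exact absurd hc (by simp [Ch.inY])
  | P3 => exact absurd hc (by simp [Ch.inY])
  | P4 => exact absurd hc (by simp [Ch.inY])
  | Y0 => exact absurd rfl hcY

end H1F.FLIP
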