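import Pool.Agent.Lib.H1F.FLIP.Loc
import Pool.Agent.Lib.H1F.FLIP.F5
import Pool.Agent.Lib.H1F.FLIP.F6

/-!
# H1F FLIP F7: the morphisms `X ⟶ Y` and `X' ⟶ Y` are proper
-/

open CategoryTheory CategoryTheory.Limits AlgebraicGeometry Order

universe u

namespace H1F.FLIP

/-- The chart of `Y` which contains the image of the chart `c` of `X` or `X'`. -/
def toY : Ch → Ch
  | .P1 => .Y0 | .P2 => .Y0 | .P3 => .Y0 | .P4 => .Y0 | c => c

/-- What we need from the algebraic independence of `A, v, w`. -/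
structure Gen {K : Type*} [Field K] (A v w : K) : Prop where
  A0 : A ≠ 0
  v0 : v ≠ 0
  w0 : w ≠ 0
  v1 : v ≠ 1
  w1 : w ≠ 1
  vw : v ≠ w
  A1 : A ≠ 1

section Alg

variable (R₀ : Type*) [CommRing R₀] {K : Type*} [Field K] [Algebra R₀ K] (p : ℕ)
  (A v w : K)

theorem ring_fg (c : Ch) : (ring R₀ p A v w c).FG := by
  cases c with
  | NI f => exact Subalgebra.fg_def.2 ⟨_, Set.toFinite _, rfl⟩
  | NII f => exact Subalgebra.fg_def.2 ⟨_, Set.toFinite _, rfl⟩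
  | M i => fin_cases i <;> exact Subalgebra.fg_def.2 ⟨_, Set.toFinite _, rfl⟩
  | T6 => exact Subalgebra.fg_def.2 ⟨_, Set.toFinite _, rfl⟩
  | P1 => exact Subalgebra.fg_def.2 ⟨_, Set.toFinite _, rfl⟩
  | P2 => exact Subalgebra.fg_def.2 ⟨_, Set.toFinite _, rfl⟩
  | P3 => exact Subalgebra.fg_def.2 ⟨_, Set.toFinite _, rfl⟩
  | P4 => exact Subalgebra.fg_def.2 ⟨_, Set.toFinite _, rfl⟩
  | Y0 => exact Subalgebra.fg_def.2 ⟨_, Set.toFinite _, rfl⟩

variable [Fact p.Prime] [CharP K p] {A v w}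

theorem toY_le (h : Gen A v w) (c : Ch) : ring R₀ p A v w (toY c) ≤ ring R₀ p A v w c := by
  cases c with
  | P1 => exact le_sup_left.trans (P1_eq R₀ p A v w h.v1 h.w1 h.vw).ge
  | P2 => exact le_sup_left.trans (P2_eq R₀ p A v w h.v1 h.w1 h.vw).ge
  | P3 => exact le_sup_left.trans (P3_eq R₀ p A v w).ge
  | P4 => exact le_sup_left.trans (P4_eq R₀ p A v w).ge
  | NI f => exact le_rfl
  | NII f => exact le_rfl
  | M f => exact le_rfl
  | T6 => exact le_rfl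
  | Y0 => exact le_rfl

/-- If `Y0 ≤ O` and `1/(v-1) ∈ O` then `P1 ≤ O` and `P3 ≤ O`. -/
theorem P1_le (h : Gen A v w) {O : Subalgebra R₀ K} (hY : Y0 R₀ p A v w ≤ O)
    (hi : (v - 1)⁻¹ ∈ O) : P1 R₀ p A v w ≤ O := by
  rw [P1_eq R₀ p A v w h.v1 h.w1 h.vw]
  refine sup_le hY (Algebra.adjoin_le ?_)
  simp only [Set.singleton_subset_iff, SetLike.mem_coe]
  rw [div_eq_mul_inv]
  exact O.mul_mem (hY (Algebra.subset_adjoin (by simp))) hi

theorem P2_le (h : Gen A v w) {O : Subalgebra R₀ K} (hY : Y0 R₀ p A v w ≤ O)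
    (hi : (w - 1)⁻¹ ∈ O) : P2 R₀ p A v w ≤ O := by
  rw [P2_eq R₀ p A v w h.v1 h.w1 h.vw]
  refine sup_le hY (Algebra.adjoin_le ?_)
  simp only [Set.singleton_subset_iff, SetLike.mem_coe]
  rw [div_eq_mul_inv]
  exact O.mul_mem (hY (Algebra.subset_adjoin (by simp))) hi

omit [Fact p.Prime] [CharP K p] in
theorem P3_le_v (h : Gen A v w) {O : Subalgebra R₀ K} (hY : Y0 R₀ p A v w ≤ O)
    (hi : (v - 1)⁻¹ ∈ O) : P3 R₀ p A v w ≤ O := by
  rw [P3_eq R₀ p A v w]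
  refine sup_le hY (Algebra.adjoin_le ?_)
  simp only [Set.singleton_subset_iff, SetLike.mem_coe]
  have h1 : v - 1 ≠ 0 := sub_ne_zero.2 h.v1
  have : yy p A v w = (v - 1) ^ 2 * yy p A v w * ((v - 1)⁻¹) ^ 2 := by field_simp
  rw [this]
  exact O.mul_mem (hY (Algebra.subset_adjoin (by simp))) (O.pow_mem hi 2)

omit [Fact p.Prime] [CharP K p] in
theorem P3_le_w (h : Gen A v w) {O : Subalgebra R₀ K} (hY : Y0 R₀ p A v w ≤ O)
    (hi : (w - 1)⁻¹ ∈ O) : P3 R₀ p A v w ≤ O := by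
  rw [P3_eq R₀ p A v w]
  refine sup_le hY (Algebra.adjoin_le ?_)
  simp only [Set.singleton_subset_iff, SetLike.mem_coe]
  have h1 : w - 1 ≠ 0 := sub_ne_zero.2 h.w1
  have : yy p A v w = (w - 1) ^ 2 * yy p A v w * ((w - 1)⁻¹) ^ 2 := by field_simp
  rw [this]
  exact O.mul_mem (hY (Algebra.subset_adjoin (by simp))) (O.pow_mem hi 2)

end Alg

instance : Finite Ch := by
  classical
  have : Function.Surjective (fun x : (Fin 6 ⊕ Fin 6) ⊕ (Fin 3 ⊕ Fin 6) ↦ match x with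
      | .inl (.inl f) => Ch.NI f
      | .inl (.inr f) => Ch.NII f
      | .inr (.inl f) => Ch.M f
      | .inr (.inr f) => (![Ch.T6, Ch.P1, Ch.P2, Ch.P3, Ch.P4, Ch.Y0] : Fin 6 → Ch) f) := by
    intro c
    cases c with
    | NI f => exact ⟨.inl (.inl f), rfl⟩
    | NII f => exact ⟨.inl (.inr f), rfl⟩
    | M f => exact ⟨.inr (.inl f), rfl⟩
    | T6 => exact ⟨.inr (.inr 0), rfl⟩
    | P1 => exact ⟨.inr (.inr 1), rfl⟩
    | P2 => exact ⟨.inr (.inr 2), rfl⟩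
    | P3 => exact ⟨.inr (.inr 3), rfl⟩
    | P4 => exact ⟨.inr (.inr 4), rfl⟩
    | Y0 => exact ⟨.inr (.inr 5), rfl⟩
  exact Finite.of_surjective _ this

instance : Nonempty {c : Ch // c.inX} := ⟨⟨.T6, trivial⟩⟩
instance : Nonempty {c : Ch // c.inX'} := ⟨⟨.T6, trivial⟩⟩
instance : Nonempty {c : Ch // c.inY} := ⟨⟨.T6, trivial⟩⟩
instance : Nonempty {c : Ch // c.inV} := ⟨⟨.T6, trivial⟩⟩

theorem toY_inY {c : Ch} (h : c.inX ∨ c.inX') : (toY c).inY := by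
  cases c <;> simp_all [toY, Ch.inY, Ch.inX, Ch.inX']

theorem inY_cases {c : Ch} (h : c.inY) (hc : c ≠ .Y0) : c.inX ∧ c.inX' ∧ toY c = c := by
  cases c <;> first | exact False.elim h | exact absurd rfl hc | exact ⟨trivial, trivial, rfl⟩

theorem inX_cases {c : Ch} (h : c.inX) (hc : toY c ≠ .Y0) : c.inY ∧ c ≠ .Y0 := by
  cases c <;> first | exact False.elim h | exact absurd rfl hc | exact ⟨trivial, by simp⟩

theorem inX'_cases {c : Ch} (h : c.inX') (hc : toY c ≠ .Y0) : c.inY ∧ c ≠ .Y0 := by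
  cases c <;> first | exact False.elim h | exact absurd rfl hc | exact ⟨trivial, by simp⟩

section Geo

variable {k : Type u} [CommRing k] {K : Type u} [Field K] [Algebra k K] {p : ℕ} [Fact p.Prime]
  [CharP K p] {A v w : K} {X X' Y : Over (Spec (CommRingCat.of k))}
  {a : Atlas (fun c : {c : Ch // c.inX} ↦ ring k p A v w c.1) X}
  {a' : Atlas (fun c : {c : Ch // c.inX'} ↦ ring k p A v w c.1) X'}
  {b : Atlas (fun c : {c : Ch // c.inY} ↦ ring k p A v w c.1) Y}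
  {L : X.left → Subalgebra k K} {L' : X'.left → Subalgebra k K} {M : Y.left → Subalgebra k K}

theorem hs_X (h : Gen A v w) : ∀ i : {c : Ch // c.inX}, ∃ j : {c : Ch // c.inY},
    ring k p A v w j.1 ≤ ring k p A v w i.1 :=
  fun i ↦ ⟨⟨toY i.1, toY_inY (Or.inl i.2)⟩, toY_le k p h i.1⟩

theorem hs_X' (h : Gen A v w) : ∀ i : {c : Ch // c.inX'}, ∃ j : {c : Ch // c.inY},
    ring k p A v w j.1 ≤ ring k p A v w i.1 :=
  fun i ↦ ⟨⟨toY i.1, toY_inY (Or.inr i.2)⟩, toY_le k p h i.1⟩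

/-- The preimage of the chart `j` of `Y` in `X`. -/
theorem cov_X (h : Gen A v w) (hL : LocData a L) (x : X.left) (j : {c : Ch // c.inY})
    (hj : ring k p A v w j.1 ≤ L x) :
    ∃ i : {c : Ch // c.inX}, toY i.1 = j.1 ∧ x ∈ Set.range (a.c i) := by
  obtain ⟨c, hc⟩ := j
  by_cases hcY : c = .Y0
  · subst hcY
    obtain ⟨i, y, rfl⟩ := a.cover x
    by_cases hi : toY i.1 = .Y0
    · exact ⟨i, hi, y, rfl⟩
    · have hi' := inX_cases i.2 hi
      have := hL.isLocal (a.c i y)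
      rcases unit_of_chart_of_Y0 p A v w h.A0 h.v0 h.w0 h.v1 h.w1 h.vw h.A1 (L (a.c i y)) i.1
        hi'.1 hi'.2 (hL.le i y) hj with hu | hu
      · exact ⟨⟨.P1, trivial⟩, rfl, (hL.mem_range_iff _ ⟨.P1, trivial⟩).2 (P1_le k p h hj hu)⟩
      · exact ⟨⟨.P2, trivial⟩, rfl, (hL.mem_range_iff _ ⟨.P2, trivial⟩).2 (P2_le k p h hj hu)⟩
  · have hcX := inY_cases hc hcY
    exact ⟨⟨c, hcX.1⟩, hcX.2.2, (hL.mem_range_iff _ ⟨c, hcX.1⟩).2 hj⟩

/-- The preimage of the chart `j` of `Y` in `X'`. -/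
theorem cov_X' (h : Gen A v w) (hL : LocData a' L') (x : X'.left) (j : {c : Ch // c.inY})
    (hj : ring k p A v w j.1 ≤ L' x) :
    ∃ i : {c : Ch // c.inX'}, toY i.1 = j.1 ∧ x ∈ Set.range (a'.c i) := by
  obtain ⟨c, hc⟩ := j
  by_cases hcY : c = .Y0
  · subst hcY
    obtain ⟨i, y, rfl⟩ := a'.cover x
    by_cases hi : toY i.1 = .Y0
    · exact ⟨i, hi, y, rfl⟩
    · have hi' := inX'_cases i.2 hi
      have := hL.isLocal (a'.c i y)
      rcases unit_of_chart_of_Y0 p A v w h.A0 h.v0 h.w0 h.v1 h.w1 h.vw h.A1 (L' (a'.c i y)) i.1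
        hi'.1 hi'.2 (hL.le i y) hj with hu | hu
      · exact ⟨⟨.P3, trivial⟩, rfl, (hL.mem_range_iff _ ⟨.P3, trivial⟩).2 (P3_le_v k p h hj hu)⟩
      · exact ⟨⟨.P3, trivial⟩, rfl, (hL.mem_range_iff _ ⟨.P3, trivial⟩).2 (P3_le_w k p h hj hu)⟩
  · have hcX := inY_cases hc hcY
    exact ⟨⟨c, hcX.2.1⟩, hcX.2.2, (hL.mem_range_iff _ ⟨c, hcX.2.1⟩).2 hj⟩

/-- F7a: `X ⟶ Y` is proper. -/
theorem isProper_X (h : Gen A v w) (hL : LocData a L) (hM : LocData b M) (f : X ⟶ Y)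
    (hf : ∀ (i : {c : Ch // c.inX}) (j : {c : Ch // c.inY})
      (hij : ring k p A v w j.1 ≤ ring k p A v w i.1),
      a.c i ≫ f.left = specIncl hij ≫ b.c j) : IsProper f.left := by
  refine isProper_of_two_charts a b f hf (fun i ↦ ring_fg k p A v w i.1)
    (fun i j ↦ toY i.1 = j.1) ?_ ?_
  · intro x j hj
    exact cov_X h hL x j ((hL.hom_mem_range_iff f hM hf (hs_X h) x j).1 hj)
  · rintro ⟨i, hi⟩ ⟨j, hj⟩ hij
    change toY i = j at hij
    subst hij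
    have h1 : (w - 1) / (v - 1) ≠ 0 :=
      div_ne_zero (sub_ne_zero.2 h.w1) (sub_ne_zero.2 h.v1)
    have h2 : (v - 1) / (w - 1) ≠ 0 :=
      div_ne_zero (sub_ne_zero.2 h.v1) (sub_ne_zero.2 h.w1)
    cases i with
    | P1 =>
      right
      refine ⟨(w - 1) / (v - 1), ⟨.P2, trivial⟩, h1, rfl, P1_eq k p A v w h.v1 h.w1 h.vw, ?_⟩
      rw [inv_div]
      exact P2_eq k p A v w h.v1 h.w1 h.vw
    | P2 =>
      right
      refine ⟨(v - 1) / (w - 1), ⟨.P1, trivial⟩, h2, rfl, P2_eq k p A v w h.v1 h.w1 h.vw, ?_⟩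
      rw [inv_div]
      exact P1_eq k p A v w h.v1 h.w1 h.vw
    | P3 => exact absurd hi (by simp [Ch.inX])
    | P4 => exact absurd hi (by simp [Ch.inX])
    | NI f => exact Or.inl rfl
    | NII f => exact Or.inl rfl
    | M f => exact Or.inl rfl
    | T6 => exact Or.inl rfl
    | Y0 => exact absurd hi (by simp [Ch.inX])

/-- F7b: `X' ⟶ Y` is proper. -/
theorem isProper_X' (h : Gen A v w) (hy : yy p A v w ≠ 0) (hL : LocData a' L')
    (hM : LocData b M) (f : X' ⟶ Y)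
    (hf : ∀ (i : {c : Ch // c.inX'}) (j : {c : Ch // c.inY})
      (hij : ring k p A v w j.1 ≤ ring k p A v w i.1),
      a'.c i ≫ f.left = specIncl hij ≫ b.c j) : IsProper f.left := by
  refine isProper_of_two_charts a' b f hf (fun i ↦ ring_fg k p A v w i.1)
    (fun i j ↦ toY i.1 = j.1) ?_ ?_
  · intro x j hj
    exact cov_X' h hL x j ((hL.hom_mem_range_iff f hM hf (hs_X' h) x j).1 hj)
  · rintro ⟨i, hi⟩ ⟨j, hj⟩ hij
    change toY i = j at hij
    subst hij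
    cases i with
    | P3 =>
      right
      exact ⟨yy p A v w, ⟨.P4, trivial⟩, hy, rfl, P3_eq k p A v w, P4_eq k p A v w⟩
    | P4 =>
      right
      refine ⟨(yy p A v w)⁻¹, ⟨.P3, trivial⟩, inv_ne_zero hy, rfl, P4_eq k p A v w, ?_⟩
      rw [inv_inv]
      exact P3_eq k p A v w
    | P1 => exact absurd hi (by simp [Ch.inX'])
    | P2 => exact absurd hi (by simp [Ch.inX'])
    | NI f => exact Or.inl rfl
    | NII f => exact Or.inl rfl
    | M f => exact Or.inl rfl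
    | T6 => exact Or.inl rfl
    | Y0 => exact absurd hi (by simp [Ch.inX'])

end Geo

end H1F.FLIP
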