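import Mathlib

/-!
# H1F FLIP F4: a morphism with local sections is an isomorphism
-/

open CategoryTheory CategoryTheory.Limits AlgebraicGeometry Order

universe u

namespace H1F.FLIP

/-- A local section `T → X` over an open immersion `T → Y` whose range is the full preimage: the
base change of `f` to `T` is an isomorphism. -/
theorem F4_isIso_pullback {X Y T : Scheme.{u}} (f : X ⟶ Y) (jX : T ⟶ X) (jY : T ⟶ Y)
    [IsOpenImmersion jX] [IsOpenImmersion jY] (hj : jX ≫ f = jY)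
    (hr : ∀ x, f x ∈ Set.range jY → x ∈ Set.range jX) : IsIso (pullback.snd f jY) := by
  let s : T ⟶ pullback f jY := pullback.lift jX (𝟙 T) (by rw [hj, Category.id_comp])
  have hs1 : s ≫ pullback.fst f jY = jX := pullback.lift_fst _ _ _
  have hs2 : s ≫ pullback.snd f jY = 𝟙 T := pullback.lift_snd _ _ _
  have : IsOpenImmersion (s ≫ pullback.fst f jY) := by rw [hs1]; infer_instance
  have hso : IsOpenImmersion s := IsOpenImmersion.of_comp s (pullback.fst f jY)
  have hss : Surjective s := by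
    refine ⟨fun z ↦ ?_⟩
    have hz : f (pullback.fst f jY z) ∈ Set.range jY := by
      refine ⟨pullback.snd f jY z, ?_⟩
      rw [← Scheme.Hom.comp_apply, ← Scheme.Hom.comp_apply, pullback.condition]
    obtain ⟨t, ht⟩ := hr _ hz
    refine ⟨t, ?_⟩
    apply (pullback.fst f jY).isOpenEmbedding.injective
    rw [← Scheme.Hom.comp_apply, hs1, ht]
  have : IsIso s := (isIso_iff_isOpenImmersion_and_surjective s).2 ⟨hso, hss⟩
  have h : pullback.snd f jY = inv s := by
    rw [← cancel_epi s, hs2, IsIso.hom_inv_id]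
  rw [h]
  infer_instance

/-- F4a: global version. -/
theorem isIso_of_sections {X Y : Scheme.{u}} (f : X ⟶ Y)
    (h : ∀ y : Y, ∃ (T : Scheme.{u}) (jX : T ⟶ X) (jY : T ⟶ Y), IsOpenImmersion jX ∧
      IsOpenImmersion jY ∧ jX ≫ f = jY ∧ y ∈ Set.range jY ∧
      ∀ x, f x ∈ Set.range jY → x ∈ Set.range jX) : IsIso f := by
  choose T jX jY hX hY hj hy hr using h
  let 𝒰 : Y.OpenCover := Scheme.Cover.mkOfCovers Y T jY (fun y ↦ ⟨y, hy y⟩) hY
  have h1 : (MorphismProperty.isomorphisms Scheme.{u}) f :=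
    IsZariskiLocalAtTarget.of_openCover (P := MorphismProperty.isomorphisms Scheme.{u}) 𝒰
      fun y ↦ by
        have := hX y
        have := hY y
        exact F4_isIso_pullback f (jX y) (jY y) (hj y) (hr y)
  exact h1

/-- F4b: local version. -/
theorem isIso_morphismRestrict {X Y : Scheme.{u}} (f : X ⟶ Y) (V : Y.Opens)
    (h : ∀ y ∈ V, ∃ (T : Scheme.{u}) (jX : T ⟶ X) (jY : T ⟶ Y), IsOpenImmersion jX ∧
      IsOpenImmersion jY ∧ jX ≫ f = jY ∧ y ∈ Set.range jY ∧ Set.range jY ⊆ (V : Set Y) ∧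
      ∀ x, f x ∈ Set.range jY → x ∈ Set.range jX) : IsIso (f ∣_ V) := by
  apply isIso_of_sections
  intro y
  obtain ⟨T, jX, jY, hX, hY, hj, hy, hV, hr⟩ := h (V.ι y) y.2
  have hVY : Set.range jY ⊆ Set.range V.ι := by rw [Scheme.Opens.range_ι]; exact hV
  have hVX : Set.range jX ⊆ Set.range (f ⁻¹ᵁ V).ι := by
    rw [Scheme.Opens.range_ι]
    rintro _ ⟨t, rfl⟩
    change f (jX t) ∈ V
    rw [← Scheme.Hom.comp_apply, hj]
    exact hV ⟨t, rfl⟩
  let jX' := IsOpenImmersion.lift (f ⁻¹ᵁ V).ι jX hVX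
  have hX' : jX' ≫ (f ⁻¹ᵁ V).ι = jX := IsOpenImmersion.lift_fac _ _ _
  let jY' := IsOpenImmersion.lift V.ι jY hVY
  have hY' : jY' ≫ V.ι = jY := IsOpenImmersion.lift_fac _ _ _
  have i1 : IsOpenImmersion (jX' ≫ (f ⁻¹ᵁ V).ι) := by rw [hX']; infer_instance
  have i2 : IsOpenImmersion (jY' ≫ V.ι) := by rw [hY']; infer_instance
  refine ⟨T, jX', jY', IsOpenImmersion.of_comp jX' (f ⁻¹ᵁ V).ι, IsOpenImmersion.of_comp jY' V.ι,
    ?_, ?_, ?_⟩
  · rw [← cancel_mono V.ι, Category.assoc, morphismRestrict_ι, ← Category.assoc, hX', hj, hY']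
  · obtain ⟨t, ht⟩ := hy
    refine ⟨t, ?_⟩
    apply V.ι.isOpenEmbedding.injective
    rw [← Scheme.Hom.comp_apply, hY', ht]
  · rintro x ⟨t, ht⟩
    have hx : f ((f ⁻¹ᵁ V).ι x) ∈ Set.range jY := by
      refine ⟨t, ?_⟩
      rw [← hY', Scheme.Hom.comp_apply, ht, ← Scheme.Hom.comp_apply, morphismRestrict_ι,
        Scheme.Hom.comp_apply]
    obtain ⟨s, hs⟩ := hr _ hx
    refine ⟨s, ?_⟩
    apply (f ⁻¹ᵁ V).ι.isOpenEmbedding.injective
    rw [← Scheme.Hom.comp_apply, hX', hs]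

end H1F.FLIP
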