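import Pool.Agent.Lib.H1F.FLIP.F3
import Pool.Agent.Lib.H1F.FLIP.F4

/-!
# H1F FLIP Loc: the local rings of a glued scheme as subrings of `K`

`LocData a L` says that `L x` is the local ring at `x` as a subring of `K`.  The atlas library
shows this for `L x = (localRing k X x).map e`.  All geometric statements of part FLIP are
consequences.
-/

open CategoryTheory CategoryTheory.Limits AlgebraicGeometry Order

universe u

namespace H1F.FLIP

set_option linter.unusedSectionVars false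

variable {R₀ : Type u} [CommRing R₀] {K : Type u} [Field K] [Algebra R₀ K]
  {ι κ : Type} [Finite ι] [Nonempty ι] [Finite κ] [Nonempty κ]

/-- `L x` is the local ring at `x`, as a subring of `K`. -/
structure LocData {R : ι → Subalgebra R₀ K} {X : Over (Spec (CommRingCat.of R₀))}
    (a : Atlas R X) (L : X.left → Subalgebra R₀ K) : Prop where
  isLocal : ∀ x, IsLocalRing (L x)
  le : ∀ i y, R i ≤ L (a.c i y)
  prime : ∀ i (y : SpecS (R i)) (r : R i),
    r ∈ PrimeSpectrum.asIdeal y ↔ (r : K) = 0 ∨ (r : K)⁻¹ ∉ L (a.c i y)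
  loc : ∀ i y (f : K), f ∈ L (a.c i y) ↔
    ∃ r ∈ R i, ∃ s ∈ R i, s ≠ 0 ∧ s⁻¹ ∈ L (a.c i y) ∧ f = r * s⁻¹

variable {R : ι → Subalgebra R₀ K} {S : κ → Subalgebra R₀ K}
  {X Y : Over (Spec (CommRingCat.of R₀))} {a : Atlas R X} {b : Atlas S Y}
  {L : X.left → Subalgebra R₀ K} {M : Y.left → Subalgebra R₀ K}

/-- Inverses of units of a local subring. -/
theorem Loc_inv_mem {O : Subalgebra R₀ K} {x : K} (hx : x ∈ O) (h : IsUnit (⟨x, hx⟩ : O)) :
    x⁻¹ ∈ O := by
  obtain ⟨z, hz⟩ := h.exists_right_inv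
  have : x * z = 1 := congrArg Subtype.val hz
  rw [← eq_inv_of_mul_eq_one_right this]
  exact z.2

theorem Loc_isUnit {O : Subalgebra R₀ K} {x : K} (hx : x ∈ O) (hx0 : x ≠ 0) (h : x⁻¹ ∈ O) :
    IsUnit (⟨x, hx⟩ : O) :=
  IsUnit.of_mul_eq_one ⟨x⁻¹, h⟩ (Subtype.ext (mul_inv_cancel₀ hx0))

/-- Loc1: a point whose local ring is dominated by a local subring `O` of `K`, which contains the
ring of the chart `j`, lies in the chart `j`.  (Two centres of `O` on the separated scheme `X`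
coincide, the centre on `Spec (R i ⊔ R j)` maps to both.) -/
theorem LocData.mem_range_of_le (h : LocData a L) (x : X.left) (O : Subalgebra R₀ K)
    [IsLocalRing O] (h1 : L x ≤ O) (h2 : ∀ f ∈ L x, f⁻¹ ∈ O → f⁻¹ ∈ L x) (j : ι) (hj : R j ≤ O) :
    x ∈ Set.range (a.c j) := by
  obtain ⟨i, y, rfl⟩ := a.cover x
  have hi : R i ≤ O := (h.le i y).trans h1
  let T := R i ⊔ R j
  have hT : T ≤ O := sup_le hi hj
  let z : SpecS T := Spec.map (CommRingCat.ofHom (Subalgebra.inclusion hT).toRingHom)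
    (IsLocalRing.closedPoint O)
  have hz : specIncl (le_sup_left : R i ≤ T) z = y := by
    apply PrimeSpectrum.ext
    ext r
    change (Subalgebra.inclusion hT (Subalgebra.inclusion le_sup_left r)) ∈
      IsLocalRing.maximalIdeal O ↔ _
    rw [IsLocalRing.mem_maximalIdeal, mem_nonunits_iff, h.prime i y r]
    have hrO : (r : K) ∈ O := hi r.2
    have e : Subalgebra.inclusion hT (Subalgebra.inclusion le_sup_left r) = ⟨(r : K), hrO⟩ := rfl
    rw [e]
    constructor
    · intro hr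
      by_contra hcon
      push Not at hcon
      exact hr (Loc_isUnit hrO hcon.1 (h1 hcon.2))
    · rintro (hr | hr) hu
      · have : (⟨(r : K), hrO⟩ : O) = 0 := Subtype.ext hr
        rw [this] at hu
        exact not_isUnit_zero hu
      · exact hr (h2 r (h.le i y r.2) (Loc_inv_mem hrO hu))
  refine ⟨specIncl (le_sup_right : R j ≤ T) z, ?_⟩
  have e := congrArg (fun q : SpecS T ⟶ X.left ↦ q z) (glue a i j T le_sup_left le_sup_right)
  rw [← hz]
  exact e.symm

/-- Loc2: `x` is in the chart `j` if and only if the local ring contains the ring `R j`. -/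
theorem LocData.mem_range_iff (h : LocData a L) (x : X.left) (j : ι) :
    x ∈ Set.range (a.c j) ↔ R j ≤ L x := by
  constructor
  · rintro ⟨y, rfl⟩
    exact h.le j y
  · intro hj
    have := h.isLocal x
    exact h.mem_range_of_le x (L x) le_rfl (fun f _ hf ↦ hf) j hj

/-- Loc3: two points whose local rings are dominated by the same local ring coincide. -/
theorem LocData.eq_of_dominated (h : LocData a L) (x y : X.left) (O : Subalgebra R₀ K)
    [IsLocalRing O] (h1 : L x ≤ O) (h2 : ∀ f ∈ L x, f⁻¹ ∈ O → f⁻¹ ∈ L x)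
    (h3 : L y ≤ O) (h4 : ∀ f ∈ L y, f⁻¹ ∈ O → f⁻¹ ∈ L y) : x = y := by
  obtain ⟨j, y', rfl⟩ := a.cover y
  obtain ⟨x', rfl⟩ := h.mem_range_of_le x O h1 h2 j ((h.le j y').trans h3)
  congr 1
  apply PrimeSpectrum.ext
  ext r
  rw [h.prime j x' r, h.prime j y' r]
  have k1 : (r : K)⁻¹ ∈ L (a.c j x') ↔ (r : K)⁻¹ ∈ O :=
    ⟨fun hr ↦ h1 hr, fun hr ↦ h2 _ (h.le j x' r.2) hr⟩
  have k2 : (r : K)⁻¹ ∈ L (a.c j y') ↔ (r : K)⁻¹ ∈ O :=
    ⟨fun hr ↦ h3 hr, fun hr ↦ h4 _ (h.le j y' r.2) hr⟩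
  rw [k1, k2]

/-- Loc4: the point is determined by its local ring. -/
theorem LocData.ext (h : LocData a L) {x y : X.left} (hxy : L x = L y) : x = y := by
  have := h.isLocal x
  exact h.eq_of_dominated x y (L x) le_rfl (fun f _ hf ↦ hf) hxy.ge
    (fun f _ hf ↦ by rw [← hxy]; exact hf)

section Hom

variable (f : X ⟶ Y)

/-- Loc5: the local ring at `f x` is contained in the local ring at `x`. -/
theorem LocData.le_of_hom (h : LocData a L) (h' : LocData b M)
    (hf : ∀ i j (hij : S j ≤ R i), a.c i ≫ f.left = specIncl hij ≫ b.c j)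
    (hs : ∀ i, ∃ j, S j ≤ R i) (x : X.left) : M (f.left x) ≤ L x := by
  obtain ⟨i, y, rfl⟩ := a.cover x
  obtain ⟨j, hij⟩ := hs i
  have e : f.left (a.c i y) = b.c j (specIncl hij y) := by
    rw [← Scheme.Hom.comp_apply, ← Scheme.Hom.comp_apply, hf i j hij]
  rw [e]
  intro g hg
  obtain ⟨r, hr, s, hs', hs0, hsi, rfl⟩ := (h'.loc j _ g).1 hg
  refine (L _).mul_mem (h.le i y (hij hr)) ?_
  by_contra hcon
  have h1 : Subalgebra.inclusion hij ⟨s, hs'⟩ ∈ PrimeSpectrum.asIdeal y :=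
    (h.prime i y _).2 (Or.inr hcon)
  have h2 : (⟨s, hs'⟩ : S j) ∈ PrimeSpectrum.asIdeal (specIncl hij y) := h1
  rcases (h'.prime j _ _).1 h2 with h3 | h3
  · exact hs0 h3
  · exact h3 hsi

/-- Loc6: domination. -/
theorem LocData.dom_of_hom (h : LocData a L) (h' : LocData b M)
    (hf : ∀ i j (hij : S j ≤ R i), a.c i ≫ f.left = specIncl hij ≫ b.c j)
    (hs : ∀ i, ∃ j, S j ≤ R i) (x : X.left) (g : K) (hg : g ∈ M (f.left x)) (hgi : g⁻¹ ∈ L x) :
    g⁻¹ ∈ M (f.left x) := by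
  have hle := h.le_of_hom f h' hf hs x
  obtain ⟨i, y, rfl⟩ := a.cover x
  obtain ⟨j, hij⟩ := hs i
  have e : f.left (a.c i y) = b.c j (specIncl hij y) := by
    rw [← Scheme.Hom.comp_apply, ← Scheme.Hom.comp_apply, hf i j hij]
  rw [e] at hg hle ⊢
  obtain ⟨r, hr, s, hs', hs0, hsi, rfl⟩ := (h'.loc j _ g).1 hg
  by_cases hr0 : r = 0
  · rw [hr0, zero_mul, inv_zero]
    exact zero_mem _
  rw [mul_inv, inv_inv] at hgi ⊢
  refine (M _).mul_mem ?_ (h'.le j _ hs')
  have hri : r⁻¹ ∈ L (a.c i y) := by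
    have : r⁻¹ = r⁻¹ * s * s⁻¹ := by
      rw [mul_assoc, mul_inv_cancel₀ hs0, mul_one]
    rw [this]
    exact (L _).mul_mem hgi (hle hsi)
  by_contra hcon
  have h2 : (⟨r, hr⟩ : S j) ∈ PrimeSpectrum.asIdeal (specIncl hij y) :=
    (h'.prime j _ _).2 (Or.inr hcon)
  have h1 : Subalgebra.inclusion hij ⟨r, hr⟩ ∈ PrimeSpectrum.asIdeal y := h2
  rcases (h.prime i y _).1 h1 with h3 | h3
  · exact hr0 h3
  · exact h3 hri

/-- Loc7: `f x` is in the chart `j` if and only if `S j` is contained in the local ring at `x`. -/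
theorem LocData.hom_mem_range_iff (h : LocData a L) (h' : LocData b M)
    (hf : ∀ i j (hij : S j ≤ R i), a.c i ≫ f.left = specIncl hij ≫ b.c j)
    (hs : ∀ i, ∃ j, S j ≤ R i) (x : X.left) (j : κ) :
    f.left x ∈ Set.range (b.c j) ↔ S j ≤ L x := by
  constructor
  · intro hj
    exact ((h'.mem_range_iff _ j).1 hj).trans (h.le_of_hom f h' hf hs x)
  · intro hj
    have := h.isLocal x
    exact h'.mem_range_of_le _ (L x) (h.le_of_hom f h' hf hs x)
      (fun g hg hgi ↦ h.dom_of_hom f h' hf hs x g hg hgi) j hj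

end Hom

end H1F.FLIP
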