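import Pool.Agent.Lib.H1F.FLIP.F2

/-!
# H1F FLIP F3: two charts `S[t]`, `S[t⁻¹]` are proper over `S`
-/

open CategoryTheory CategoryTheory.Limits AlgebraicGeometry Order

universe u

namespace H1F.FLIP

set_option linter.unusedSectionVars false

variable {R₀ : Type u} [CommRing R₀] {K : Type u} [Field K] [Algebra R₀ K]
  {ι κ : Type} [Finite ι] [Nonempty ι] [Finite κ] [Nonempty κ]

/-- A ring homomorphism on `T = S ⊔ adjoin {t}` which sends `S` and `t` into a subring. -/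
theorem F3_maps {L : Type*} [CommRing L] (S T : Subalgebra R₀ K) (t : K) (hST : S ≤ T)
    (ht : t ∈ T) (hT : T = S ⊔ Algebra.adjoin R₀ {t}) (φ : T →+* L) (W : Subring L)
    (h1 : ∀ s : S, φ (Subalgebra.inclusion hST s) ∈ W) (h2 : φ ⟨t, ht⟩ ∈ W) (r : T) :
    φ r ∈ W := by
  have hle : T = Algebra.adjoin R₀ ((S : Set K) ∪ {t}) := by
    rw [Algebra.adjoin_union, Algebra.adjoin_eq, ← hT]
  have key : ∀ x ∈ Algebra.adjoin R₀ ((S : Set K) ∪ {t}), ∀ hx : x ∈ T, φ ⟨x, hx⟩ ∈ W := by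
    intro x hx
    induction hx using Algebra.adjoin_induction with
    | mem y hy =>
      intro hyT
      rcases hy with hy | hy
      · exact h1 ⟨y, hy⟩
      · rw [Set.mem_singleton_iff] at hy
        subst hy
        exact h2
    | algebraMap r =>
      intro hr
      exact h1 ⟨algebraMap R₀ K r, S.algebraMap_mem r⟩
    | add y z hy hz ihy ihz =>
      intro h
      have hyT : y ∈ T := hle ▸ hy
      have hzT : z ∈ T := hle ▸ hz
      have : (⟨y + z, h⟩ : T) = ⟨y, hyT⟩ + ⟨z, hzT⟩ := rfl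
      rw [this, map_add]
      exact W.add_mem (ihy hyT) (ihz hzT)
    | mul y z hy hz ihy ihz =>
      intro h
      have hyT : y ∈ T := hle ▸ hy
      have hzT : z ∈ T := hle ▸ hz
      have : (⟨y * z, h⟩ : T) = ⟨y, hyT⟩ * ⟨z, hzT⟩ := rfl
      rw [this, map_mul]
      exact W.mul_mem (ihy hyT) (ihz hzT)
  exact key r (hle ▸ r.2) r.2

/-- F3: properness if the preimage of the chart `j` of `Y` is either the same chart or the union
of the two charts `S j [t]` and `S j [t⁻¹]`. -/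
theorem isProper_of_two_charts {R : ι → Subalgebra R₀ K} {S : κ → Subalgebra R₀ K}
    {X Y : Over (Spec (CommRingCat.of R₀))} (a : Atlas R X) (b : Atlas S Y) (f : X ⟶ Y)
    (hf : ∀ i j (hij : S j ≤ R i), a.c i ≫ f.left = specIncl hij ≫ b.c j)
    (hfg : ∀ i, (R i).FG) (J : ι → κ → Prop)
    (hcov : ∀ (x : X.left) (j : κ), f.left x ∈ Set.range (b.c j) →
      ∃ i, J i j ∧ x ∈ Set.range (a.c i))
    (hJ : ∀ i j, J i j → R i = S j ∨ ∃ (t : K) (i' : ι), t ≠ 0 ∧ J i' j ∧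
      R i = S j ⊔ Algebra.adjoin R₀ {t} ∧ R i' = S j ⊔ Algebra.adjoin R₀ {t⁻¹}) :
    IsProper f.left := by
  have hle : ∀ i j, J i j → S j ≤ R i := by
    intro i j hij
    rcases hJ i j hij with h | ⟨t, i', _, _, h, _⟩
    · exact h.ge
    · rw [h]; exact le_sup_left
  refine isProper_of_charts a b f hf hfg J hle hcov ?_
  intro i j hij V _ _ _ L _ _ _ φ hφ
  have self : ∀ (_ : ∀ r : R i, φ r ∈ (algebraMap V L).range),
      ∃ (i' : ι) (_ : J i' j) (φ' : ↥(R i ⊔ R i') →+* L),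
        (∀ r : R i, φ' (Subalgebra.inclusion le_sup_left r) = φ r) ∧
        ∀ r : R i', φ' (Subalgebra.inclusion le_sup_right r) ∈ (algebraMap V L).range := by
    intro h
    refine ⟨i, hij, φ.comp (Subalgebra.inclusion (sup_idem (R i)).le).toRingHom,
      fun r ↦ rfl, fun r ↦ h _⟩
  rcases hJ i j hij with h | ⟨t, i', ht0, hi'j, h, h'⟩
  · exact self fun r ↦ hφ ⟨r, h ▸ r.2⟩
  · have ht : t ∈ R i := by
      rw [h]
      exact (le_sup_right : Algebra.adjoin R₀ {t} ≤ S j ⊔ Algebra.adjoin R₀ {t})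
        (Algebra.subset_adjoin rfl)
    have ht' : t⁻¹ ∈ R i' := by
      rw [h']
      exact (le_sup_right : Algebra.adjoin R₀ {t⁻¹} ≤ S j ⊔ Algebra.adjoin R₀ {t⁻¹})
        (Algebra.subset_adjoin rfl)
    by_cases hv : φ ⟨t, ht⟩ ∈ (algebraMap V L).range
    · exact self (F3_maps (S j) (R i) t (hle i j hij) ht h φ _ hφ hv)
    · have hne : φ ⟨t, ht⟩ ≠ 0 := by
        intro h0
        rw [h0] at hv
        exact hv (zero_mem _)
      have hinv : (φ ⟨t, ht⟩)⁻¹ ∈ (algebraMap V L).range := by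
        rcases ValuationRing.isInteger_or_isInteger V (φ ⟨t, ht⟩) with h1 | h1
        · exact absurd h1 hv
        · exact h1
      have hsup : R i ⊔ R i' = R i ⊔ Algebra.adjoin R₀ {t⁻¹} := by
        rw [h', ← sup_assoc, sup_eq_left.2 (hle i j hij)]
      obtain ⟨φ', hφ'⟩ := extend_hom (R i) (R i ⊔ R i') ht ht0 le_sup_left hsup φ hne
      have hm : (⟨t, (le_sup_left : R i ≤ R i ⊔ R i') ht⟩ : ↥(R i ⊔ R i')) *
          ⟨t⁻¹, (le_sup_right : R i' ≤ R i ⊔ R i') ht'⟩ = 1 :=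
        Subtype.ext (mul_inv_cancel₀ ht0)
      have hm' : φ ⟨t, ht⟩ * φ' ⟨t⁻¹, (le_sup_right : R i' ≤ R i ⊔ R i') ht'⟩ = 1 := by
        rw [← hφ' ⟨t, ht⟩]
        change φ' ⟨t, (le_sup_left : R i ≤ R i ⊔ R i') ht⟩ * _ = 1
        rw [← map_mul, hm, map_one]
      have hti : φ' ⟨t⁻¹, (le_sup_right : R i' ≤ R i ⊔ R i') ht'⟩ = (φ ⟨t, ht⟩)⁻¹ :=
        eq_inv_of_mul_eq_one_right hm'
      refine ⟨i', hi'j, φ', hφ', ?_⟩
      refine F3_maps (S j) (R i') t⁻¹ (hle i' j hi'j) ht' h'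
        (φ'.comp (Subalgebra.inclusion (le_sup_right : R i' ≤ R i ⊔ R i')).toRingHom) _ ?_ ?_
      · intro s
        have := hφ s
        rw [← hφ'] at this
        exact this
      · change φ' ⟨t⁻¹, _⟩ ∈ _
        rw [hti]
        exact hinv

end H1F.FLIP
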