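import Pool.Agent.Lib.H1F.FLIP.Loc
import Pool.Agent.Lib.H1F.AT.A6

/-!
# H1F FLIP F16: the local rings of a glued scheme

`LocData` for the local rings of the scheme, transported to `K` by the isomorphism of the
function field with `K`.
-/

open CategoryTheory CategoryTheory.Limits AlgebraicGeometry Order

universe u

namespace H1F.FLIP

set_option linter.unusedSectionVars false

variable {k : Type u} [Field k] {K : Type u} [Field K] [Algebra k K]
  {ι : Type} [Finite ι] [Nonempty ι] {R : ι → Subalgebra k K}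
  {X : Over (Spec (CommRingCat.of k))}

/-- The ring of functions of a chart and its primes. -/
theorem F16_section {Y : Over (Spec (CommRingCat.of k))} [IsIntegral Y.left] {A : Type u}
    [CommRing A] (c : Spec (CommRingCat.of A) ⟶ Y.left) [IsOpenImmersion c]
    [hne : Nonempty c.opensRange] (φ : A →+* K) (e : Y.left.functionField →+* K)
    (h : Spec.map (CommRingCat.ofHom e) ≫ Y.left.fromSpecStalk (genericPoint Y.left) =
      Spec.map (CommRingCat.ofHom φ) ≫ c) (y : Spec (CommRingCat.of A)) (r : A) :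
    ∃ f : Y.left.functionField, e f = φ r ∧
      (r ∈ PrimeSpectrum.asIdeal y ↔ (f = 0 ∨ f⁻¹ ∉ localRing k Y (c y))) := by
  have hU : IsAffineOpen c.opensRange := isAffineOpen_opensRange c
  have hg : genericPoint Y.left ∈ c.opensRange := by
    obtain ⟨⟨x, hx⟩⟩ := hne
    exact ((genericPoint_spec Y.left).specializes trivial).mem_open c.opensRange.isOpen hx
  have hr : Set.range c = Set.range hU.fromSpec := by
    rw [hU.range_fromSpec]
    rfl
  let θ := IsOpenImmersion.isoOfRangeEq c hU.fromSpec hr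
  have hθ : θ.hom ≫ hU.fromSpec = c := IsOpenImmersion.isoOfRangeEq_hom_fac _ _ _
  let θ' : Γ(Y.left, c.opensRange) ⟶ CommRingCat.of A := Spec.preimage θ.hom
  have hθ' : Spec.map θ' = θ.hom := Spec.map_preimage _
  have hbij : Function.Bijective θ'.hom := by
    rw [← isIso_SpecMap_iff, hθ']
    infer_instance
  have hs : Y.left.fromSpecStalk (genericPoint Y.left) =
      Spec.map (Y.left.presheaf.germ c.opensRange (genericPoint Y.left) hg) ≫ hU.fromSpec :=
    (hU.fromSpecStalk_eq_fromSpecStalk hg).symm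
  have h0 := h.trans (congrArg (fun q ↦ Spec.map (CommRingCat.ofHom φ) ≫ q) hθ.symm)
  rw [hs, ← hθ', ← Category.assoc, ← Category.assoc, cancel_mono, ← Spec.map_comp,
    ← Spec.map_comp] at h0
  have h1 := Spec.map_injective h0
  obtain ⟨s, rfl⟩ := hbij.2 r
  have hx : c y ∈ c.opensRange := ⟨y, rfl⟩
  refine ⟨(Y.left.germToFunctionField c.opensRange).hom s, congrArg (fun q ↦ q.hom s) h1, ?_⟩
  let _ := Y.left.presheaf.algebra_section_stalk ⟨_, hx⟩
  have hloc := hU.isLocalization_stalk ⟨_, hx⟩
  have hz : hU.primeIdealOf ⟨_, hx⟩ = Spec.map θ' y := by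
    apply hU.fromSpec.isOpenEmbedding.injective
    rw [hU.fromSpec_primeIdealOf]
    change c y = _
    rw [hθ', ← Scheme.Hom.comp_apply, hθ]
  have h2 : θ'.hom s ∈ PrimeSpectrum.asIdeal y ↔ s ∈ (hU.primeIdealOf ⟨_, hx⟩).asIdeal := by
    rw [hz]
    rfl
  have h3 : s ∈ (hU.primeIdealOf ⟨_, hx⟩).asIdeal ↔
      ¬ IsUnit (Y.left.presheaf.germ c.opensRange _ hx s) := by
    have h3 := IsLocalization.AtPrime.isUnit_to_map_iff
      (Y.left.presheaf.stalk (c y)) (hU.primeIdealOf ⟨_, hx⟩).asIdeal s
    rw [← not_iff_not, not_not]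
    exact h3.symm
  rw [h2, h3, A5_isUnit, Scheme.algebraMap_germ_eq_germToFunctionField]

/-- AT: `LocData` for the local rings of `X`. -/
theorem locData_of_isFF (a : Atlas R X) [IsIntegral X.left] (h : ∀ i, IsFractionRing (R i) K)
    {e : X.left.functionField ≃ₐ[k] K} (he : a.IsFF e) :
    LocData a (fun x ↦ (localRing k X x).map e.toAlgHom) := by
  have c := a.charts h he
  have hmem : ∀ (x : X.left) (f : K), f ∈ (localRing k X x).map e.toAlgHom ↔
      e.symm f ∈ localRing k X x := by
    intro x f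
    constructor
    · rintro ⟨g, hg, rfl⟩
      change e.symm (e g) ∈ _
      rw [e.symm_apply_apply]
      exact hg
    · intro hf
      exact ⟨e.symm f, hf, e.apply_symm_apply f⟩
  have hx : ∀ i (y : SpecS (R i)), a.c i y ∈ (a.c i).opensRange (H := a.isOpen i) :=
    fun i y ↦ ⟨y, rfl⟩
  refine ⟨fun x ↦ ?_, fun i y r hr ↦ ?_, fun i y r ↦ ?_, fun i y f ↦ ?_⟩
  · have := isLocalRing_localRing X x
    exact ((localRing k X x).equivMapOfInjective e.toAlgHom e.injective).toRingEquiv.isLocalRing
  · refine (hmem _ _).2 (A5_le c (hx i y) ?_)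
    change e (e.symm r) ∈ R i
    rw [e.apply_symm_apply]
    exact hr
  · have := a.isOpen i
    have : Nonempty (a.c i).opensRange := c.nonempty i
    obtain ⟨f, hf, hf'⟩ := F16_section (a.c i) (R i).val.toRingHom
      (e : X.left.functionField →+* K) (he i) y r
    have hf2 : e f = (r : K) := hf
    rw [hf', hmem, ← hf2, map_inv₀, e.symm_apply_apply]
    simp
  · rw [hmem, c.mem_localRing (hx i y)]
    constructor
    · rintro ⟨a', ha, s, hs, hs0, hs1, hf⟩
      refine ⟨e a', ha, e s, hs, ?_, ?_, ?_⟩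
      · simpa using hs0
      · rw [hmem, map_inv₀, e.symm_apply_apply]
        exact hs1
      · rw [← map_inv₀, ← map_mul, ← hf, e.apply_symm_apply]
    · rintro ⟨a', ha, s, hs, hs0, hs1, rfl⟩
      rw [hmem, map_inv₀] at hs1
      refine ⟨e.symm a', ?_, e.symm s, ?_, ?_, hs1, ?_⟩
      · change e (e.symm a') ∈ R i
        rwa [e.apply_symm_apply]
      · change e (e.symm s) ∈ R i
        rwa [e.apply_symm_apply]
      · simpa using hs0
      · rw [map_mul, map_inv₀]

end H1F.FLIP
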