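import Pool.Agent.Lib.H1F.Atlas
import Pool.Agent.Lib.H1F.FLIP.F1

/-!
# H1F FLIP F2: gluing of the charts and the valuative criterion
-/

open CategoryTheory CategoryTheory.Limits AlgebraicGeometry Order

universe u

namespace H1F.FLIP

set_option linter.unusedSectionVars false

variable {R₀ : Type u} [CommRing R₀] {K : Type u} [Field K] [Algebra R₀ K]
  {ι κ : Type} [Finite ι] [Nonempty ι] [Finite κ] [Nonempty κ]

/-- The generic point is dense. -/
theorem isDominant_specGen (T : Subalgebra R₀ K) : IsDominant (specGen T) := by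
  refine ⟨(PrimeSpectrum.denseRange_comap_iff_ker_le_nilRadical _).2 ?_⟩
  have h : RingHom.ker (CommRingCat.ofHom T.val.toRingHom).hom = ⊥ :=
    (RingHom.injective_iff_ker_eq_bot _).1 Subtype.val_injective
  rw [h]
  exact bot_le

/-- F2a: the charts agree on `Spec T` for every ring `T` which contains both. -/
theorem glue {R : ι → Subalgebra R₀ K} {X : Over (Spec (CommRingCat.of R₀))}
    (a : Atlas R X) (i j : ι) (T : Subalgebra R₀ K) (hi : R i ≤ T) (hj : R j ≤ T) :
    specIncl hi ≫ a.c i = specIncl hj ≫ a.c j := by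
  have := a.separated
  have := isDominant_specGen T
  refine ext_of_isDominant_of_isSeparated X.hom ?_ (specGen T) ?_
  · rw [Category.assoc, Category.assoc, a.base, a.base, specBase, specBase, specIncl, specIncl,
      ← Spec.map_comp, ← Spec.map_comp, ← CommRingCat.ofHom_comp, ← CommRingCat.ofHom_comp]
    rfl
  · rw [← Category.assoc, ← Category.assoc]
    have h1 : specGen T ≫ specIncl hi = specGen (R i) := by
      rw [specGen, specIncl, ← Spec.map_comp, ← CommRingCat.ofHom_comp]
      rfl
    have h2 : specGen T ≫ specIncl hj = specGen (R j) := by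
      rw [specGen, specIncl, ← Spec.map_comp, ← CommRingCat.ofHom_comp]
      rfl
    rw [h1, h2]
    exact a.compat i j

/-- The charts form an open cover. -/
noncomputable def cover {R : ι → Subalgebra R₀ K} {X : Over (Spec (CommRingCat.of R₀))}
    (a : Atlas R X) : X.left.OpenCover :=
  Scheme.Cover.mkOfCovers ι (fun i ↦ SpecS (R i)) a.c a.cover a.isOpen

theorem compactSpace {R : ι → Subalgebra R₀ K} {X : Over (Spec (CommRingCat.of R₀))}
    (a : Atlas R X) : CompactSpace X.left := by
  refine ⟨?_⟩
  have h : (Set.univ : Set X.left) = ⋃ i, Set.range (a.c i) := by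
    ext x
    obtain ⟨i, y, hy⟩ := a.cover x
    simp only [Set.mem_univ, Set.mem_iUnion, true_iff]
    exact ⟨i, y, hy⟩
  rw [h]
  exact isCompact_iUnion fun i ↦ isCompact_range (a.c i).continuous

theorem locallyOfFiniteType {R : ι → Subalgebra R₀ K} {X : Over (Spec (CommRingCat.of R₀))}
    (a : Atlas R X) (h : ∀ i, (R i).FG) : LocallyOfFiniteType X.hom := by
  have : IsZariskiLocalAtSource (@LocallyOfFiniteType : MorphismProperty Scheme.{u}) :=
    HasRingHomProperty.instIsZariskiLocalAtSource (Q := RingHom.FiniteType)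
  rw [IsZariskiLocalAtSource.iff_of_openCover (P := @LocallyOfFiniteType) (cover a)]
  intro i
  change LocallyOfFiniteType (a.c i ≫ X.hom)
  rw [a.base i, specBase, HasRingHomProperty.Spec_iff (P := @LocallyOfFiniteType)]
  exact RingHom.finiteType_algebraMap.2 ((Subalgebra.fg_iff_finiteType (R i)).1 (h i))

/-- F2b: properness by the valuative criterion.  `J i j` means that the chart `i` of `X` is one
of the charts which cover the preimage of the chart `j` of `Y`. -/
theorem isProper_of_charts {R : ι → Subalgebra R₀ K} {S : κ → Subalgebra R₀ K}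
    {X Y : Over (Spec (CommRingCat.of R₀))} (a : Atlas R X) (b : Atlas S Y) (f : X ⟶ Y)
    (hf : ∀ i j (hij : S j ≤ R i), a.c i ≫ f.left = specIncl hij ≫ b.c j)
    (hfg : ∀ i, (R i).FG) (J : ι → κ → Prop) (hJ : ∀ i j, J i j → S j ≤ R i)
    (hcov : ∀ (x : X.left) (j : κ), f.left x ∈ Set.range (b.c j) →
      ∃ i, J i j ∧ x ∈ Set.range (a.c i))
    (hval : ∀ i j (hij : J i j), ∀ (V : Type u) [CommRing V] [IsDomain V] [ValuationRing V]
      (L : Type u) [Field L] [Algebra V L] [IsFractionRing V L] (φ : R i →+* L),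
      (∀ s : S j, φ (Subalgebra.inclusion (hJ i j hij) s) ∈ (algebraMap V L).range) →
      ∃ (i' : ι) (_ : J i' j) (φ' : ↥(R i ⊔ R i') →+* L),
        (∀ r : R i, φ' (Subalgebra.inclusion le_sup_left r) = φ r) ∧
        ∀ r : R i', φ' (Subalgebra.inclusion le_sup_right r) ∈ (algebraMap V L).range) :
    IsProper f.left := by
  have := a.separated
  have := b.separated
  have := compactSpace a
  have hlft := locallyOfFiniteType a hfg
  have hcomp : f.left ≫ Y.hom = X.hom := Over.w f
  have h1 : IsSeparated f.left := by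
    have : IsSeparated (f.left ≫ Y.hom) := by rw [hcomp]; infer_instance
    exact IsSeparated.of_comp f.left Y.hom
  have h2 : QuasiCompact f.left := by
    have : QuasiCompact X.hom := inferInstance
    have : QuasiCompact (f.left ≫ Y.hom) := by rw [hcomp]; infer_instance
    exact QuasiCompact.of_comp f.left Y.hom
  have h3 : LocallyOfFiniteType f.left := by
    have : LocallyOfFiniteType (f.left ≫ Y.hom) := by rw [hcomp]; infer_instance
    exact locallyOfFiniteType_of_comp f.left Y.hom
  have h4 : UniversallyClosed f.left := by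
    refine UniversallyClosed.of_valuativeCriterion f.left ?_
    rintro ⟨V, L, i₁, i₂, ⟨w⟩⟩
    obtain ⟨j, t, ht⟩ := b.cover (i₂ (IsLocalRing.closedPoint V))
    have := b.isOpen j
    have hr₂ : Set.range i₂ ⊆ Set.range (b.c j) := by
      rintro _ ⟨z, rfl⟩
      have hz : i₂ z ⤳ i₂ (IsLocalRing.closedPoint V) :=
        (IsLocalRing.specializes_closedPoint z).map i₂.continuous
      exact hz.mem_open (b.c j).isOpenEmbedding.isOpen_range ⟨t, ht⟩
    let g₂ := IsOpenImmersion.lift (b.c j) i₂ hr₂
    have hg₂ : g₂ ≫ b.c j = i₂ := IsOpenImmersion.lift_fac (b.c j) i₂ hr₂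
    let ψ := Spec.preimage g₂
    have hψ : Spec.map ψ = g₂ := Spec.map_preimage g₂
    let zL : Spec (CommRingCat.of L) := IsLocalRing.closedPoint L
    have hx : f.left (i₁ zL) ∈ Set.range (b.c j) := by
      apply hr₂
      refine ⟨Spec.map (CommRingCat.ofHom (algebraMap V L)) zL, ?_⟩
      rw [← Scheme.Hom.comp_apply, ← Scheme.Hom.comp_apply, w]
    obtain ⟨i, hij, x', hx'⟩ := hcov _ j hx
    have := a.isOpen i
    have hr₁ : Set.range i₁ ⊆ Set.range (a.c i) := by
      rintro _ ⟨z, rfl⟩
      have : z = zL := Subsingleton.elim (α := PrimeSpectrum L) _ _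
      rw [this]
      exact ⟨x', hx'⟩
    let g₁ := IsOpenImmersion.lift (a.c i) i₁ hr₁
    have hg₁ : g₁ ≫ a.c i = i₁ := IsOpenImmersion.lift_fac (a.c i) i₁ hr₁
    let φ := Spec.preimage g₁
    have hφ : Spec.map φ = g₁ := Spec.map_preimage g₁
    have hcomm : Spec.map φ ≫ specIncl (hJ i j hij) =
        Spec.map (CommRingCat.ofHom (algebraMap V L)) ≫ Spec.map ψ := by
      rw [← cancel_mono (b.c j), Category.assoc, Category.assoc, ← hf i j (hJ i j hij), hφ, hψ,
        hg₂, ← w, ← hg₁, Category.assoc]
    rw [specIncl, ← Spec.map_comp, ← Spec.map_comp] at hcomm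
    have hcomm' := Spec.map_injective hcomm
    have hcs : ∀ s : S j, φ.hom (Subalgebra.inclusion (hJ i j hij) s) =
        algebraMap V L (ψ.hom s) := fun s ↦ by
      have := congrArg (fun q ↦ q.hom s) hcomm'
      simpa using this
    obtain ⟨i', hi'j, φ', hφ'1, hφ'2⟩ := hval i j hij V L φ.hom fun s ↦ ⟨ψ.hom s, (hcs s).symm⟩
    have hinj : Function.Injective (algebraMap V L) := IsFractionRing.injective V L
    -- the lift `θ : R i' → V`
    let ρ : R i' →+* L := φ'.comp (Subalgebra.inclusion
      (le_sup_right : R i' ≤ R i ⊔ R i')).toRingHom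
    have hρ : ∀ r : R i', ρ r ∈ (algebraMap V L).range := hφ'2
    let e : V ≃+* (algebraMap V L).range := RingEquiv.ofBijective (algebraMap V L).rangeRestrict
      ⟨fun x y h ↦ hinj (congrArg Subtype.val h), (algebraMap V L).rangeRestrict_surjective⟩
    let θ : R i' →+* V := e.symm.toRingHom.comp (ρ.codRestrict _ hρ)
    have hθ : ∀ r : R i', algebraMap V L (θ r) = ρ r := fun r ↦
      congrArg Subtype.val (e.apply_symm_apply (ρ.codRestrict _ hρ r))
    refine ⟨⟨⟨Spec.map (CommRingCat.ofHom θ) ≫ a.c i', ?_, ?_⟩⟩⟩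
    · have e1 : Spec.map (CommRingCat.ofHom (algebraMap V L)) ≫ Spec.map (CommRingCat.ofHom θ) =
          Spec.map (CommRingCat.ofHom φ') ≫ specIncl (le_sup_right : R i' ≤ R i ⊔ R i') := by
        rw [specIncl, ← Spec.map_comp, ← Spec.map_comp, ← CommRingCat.ofHom_comp,
          ← CommRingCat.ofHom_comp]
        congr 2
        ext r
        exact hθ r
      have e2 : Spec.map (CommRingCat.ofHom φ') ≫ specIncl (le_sup_left : R i ≤ R i ⊔ R i') =
          Spec.map φ := by
        rw [specIncl, ← Spec.map_comp, ← CommRingCat.ofHom_comp]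
        congr 1
        ext r
        exact hφ'1 r
      rw [← Category.assoc, e1, Category.assoc, ← glue a i i' _ le_sup_left le_sup_right,
        ← Category.assoc, e2, hφ, hg₁]
    · have e3 : Spec.map (CommRingCat.ofHom θ) ≫ specIncl (hJ i' j hi'j) = Spec.map ψ := by
        rw [specIncl, ← Spec.map_comp, ← CommRingCat.ofHom_comp]
        congr 1
        ext s
        apply hinj
        change algebraMap V L (θ (Subalgebra.inclusion (hJ i' j hi'j) s)) =
          algebraMap V L (ψ.hom s)
        rw [hθ, ← hcs s]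
        change φ' (Subalgebra.inclusion le_sup_right (Subalgebra.inclusion (hJ i' j hi'j) s)) = _
        rw [← hφ'1]
        rfl
      change (Spec.map (CommRingCat.ofHom θ) ≫ a.c i') ≫ f.left = i₂
      rw [Category.assoc, hf i' j (hJ i' j hi'j), ← Category.assoc, e3, hψ, hg₂]
  exact { }

end H1F.FLIP
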