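import Pool.Agent.Lib.H1F.FLIP.Loc
import Pool.Agent.Lib.H1F.Defs

/-!
# H1F FLIP F10: principal open subsets, small morphisms
-/

open CategoryTheory CategoryTheory.Limits AlgebraicGeometry Order

universe u

namespace H1F.FLIP

set_option linter.unusedSectionVars false

variable {R₀ : Type u} [CommRing R₀] {K : Type u} [Field K] [Algebra R₀ K]
  {ι κ : Type} [Finite ι] [Nonempty ι] [Finite κ] [Nonempty κ]
  {R : ι → Subalgebra R₀ K} {S : κ → Subalgebra R₀ K}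
  {X Y : Over (Spec (CommRingCat.of R₀))} {a : Atlas R X} {b : Atlas S Y}
  {L : X.left → Subalgebra R₀ K} {M : Y.left → Subalgebra R₀ K}

/-- F10a: the open set `Spec (R i)[1/g]`. -/
theorem isOpenImmersion_away {T T' : Subalgebra R₀ K} {g : K} (hg : g ∈ T) (hg0 : g ≠ 0)
    (hT : T' = T ⊔ Algebra.adjoin R₀ {g⁻¹}) (hle : T ≤ T') : IsOpenImmersion (specIncl hle) := by
  let _ : Algebra T T' := (Subalgebra.inclusion hle).toRingHom.toAlgebra
  have : IsLocalization.Away (⟨g, hg⟩ : T) T' := isLocalization_away T T' hg hg0 hle hT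
  exact IsOpenImmersion.of_isLocalization (S := T') (⟨g, hg⟩ : T)

theorem range_away {T T' : Subalgebra R₀ K} {g : K} (hg : g ∈ T) (hg0 : g ≠ 0)
    (hT : T' = T ⊔ Algebra.adjoin R₀ {g⁻¹}) (hle : T ≤ T') (y : SpecS T) :
    y ∈ Set.range (specIncl hle) ↔ (⟨g, hg⟩ : T) ∉ PrimeSpectrum.asIdeal y := by
  let _ : Algebra T T' := (Subalgebra.inclusion hle).toRingHom.toAlgebra
  have : IsLocalization.Away (⟨g, hg⟩ : T) T' := isLocalization_away T T' hg hg0 hle hT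
  have h := PrimeSpectrum.localization_away_comap_range T' (⟨g, hg⟩ : T)
  have h' : y ∈ Set.range (PrimeSpectrum.comap (algebraMap T T')) ↔
      (⟨g, hg⟩ : T) ∉ PrimeSpectrum.asIdeal y := by
    rw [h]
    exact Iff.rfl
  exact h'

/-- F10b: the range of `Spec T' ⟶ X`, where `T' = (R i)[1/g]`. -/
theorem LocData.mem_range_away (h : LocData a L) (i : ι) {g : K} (hg : g ∈ R i) (hg0 : g ≠ 0)
    (T : Subalgebra R₀ K) (hT : T = R i ⊔ Algebra.adjoin R₀ {g⁻¹}) (hle : R i ≤ T) (x : X.left) :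
    x ∈ Set.range (specIncl hle ≫ a.c i) ↔ T ≤ L x := by
  have hgi : g⁻¹ ∈ T := by
    rw [hT]
    exact (le_sup_right : Algebra.adjoin R₀ {g⁻¹} ≤ _) (Algebra.subset_adjoin rfl)
  constructor
  · rintro ⟨z, rfl⟩
    rw [Scheme.Hom.comp_apply]
    refine hT.le.trans (sup_le (h.le i _) (Algebra.adjoin_le ?_))
    simp only [Set.singleton_subset_iff, SetLike.mem_coe]
    by_contra hcon
    have h1 : (⟨g, hg⟩ : R i) ∈ PrimeSpectrum.asIdeal (specIncl hle z) :=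
      (h.prime i _ _).2 (Or.inr hcon)
    exact (range_away hg hg0 hT hle _).1 ⟨z, rfl⟩ h1
  · intro hx
    obtain ⟨y, rfl⟩ := (h.mem_range_iff x i).2 (hle.trans hx)
    have hy : (⟨g, hg⟩ : R i) ∉ PrimeSpectrum.asIdeal y := by
      intro hcon
      rcases (h.prime i _ _).1 hcon with h1 | h1
      · exact hg0 h1
      · exact h1 (hx hgi)
    obtain ⟨z, hz⟩ := (range_away hg hg0 hT hle y).2 hy
    refine ⟨z, ?_⟩
    rw [Scheme.Hom.comp_apply, hz]

/-- F10c: small morphisms.  `G i j g` : the open subset `Spec (S j)[1/g]` of `Y` is also an open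
subset of the chart `i` of `X`. -/
theorem isSmall_of_good (hL : LocData a L) (hM : LocData b M) (f : X ⟶ Y)
    (hf : ∀ i j (hij : S j ≤ R i), a.c i ≫ f.left = specIncl hij ≫ b.c j)
    (hs : ∀ i, ∃ j, S j ≤ R i) (G : ι → κ → K → Prop)
    (hG : ∀ i j g, G i j g → g ∈ S j ∧ g ≠ 0 ∧ S j ≤ R i ∧
      R i ≤ S j ⊔ Algebra.adjoin R₀ {g⁻¹})
    (hne : ∃ i j g, G i j g)
    (hcod : ∀ x : X.left, coheight x ≤ 1 → ∃ i j g, G i j g ∧
      S j ⊔ Algebra.adjoin R₀ {g⁻¹} ≤ L x) :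
    IsSmall f.left ∧ ∀ x : X.left, (∃ i j g, G i j g ∧ S j ⊔ Algebra.adjoin R₀ {g⁻¹} ≤ L x) →
      M (f.left x) = L x := by
  -- the open subset
  have hR : ∀ i j g, G i j g → S j ⊔ Algebra.adjoin R₀ {g⁻¹} = R i ⊔ Algebra.adjoin R₀ {g⁻¹} := by
    intro i j g hg
    obtain ⟨_, _, h1, h2⟩ := hG i j g hg
    exact le_antisymm (sup_le_sup_right h1 _) (sup_le h2 le_sup_right)
  have hrange : ∀ i j g (hg : G i j g) (y : Y.left),
      y ∈ Set.range (specIncl (le_sup_left : S j ≤ S j ⊔ Algebra.adjoin R₀ {g⁻¹}) ≫ b.c j) ↔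
        S j ⊔ Algebra.adjoin R₀ {g⁻¹} ≤ M y := fun i j g hg y ↦
    hM.mem_range_away j (hG i j g hg).1 (hG i j g hg).2.1 _ rfl le_sup_left y
  have hopen : IsOpen {y : Y.left | ∃ i j g, G i j g ∧ S j ⊔ Algebra.adjoin R₀ {g⁻¹} ≤ M y} := by
    rw [isOpen_iff_forall_mem_open]
    rintro y ⟨i, j, g, hg, hy⟩
    have h1 := isOpenImmersion_away (hG i j g hg).1 (hG i j g hg).2.1 rfl
      (le_sup_left : S j ≤ S j ⊔ Algebra.adjoin R₀ {g⁻¹})
    have h2 := b.isOpen j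
    refine ⟨Set.range (specIncl (le_sup_left : S j ≤ S j ⊔ Algebra.adjoin R₀ {g⁻¹}) ≫ b.c j),
      ?_, ?_, (hrange i j g hg y).2 hy⟩
    · intro z hz
      exact ⟨i, j, g, hg, (hrange i j g hg z).1 hz⟩
    · exact (specIncl (le_sup_left : S j ≤ S j ⊔ Algebra.adjoin R₀ {g⁻¹}) ≫
        b.c j).isOpenEmbedding.isOpen_range
  let V : Y.left.Opens := ⟨_, hopen⟩
  have hfx : ∀ x : X.left, (∃ i j g, G i j g ∧ S j ⊔ Algebra.adjoin R₀ {g⁻¹} ≤ L x) →
      ∃ i j g, G i j g ∧ S j ⊔ Algebra.adjoin R₀ {g⁻¹} ≤ M (f.left x) := by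
    rintro x ⟨i, j, g, hg, hx⟩
    refine ⟨i, j, g, hg, ?_⟩
    have hj : S j ≤ L x := le_sup_left.trans hx
    have hj' : S j ≤ M (f.left x) :=
      (hM.mem_range_iff _ j).1 ((hL.hom_mem_range_iff f hM hf hs x j).2 hj)
    refine sup_le hj' (Algebra.adjoin_le ?_)
    simp only [Set.singleton_subset_iff, SetLike.mem_coe]
    refine hL.dom_of_hom f hM hf hs x g (hj' (hG i j g hg).1) ?_
    exact hx ((le_sup_right : Algebra.adjoin R₀ {g⁻¹} ≤ _) (Algebra.subset_adjoin rfl))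
  refine ⟨⟨V, ?_, ?_, fun x hx ↦ hfx x (hcod x hx)⟩, ?_⟩
  · obtain ⟨i, j, g, hg⟩ := hne
    have h0 : Nonempty (SpecS (S j ⊔ Algebra.adjoin R₀ {g⁻¹})) :=
      inferInstanceAs (Nonempty (PrimeSpectrum ↥(S j ⊔ Algebra.adjoin R₀ {g⁻¹})))
    obtain ⟨z⟩ := h0
    exact ⟨_, i, j, g, hg, (hrange i j g hg _).1 ⟨z, rfl⟩⟩
  · apply isIso_morphismRestrict
    rintro y ⟨i, j, g, hg, hy⟩
    have hleX : R i ≤ S j ⊔ Algebra.adjoin R₀ {g⁻¹} := (hG i j g hg).2.2.2
    have hleY : S j ≤ S j ⊔ Algebra.adjoin R₀ {g⁻¹} := le_sup_left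
    have h1 := isOpenImmersion_away (hG i j g hg).1 (hG i j g hg).2.1 rfl hleY
    have h1' := isOpenImmersion_away ((hG i j g hg).2.2.1 (hG i j g hg).1) (hG i j g hg).2.1
      (hR i j g hg) hleX
    have h2 := b.isOpen j
    have h3 := a.isOpen i
    refine ⟨SpecS (S j ⊔ Algebra.adjoin R₀ {g⁻¹}), specIncl hleX ≫ a.c i,
      specIncl hleY ≫ b.c j, inferInstance, inferInstance, ?_, (hrange i j g hg y).2 hy, ?_, ?_⟩
    · rw [Category.assoc, hf i j (hG i j g hg).2.2.1, ← Category.assoc, specIncl, specIncl,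
        specIncl, ← Spec.map_comp, ← CommRingCat.ofHom_comp]
      rfl
    · intro z hz
      exact ⟨i, j, g, hg, (hrange i j g hg z).1 hz⟩
    · intro x hx
      have h4 := (hrange i j g hg _).1 hx
      exact (hL.mem_range_away i ((hG i j g hg).2.2.1 (hG i j g hg).1) (hG i j g hg).2.1 _
        (hR i j g hg) hleX x).2 (h4.trans (hL.le_of_hom f hM hf hs x))
  · intro x hx
    obtain ⟨i, j, g, hg, hy⟩ := hfx x hx
    refine le_antisymm (hL.le_of_hom f hM hf hs x) ?_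
    -- `L x` is a localization of `R i`, and `R i ≤ M (f x)`
    have hRi : R i ≤ M (f.left x) := (hG i j g hg).2.2.2.trans hy
    have hxi : R i ≤ L x := hRi.trans (hL.le_of_hom f hM hf hs x)
    obtain ⟨y, rfl⟩ := (hL.mem_range_iff x i).2 hxi
    intro q hq
    obtain ⟨r, hr, s, hs', hs0, hsi, rfl⟩ := (hL.loc i y q).1 hq
    exact (M _).mul_mem (hRi hr) (hL.dom_of_hom f hM hf hs _ s (hRi hs') hsi)

end H1F.FLIP
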