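import Pool.Agent.Lib.H1F.FLIP.F9
import Pool.Agent.Lib.H1F.FLIP.F10

/-!
# H1F FLIP F11: the dimension of the local rings; centres
-/

open CategoryTheory CategoryTheory.Limits AlgebraicGeometry Order

universe u

namespace H1F.FLIP

set_option linter.unusedSectionVars false

variable {R₀ : Type u} [CommRing R₀] {K : Type u} [Field K] [Algebra R₀ K]
  {ι κ : Type} [Finite ι] [Nonempty ι] [Finite κ] [Nonempty κ]
  {R : ι → Subalgebra R₀ K} {S : κ → Subalgebra R₀ K}
  {X Y : Over (Spec (CommRingCat.of R₀))} {a : Atlas R X} {b : Atlas S Y}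
  {L : X.left → Subalgebra R₀ K} {M : Y.left → Subalgebra R₀ K}

/-- F11a: the local ring is a localization. -/
theorem LocData.isLocalization (h : LocData a L) (i : ι) (y : SpecS (R i)) :
    @IsLocalization.AtPrime (R i) _ (L (a.c i y)) _
      (Subalgebra.inclusion (h.le i y)).toRingHom.toAlgebra (PrimeSpectrum.asIdeal y) _ := by
  let _ : Algebra (R i) (L (a.c i y)) := (Subalgebra.inclusion (h.le i y)).toRingHom.toAlgebra
  have hmap : ∀ r : R i, ((algebraMap (R i) (L (a.c i y)) r : L (a.c i y)) : K) = r := fun r ↦ rfl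
  refine ⟨?_, ?_, ?_⟩
  · rintro ⟨s, hs⟩
    have hs' : ¬ (s ∈ PrimeSpectrum.asIdeal y) := hs
    rw [h.prime i y s] at hs'
    push Not at hs'
    exact Loc_isUnit (h.le i y s.2) hs'.1 hs'.2
  · rintro ⟨z, hz⟩
    obtain ⟨r, hr, s, hs, hs0, hsi, rfl⟩ := (h.loc i y z).1 hz
    have hs' : (⟨s, hs⟩ : R i) ∈ (PrimeSpectrum.asIdeal y).primeCompl := by
      intro hcon
      rcases (h.prime i y _).1 hcon with h1 | h1
      · exact hs0 h1
      · exact h1 hsi
    refine ⟨⟨⟨r, hr⟩, ⟨⟨s, hs⟩, hs'⟩⟩, ?_⟩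
    apply Subtype.ext
    change r * s⁻¹ * s = r
    rw [mul_assoc, inv_mul_cancel₀ hs0, mul_one]
  · intro r s hrs
    refine ⟨1, ?_⟩
    have := congrArg (Subtype.val) hrs
    rw [hmap, hmap] at this
    rw [Subtype.ext this]

/-- F11b: the dimension of the local ring is the codimension of the point. -/
theorem LocData.ringKrullDim_eq (h : LocData a L) (x : X.left) :
    ringKrullDim (L x) = coheight x := by
  obtain ⟨i, y, rfl⟩ := a.cover x
  let _ : Algebra (R i) (L (a.c i y)) := (Subalgebra.inclusion (h.le i y)).toRingHom.toAlgebra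
  have h1 : IsLocalization.AtPrime (L (a.c i y)) (PrimeSpectrum.asIdeal y) := h.isLocalization i y
  have h2 := a.isOpen i
  rw [IsLocalization.AtPrime.ringKrullDim_eq_height (PrimeSpectrum.asIdeal y) (L (a.c i y))]
  apply WithBot.coe_eq_coe.mpr
  have h3 : coheight (a.c i y) = coheight y := coheight_eq_of_isOpenImmersion (x := y) (a.c i)
  rw [h3]
  exact idealHeight_eq_coheight (CommRingCat.of (R i)) y

/-- F11c: at a point of codimension zero everything is invertible. -/
theorem LocData.inv_mem_of_coheight (h : LocData a L) {x : X.left} (hx : coheight x = 0) {g : K}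
    (hg : g ∈ L x) : g⁻¹ ∈ L x := by
  have h1 : ringKrullDim (L x) = 0 := by rw [h.ringKrullDim_eq x, hx]; rfl
  have h2 : Ring.KrullDimLE 0 (L x) := by
    rw [Ring.krullDimLE_iff, h1]
    rfl
  have h3 : IsField (L x) := Ring.KrullDimLE.isField_of_isDomain
  by_cases hg0 : g = 0
  · rw [hg0, inv_zero]; exact zero_mem _
  · obtain ⟨z, hz⟩ := h3.mul_inv_cancel (a := ⟨g, hg⟩) (fun h0 ↦ hg0 (congrArg Subtype.val h0))
    have : g * z = 1 := congrArg Subtype.val hz
    rw [← eq_inv_of_mul_eq_one_right this]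
    exact z.2

/-- F11d: points with the same local ring have the same codimension (on possibly different
schemes with the same function field). -/
theorem LocData.coheight_eq (h : LocData a L) (h' : LocData b M) {x : X.left} {y : Y.left}
    (hxy : L x = M y) : coheight x = coheight y := by
  have h1 := h.ringKrullDim_eq x
  have h2 := h'.ringKrullDim_eq y
  rw [hxy, h2] at h1
  exact (WithBot.coe_eq_coe.1 h1).symm

/-- F11e: the centre of a local subring `O` of `K` which contains the ring of a chart. -/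
theorem LocData.exists_centre (h : LocData a L) (i : ι) (O : Subalgebra R₀ K) [IsLocalRing O]
    (hi : R i ≤ O) : ∃ x : X.left, R i ≤ L x ∧ L x ≤ O ∧ ∀ f ∈ L x, f⁻¹ ∈ O → f⁻¹ ∈ L x := by
  let y : SpecS (R i) := Spec.map (CommRingCat.ofHom (Subalgebra.inclusion hi).toRingHom)
    (IsLocalRing.closedPoint O)
  have hy : ∀ r : R i, r ∈ PrimeSpectrum.asIdeal y ↔ (r : K) = 0 ∨ (r : K)⁻¹ ∉ O := by
    intro r
    change (Subalgebra.inclusion hi r) ∈ IsLocalRing.maximalIdeal O ↔ _
    rw [IsLocalRing.mem_maximalIdeal, mem_nonunits_iff]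
    have e : Subalgebra.inclusion hi r = ⟨(r : K), hi r.2⟩ := rfl
    rw [e]
    constructor
    · intro hr
      by_contra hcon
      push Not at hcon
      exact hr (Loc_isUnit (hi r.2) hcon.1 hcon.2)
    · rintro (hr | hr) hu
      · have : (⟨(r : K), hi r.2⟩ : O) = 0 := Subtype.ext hr
        rw [this] at hu
        exact not_isUnit_zero hu
      · exact hr (Loc_inv_mem (hi r.2) hu)
  have hle : L (a.c i y) ≤ O := by
    intro f hf
    obtain ⟨r, hr, s, hs, hs0, hsi, rfl⟩ := (h.loc i y f).1 hf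
    refine O.mul_mem (hi hr) ?_
    by_contra hcon
    have h1 : (⟨s, hs⟩ : R i) ∈ PrimeSpectrum.asIdeal y := (hy _).2 (Or.inr hcon)
    rcases (h.prime i y _).1 h1 with h2 | h2
    · exact hs0 h2
    · exact h2 hsi
  refine ⟨a.c i y, h.le i y, hle, ?_⟩
  intro f hf hfi
  obtain ⟨r, hr, s, hs, hs0, hsi, rfl⟩ := (h.loc i y f).1 hf
  by_cases hr0 : r = 0
  · rw [hr0, zero_mul, inv_zero]
    exact zero_mem _
  rw [mul_inv, inv_inv] at hfi ⊢
  refine (L _).mul_mem ?_ (h.le i y hs)
  have hri : r⁻¹ ∈ O := by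
    have : r⁻¹ = r⁻¹ * s * s⁻¹ := by
      rw [mul_assoc, mul_inv_cancel₀ hs0, mul_one]
    rw [this]
    exact O.mul_mem hfi (hle hsi)
  by_contra hcon
  have h1 : (⟨r, hr⟩ : R i) ∈ PrimeSpectrum.asIdeal y := (h.prime i y _).2 (Or.inr hcon)
  rcases (hy _).1 h1 with h2 | h2
  · exact hr0 h2
  · exact h2 hri

/-- F11f: if `O = M z` is a local ring of `Y` which contains the ring `T`, and `T` is an open
subset `Spec (R i)[1/g]` of `X` and contains a chart ring of `Y`, then `O` is a local ring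
of `X`. -/
theorem LocData.exists_point (h : LocData a L) (h' : LocData b M) (z : Y.left) (i : ι) (j : κ)
    {g : K} (hg : g ∈ R i) (hT : S j ≤ R i ⊔ Algebra.adjoin R₀ {g⁻¹})
    (hz : R i ⊔ Algebra.adjoin R₀ {g⁻¹} ≤ M z) : ∃ x : X.left, L x = M z := by
  have := h'.isLocal z
  obtain ⟨x, h1, h2, h3⟩ := h.exists_centre i (M z) (le_sup_left.trans hz)
  refine ⟨x, le_antisymm h2 ?_⟩
  have hT' : R i ⊔ Algebra.adjoin R₀ {g⁻¹} ≤ L x := by
    refine sup_le h1 (Algebra.adjoin_le ?_)
    simp only [Set.singleton_subset_iff, SetLike.mem_coe]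
    exact h3 g (h1 hg) (hz ((le_sup_right : Algebra.adjoin R₀ {g⁻¹} ≤ _)
      (Algebra.subset_adjoin rfl)))
  obtain ⟨y, rfl⟩ := (h'.mem_range_iff z j).2 (hT.trans hz)
  intro f hf
  obtain ⟨r, hr, s, hs, hs0, hsi, rfl⟩ := (h'.loc j y f).1 hf
  exact (L x).mul_mem (hT' (hT hr)) (h3 s (hT' (hT hs)) hsi)

end H1F.FLIP
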