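import Pool.Agent.Lib.H1F.FLIP.F11

/-!
# H1F FLIP F12: `X ⟶ Y` and `X' ⟶ Y` are small; correspondence of the points of codimension one
-/

open CategoryTheory CategoryTheory.Limits AlgebraicGeometry Order

universe u

namespace H1F.FLIP

set_option linter.unusedSectionVars false

section Alg

variable {k : Type*} [CommRing k] {K : Type*} [Field K] [Algebra k K] {p : ℕ}
  [Fact p.Prime] [CharP K p] {A v w : K} {O : Subalgebra k K}

theorem beta_mem : v - 1 ∈ Y0 k p A v w := Algebra.subset_adjoin (by simp)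
theorem delta_mem : w - 1 ∈ Y0 k p A v w := Algebra.subset_adjoin (by simp)
theorem bby_mem : (v - 1) ^ 2 * yy p A v w ∈ Y0 k p A v w := Algebra.subset_adjoin (by simp)
theorem ddy_mem : (w - 1) ^ 2 * yy p A v w ∈ Y0 k p A v w := Algebra.subset_adjoin (by simp)
theorem bdy_mem : (v - 1) * (w - 1) * yy p A v w ∈ Y0 k p A v w :=
  Algebra.subset_adjoin (by simp)

theorem P1_le' (h : Gen A v w) (hy : yy p A v w ≠ 0) (hY : Y0 k p A v w ≤ O)
    (hi : ((v - 1) ^ 2 * yy p A v w)⁻¹ ∈ O) : P1 k p A v w ≤ O := by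
  rw [P1_eq k p A v w h.v1 h.w1 h.vw]
  refine sup_le hY (Algebra.adjoin_le ?_)
  simp only [Set.singleton_subset_iff, SetLike.mem_coe]
  have h1 : v - 1 ≠ 0 := sub_ne_zero.2 h.v1
  have e : (w - 1) / (v - 1) =
      (v - 1) * (w - 1) * yy p A v w * ((v - 1) ^ 2 * yy p A v w)⁻¹ := by
    field_simp
  rw [e]
  exact O.mul_mem (hY bdy_mem) hi

theorem P2_le' (h : Gen A v w) (hy : yy p A v w ≠ 0) (hY : Y0 k p A v w ≤ O)
    (hi : ((w - 1) ^ 2 * yy p A v w)⁻¹ ∈ O) : P2 k p A v w ≤ O := by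
  rw [P2_eq k p A v w h.v1 h.w1 h.vw]
  refine sup_le hY (Algebra.adjoin_le ?_)
  simp only [Set.singleton_subset_iff, SetLike.mem_coe]
  have h1 : w - 1 ≠ 0 := sub_ne_zero.2 h.w1
  have e : (v - 1) / (w - 1) =
      (v - 1) * (w - 1) * yy p A v w * ((w - 1) ^ 2 * yy p A v w)⁻¹ := by
    field_simp
  rw [e]
  exact O.mul_mem (hY bdy_mem) hi

theorem P4_le_v (h : Gen A v w) (hy : yy p A v w ≠ 0) (hY : Y0 k p A v w ≤ O)
    (hi : ((v - 1) ^ 2 * yy p A v w)⁻¹ ∈ O) : P4 k p A v w ≤ O := by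
  rw [P4_eq k p A v w]
  refine sup_le hY (Algebra.adjoin_le ?_)
  simp only [Set.singleton_subset_iff, SetLike.mem_coe]
  have h1 : v - 1 ≠ 0 := sub_ne_zero.2 h.v1
  have e : (yy p A v w)⁻¹ = (v - 1) ^ 2 * ((v - 1) ^ 2 * yy p A v w)⁻¹ := by
    field_simp
  rw [e]
  exact O.mul_mem (O.pow_mem (hY beta_mem) 2) hi

theorem P4_le_w (h : Gen A v w) (hy : yy p A v w ≠ 0) (hY : Y0 k p A v w ≤ O)
    (hi : ((w - 1) ^ 2 * yy p A v w)⁻¹ ∈ O) : P4 k p A v w ≤ O := by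
  rw [P4_eq k p A v w]
  refine sup_le hY (Algebra.adjoin_le ?_)
  simp only [Set.singleton_subset_iff, SetLike.mem_coe]
  have h1 : w - 1 ≠ 0 := sub_ne_zero.2 h.w1
  have e : (yy p A v w)⁻¹ = (w - 1) ^ 2 * ((w - 1) ^ 2 * yy p A v w)⁻¹ := by
    field_simp
  rw [e]
  exact O.mul_mem (O.pow_mem (hY delta_mem) 2) hi

end Alg

section Geo

variable {k : Type u} [Field k] {K : Type u} [Field K] [Algebra k K] {p : ℕ} [Fact p.Prime]
  [CharP K p] {A v w : K} {X X' Y : Over (Spec (CommRingCat.of k))}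
  {a : Atlas (fun c : {c : Ch // c.inX} ↦ ring k p A v w c.1) X}
  {a' : Atlas (fun c : {c : Ch // c.inX'} ↦ ring k p A v w c.1) X'}
  {b : Atlas (fun c : {c : Ch // c.inY} ↦ ring k p A v w c.1) Y}
  {L : X.left → Subalgebra k K} {L' : X'.left → Subalgebra k K} {M : Y.left → Subalgebra k K}

/-- Common principal open subsets `Spec (S j)[1/g]` of `Y` and of the chart `i` of `X`. -/
def GX (p : ℕ) (A v w : K) (i j : Ch) (g : K) : Prop :=
  (i = j ∧ g = 1) ∨ (i = .P1 ∧ j = .Y0 ∧ (g = v - 1 ∨ g = (v - 1) ^ 2 * yy p A v w)) ∨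
    (i = .P2 ∧ j = .Y0 ∧ (g = w - 1 ∨ g = (w - 1) ^ 2 * yy p A v w))

/-- Common principal open subsets `Spec (S j)[1/g]` of `Y` and of the chart `i` of `X'`. -/
def GX' (p : ℕ) (A v w : K) (i j : Ch) (g : K) : Prop :=
  (i = j ∧ g = 1) ∨ (i = .P3 ∧ j = .Y0 ∧ (g = v - 1 ∨ g = w - 1)) ∨
    (i = .P4 ∧ j = .Y0 ∧ (g = (v - 1) ^ 2 * yy p A v w ∨ g = (w - 1) ^ 2 * yy p A v w))

theorem GX_spec (h : Gen A v w) (hy : yy p A v w ≠ 0) {i j : Ch} {g : K}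
    (hg : GX p A v w i j g) : g ∈ ring k p A v w j ∧ g ≠ 0 ∧ ring k p A v w j ≤ ring k p A v w i ∧
      ring k p A v w i ≤ ring k p A v w j ⊔ Algebra.adjoin k {g⁻¹} := by
  have h1 : v - 1 ≠ 0 := sub_ne_zero.2 h.v1
  have h2 : w - 1 ≠ 0 := sub_ne_zero.2 h.w1
  have hi : ∀ (S : Subalgebra k K) (g : K), g⁻¹ ∈ S ⊔ Algebra.adjoin k {g⁻¹} := fun S g ↦
    (le_sup_right : Algebra.adjoin k {g⁻¹} ≤ S ⊔ _) (Algebra.subset_adjoin rfl)
  rcases hg with ⟨rfl, rfl⟩ | ⟨rfl, rfl, rfl | rfl⟩ | ⟨rfl, rfl, rfl | rfl⟩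
  · exact ⟨one_mem _, one_ne_zero, le_rfl, le_sup_left⟩
  · exact ⟨beta_mem, h1, toY_le k p h .P1, P1_le k p h le_sup_left (hi _ _)⟩
  · exact ⟨bby_mem, mul_ne_zero (pow_ne_zero _ h1) hy, toY_le k p h .P1,
      P1_le' h hy le_sup_left (hi _ _)⟩
  · exact ⟨delta_mem, h2, toY_le k p h .P2, P2_le k p h le_sup_left (hi _ _)⟩
  · exact ⟨ddy_mem, mul_ne_zero (pow_ne_zero _ h2) hy, toY_le k p h .P2,
      P2_le' h hy le_sup_left (hi _ _)⟩

theorem GX'_spec (h : Gen A v w) (hy : yy p A v w ≠ 0) {i j : Ch} {g : K}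
    (hg : GX' p A v w i j g) : g ∈ ring k p A v w j ∧ g ≠ 0 ∧
      ring k p A v w j ≤ ring k p A v w i ∧
      ring k p A v w i ≤ ring k p A v w j ⊔ Algebra.adjoin k {g⁻¹} := by
  have h1 : v - 1 ≠ 0 := sub_ne_zero.2 h.v1
  have h2 : w - 1 ≠ 0 := sub_ne_zero.2 h.w1
  have hi : ∀ (S : Subalgebra k K) (g : K), g⁻¹ ∈ S ⊔ Algebra.adjoin k {g⁻¹} := fun S g ↦
    (le_sup_right : Algebra.adjoin k {g⁻¹} ≤ S ⊔ _) (Algebra.subset_adjoin rfl)
  rcases hg with ⟨rfl, rfl⟩ | ⟨rfl, rfl, rfl | rfl⟩ | ⟨rfl, rfl, rfl | rfl⟩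
  · exact ⟨one_mem _, one_ne_zero, le_rfl, le_sup_left⟩
  · exact ⟨beta_mem, h1, toY_le k p h .P3, P3_le_v k p h le_sup_left (hi _ _)⟩
  · exact ⟨delta_mem, h2, toY_le k p h .P3, P3_le_w k p h le_sup_left (hi _ _)⟩
  · exact ⟨bby_mem, mul_ne_zero (pow_ne_zero _ h1) hy, toY_le k p h .P4,
      P4_le_v h hy le_sup_left (hi _ _)⟩
  · exact ⟨ddy_mem, mul_ne_zero (pow_ne_zero _ h2) hy, toY_le k p h .P4,
      P4_le_w h hy le_sup_left (hi _ _)⟩

/-- F12a: points of codimension at most one of `X` lie in the open sets `GX`. -/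
theorem cod_X (h : Gen A v w) (hL : LocData a L)
    (hdiv : ∀ x : X.left, coheight x = 1 → ∀ _ : IsLocalRing (L x),
      Algebra.trdeg k (IsLocalRing.ResidueField (L x)) = 2) (x : X.left)
    (hx : coheight x ≤ 1) : ∃ (i : {c : Ch // c.inX}) (j : {c : Ch // c.inY}) (g : K),
      GX p A v w i.1 j.1 g ∧ ring k p A v w j.1 ⊔ Algebra.adjoin k {g⁻¹} ≤ L x := by
  obtain ⟨i, y, rfl⟩ := a.cover x
  have hloc := hL.isLocal (a.c i y)
  have hle := hL.le i y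
  have hlt : (1 : Cardinal) < 2 := by exact_mod_cast Nat.one_lt_two
  by_cases hi : toY i.1 = .Y0
  · have hY : Y0 k p A v w ≤ L (a.c i y) := by
      have := (toY_le k p h i.1).trans hle
      rwa [hi] at this
    have hsup : ∀ g : K, g⁻¹ ∈ L (a.c i y) →
        Y0 k p A v w ⊔ Algebra.adjoin k {g⁻¹} ≤ L (a.c i y) := fun g hg ↦
      sup_le hY (Algebra.adjoin_le (by simpa using hg))
    obtain ⟨c, hc⟩ := i
    cases c with
    | P1 =>
      by_cases h1 : (v - 1)⁻¹ ∈ L (a.c ⟨.P1, hc⟩ y)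
      · exact ⟨⟨.P1, hc⟩, ⟨.Y0, trivial⟩, v - 1, Or.inr (Or.inl ⟨rfl, rfl, Or.inl rfl⟩),
          hsup _ h1⟩
      by_cases h2 : ((v - 1) ^ 2 * yy p A v w)⁻¹ ∈ L (a.c ⟨.P1, hc⟩ y)
      · exact ⟨⟨.P1, hc⟩, ⟨.Y0, trivial⟩, _, Or.inr (Or.inl ⟨rfl, rfl, Or.inr rfl⟩),
          hsup _ h2⟩
      exfalso
      rcases Order.le_one_iff.1 hx with h0 | h0
      · exact h1 (hL.inv_mem_of_coheight h0 (hY beta_mem))
      · have h3 := trdeg_P1 h hle (fun f hf ↦ (hL.loc _ y f).1 hf) h1 h2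
        rw [hdiv _ h0 hloc] at h3
        exact absurd h3 (not_le.2 hlt)
    | P2 =>
      by_cases h1 : (w - 1)⁻¹ ∈ L (a.c ⟨.P2, hc⟩ y)
      · exact ⟨⟨.P2, hc⟩, ⟨.Y0, trivial⟩, w - 1, Or.inr (Or.inr ⟨rfl, rfl, Or.inl rfl⟩),
          hsup _ h1⟩
      by_cases h2 : ((w - 1) ^ 2 * yy p A v w)⁻¹ ∈ L (a.c ⟨.P2, hc⟩ y)
      · exact ⟨⟨.P2, hc⟩, ⟨.Y0, trivial⟩, _, Or.inr (Or.inr ⟨rfl, rfl, Or.inr rfl⟩),
          hsup _ h2⟩
      exfalso
      rcases Order.le_one_iff.1 hx with h0 | h0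
      · exact h1 (hL.inv_mem_of_coheight h0 (hY delta_mem))
      · have h3 := trdeg_P2 h hle (fun f hf ↦ (hL.loc _ y f).1 hf) h1 h2
        rw [hdiv _ h0 hloc] at h3
        exact absurd h3 (not_le.2 hlt)
    | NI f => exact absurd hi (by simp [toY])
    | NII f => exact absurd hi (by simp [toY])
    | M f => exact absurd hi (by simp [toY])
    | T6 => exact absurd hi (by simp [toY])
    | P3 => exact False.elim hc
    | P4 => exact False.elim hc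
    | Y0 => exact False.elim hc
  · have hi' := inX_cases i.2 hi
    refine ⟨i, ⟨i.1, hi'.1⟩, 1, Or.inl ⟨rfl, rfl⟩, sup_le hle (Algebra.adjoin_le ?_)⟩
    simp

/-- F12b: points of codimension at most one of `X'` lie in the open sets `GX'`. -/
theorem cod_X' (h : Gen A v w) (hL : LocData a' L')
    (hdiv : ∀ x : X'.left, coheight x = 1 → ∀ _ : IsLocalRing (L' x),
      Algebra.trdeg k (IsLocalRing.ResidueField (L' x)) = 2) (x : X'.left)
    (hx : coheight x ≤ 1) : ∃ (i : {c : Ch // c.inX'}) (j : {c : Ch // c.inY}) (g : K),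
      GX' p A v w i.1 j.1 g ∧ ring k p A v w j.1 ⊔ Algebra.adjoin k {g⁻¹} ≤ L' x := by
  obtain ⟨i, y, rfl⟩ := a'.cover x
  have hloc := hL.isLocal (a'.c i y)
  have hle := hL.le i y
  have hlt : (1 : Cardinal) < 2 := by exact_mod_cast Nat.one_lt_two
  by_cases hi : toY i.1 = .Y0
  · have hY : Y0 k p A v w ≤ L' (a'.c i y) := by
      have := (toY_le k p h i.1).trans hle
      rwa [hi] at this
    have hsup : ∀ g : K, g⁻¹ ∈ L' (a'.c i y) →
        Y0 k p A v w ⊔ Algebra.adjoin k {g⁻¹} ≤ L' (a'.c i y) := fun g hg ↦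
      sup_le hY (Algebra.adjoin_le (by simpa using hg))
    by_cases h1 : (v - 1)⁻¹ ∈ L' (a'.c i y)
    · exact ⟨⟨.P3, trivial⟩, ⟨.Y0, trivial⟩, v - 1, Or.inr (Or.inl ⟨rfl, rfl, Or.inl rfl⟩),
        hsup _ h1⟩
    by_cases h2 : (w - 1)⁻¹ ∈ L' (a'.c i y)
    · exact ⟨⟨.P3, trivial⟩, ⟨.Y0, trivial⟩, w - 1, Or.inr (Or.inl ⟨rfl, rfl, Or.inr rfl⟩),
        hsup _ h2⟩
    obtain ⟨c, hc⟩ := i
    cases c with
    | P3 =>
      exfalso
      rcases Order.le_one_iff.1 hx with h0 | h0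
      · exact h1 (hL.inv_mem_of_coheight h0 (hY beta_mem))
      · have h3 := trdeg_P3 h hle (fun f hf ↦ (hL.loc _ y f).1 hf) h1 h2
        rw [hdiv _ h0 hloc] at h3
        exact absurd h3 (not_le.2 hlt)
    | P4 =>
      by_cases h3 : ((v - 1) ^ 2 * yy p A v w)⁻¹ ∈ L' (a'.c ⟨.P4, hc⟩ y)
      · exact ⟨⟨.P4, hc⟩, ⟨.Y0, trivial⟩, _, Or.inr (Or.inr ⟨rfl, rfl, Or.inl rfl⟩),
          hsup _ h3⟩
      by_cases h4 : ((w - 1) ^ 2 * yy p A v w)⁻¹ ∈ L' (a'.c ⟨.P4, hc⟩ y)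
      · exact ⟨⟨.P4, hc⟩, ⟨.Y0, trivial⟩, _, Or.inr (Or.inr ⟨rfl, rfl, Or.inr rfl⟩),
          hsup _ h4⟩
      exfalso
      rcases Order.le_one_iff.1 hx with h0 | h0
      · exact h1 (hL.inv_mem_of_coheight h0 (hY beta_mem))
      · have h5 := trdeg_P4 h hle (fun f hf ↦ (hL.loc _ y f).1 hf) h1 h2 h3 h4
        rw [hdiv _ h0 hloc] at h5
        exact absurd h5 (not_le.2 hlt)
    | NI f => exact absurd hi (by simp [toY])
    | NII f => exact absurd hi (by simp [toY])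
    | M f => exact absurd hi (by simp [toY])
    | T6 => exact absurd hi (by simp [toY])
    | P1 => exact False.elim hc
    | P2 => exact False.elim hc
    | Y0 => exact False.elim hc
  · have hi' := inX'_cases i.2 hi
    refine ⟨i, ⟨i.1, hi'.1⟩, 1, Or.inl ⟨rfl, rfl⟩, sup_le hle (Algebra.adjoin_le ?_)⟩
    simp

/-- F12c: `X ⟶ Y` is small, and an isomorphism on local rings at points of codimension one. -/
theorem isSmall_X (h : Gen A v w) (hy : yy p A v w ≠ 0) (hL : LocData a L) (hM : LocData b M)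
    (hdiv : ∀ x : X.left, coheight x = 1 → ∀ _ : IsLocalRing (L x),
      Algebra.trdeg k (IsLocalRing.ResidueField (L x)) = 2) (f : X ⟶ Y)
    (hf : ∀ (i : {c : Ch // c.inX}) (j : {c : Ch // c.inY})
      (hij : ring k p A v w j.1 ≤ ring k p A v w i.1),
      a.c i ≫ f.left = specIncl hij ≫ b.c j) :
    IsSmall f.left ∧ ∀ x : X.left, coheight x ≤ 1 → M (f.left x) = L x := by
  have hcod := cod_X h hL hdiv
  have := isSmall_of_good hL hM f hf (hs_X h) (fun i j g ↦ GX p A v w i.1 j.1 g)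
    (fun i j g hg ↦ GX_spec h hy hg)
    ⟨⟨.T6, trivial⟩, ⟨.T6, trivial⟩, 1, Or.inl ⟨rfl, rfl⟩⟩ hcod
  exact ⟨this.1, fun x hx ↦ this.2 x (hcod x hx)⟩

/-- F12d: `X' ⟶ Y` is small, and an isomorphism on local rings at points of codimension one. -/
theorem isSmall_X' (h : Gen A v w) (hy : yy p A v w ≠ 0) (hL : LocData a' L') (hM : LocData b M)
    (hdiv : ∀ x : X'.left, coheight x = 1 → ∀ _ : IsLocalRing (L' x),
      Algebra.trdeg k (IsLocalRing.ResidueField (L' x)) = 2) (f : X' ⟶ Y)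
    (hf : ∀ (i : {c : Ch // c.inX'}) (j : {c : Ch // c.inY})
      (hij : ring k p A v w j.1 ≤ ring k p A v w i.1),
      a'.c i ≫ f.left = specIncl hij ≫ b.c j) :
    IsSmall f.left ∧ ∀ x : X'.left, coheight x ≤ 1 → M (f.left x) = L' x := by
  have hcod := cod_X' h hL hdiv
  have := isSmall_of_good hL hM f hf (hs_X' h) (fun i j g ↦ GX' p A v w i.1 j.1 g)
    (fun i j g hg ↦ GX'_spec h hy hg)
    ⟨⟨.T6, trivial⟩, ⟨.T6, trivial⟩, 1, Or.inl ⟨rfl, rfl⟩⟩ hcod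
  exact ⟨this.1, fun x hx ↦ this.2 x (hcod x hx)⟩

/-- F12e: every local ring of `X'` at a point of codimension one is a local ring of `X`. -/
theorem exists_point_X (h : Gen A v w) (hy : yy p A v w ≠ 0) (hL : LocData a L)
    (hL' : LocData a' L')
    (hdiv : ∀ x : X'.left, coheight x = 1 → ∀ _ : IsLocalRing (L' x),
      Algebra.trdeg k (IsLocalRing.ResidueField (L' x)) = 2) (z : X'.left)
    (hz : coheight z ≤ 1) : ∃ x : X.left, L x = L' z ∧ coheight x = coheight z := by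
  suffices hx : ∃ x : X.left, L x = L' z by
    obtain ⟨x, hx⟩ := hx
    exact ⟨x, hx, hL.coheight_eq hL' hx⟩
  obtain ⟨i, j, g, hg, hle⟩ := cod_X' h hL' hdiv z hz
  have hs := GX'_spec (k := k) h hy hg
  have key : ∀ i0 : {c : Ch // c.inX}, g ∈ ring k p A v w i0.1 →
      ring k p A v w i.1 ≤ ring k p A v w i0.1 ⊔ Algebra.adjoin k {g⁻¹} →
      ring k p A v w i0.1 ≤ ring k p A v w j.1 ⊔ Algebra.adjoin k {g⁻¹} →
      ∃ x : X.left, L x = L' z := fun i0 h1 h2 h3 ↦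
    hL.exists_point hL' z i0 i h1 h2 ((sup_le h3 le_sup_right).trans hle)
  obtain ⟨i, hi⟩ := i
  obtain ⟨j, hj⟩ := j
  change GX' p A v w i j g at hg
  have h1 : v - 1 ≠ 0 := sub_ne_zero.2 h.v1
  have h2 : w - 1 ≠ 0 := sub_ne_zero.2 h.w1
  have hgi : ∀ (S : Subalgebra k K) (g : K), g⁻¹ ∈ S ⊔ Algebra.adjoin k {g⁻¹} := fun S g ↦
    (le_sup_right : Algebra.adjoin k {g⁻¹} ≤ S ⊔ _) (Algebra.subset_adjoin rfl)
  have hYl1 : ∀ g : K, Y0 k p A v w ≤ P1 k p A v w ⊔ Algebra.adjoin k {g⁻¹} := fun g ↦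
    (toY_le k p h .P1).trans le_sup_left
  have hYl2 : ∀ g : K, Y0 k p A v w ≤ P2 k p A v w ⊔ Algebra.adjoin k {g⁻¹} := fun g ↦
    (toY_le k p h .P2).trans le_sup_left
  rcases hg with ⟨rfl, rfl⟩ | ⟨rfl, rfl, rfl | rfl⟩ | ⟨rfl, rfl, rfl | rfl⟩
  · have hX : i.inX := by
      cases i <;> first | exact trivial | exact False.elim hi | exact False.elim hj
    exact key ⟨i, hX⟩ (one_mem _) le_sup_left le_sup_left
  · exact key ⟨.P1, trivial⟩ (toY_le k p h .P1 beta_mem) (P3_le_v k p h (hYl1 _) (hgi _ _))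
      (P1_le k p h le_sup_left (hgi _ _))
  · exact key ⟨.P2, trivial⟩ (toY_le k p h .P2 delta_mem) (P3_le_w k p h (hYl2 _) (hgi _ _))
      (P2_le k p h le_sup_left (hgi _ _))
  · exact key ⟨.P1, trivial⟩ (toY_le k p h .P1 bby_mem) (P4_le_v h hy (hYl1 _) (hgi _ _))
      (P1_le' h hy le_sup_left (hgi _ _))
  · exact key ⟨.P2, trivial⟩ (toY_le k p h .P2 ddy_mem) (P4_le_w h hy (hYl2 _) (hgi _ _))
      (P2_le' h hy le_sup_left (hgi _ _))

end Geo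

end H1F.FLIP
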