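import Pool.Agent.Lib.H1F.N.N21
import Pool.Agent.Lib.H1F.FLIP.F12

/-!
# H1F FLIP F13: rings of Laurent polynomials in `β, δ, y`; `Y0 = P1 ⊓ P2`,
`P4 = P1[1/n'] ⊓ P2[1/n]` and the other intersections
-/

open MvPolynomial

universe u

namespace H1F.FLIP

set_option linter.unusedSectionVars false

section Lam

variable {k K : Type*} [Field k] [Field K] [Algebra k K]

/-- Exponents `(i, j, l)` with `0 ≤ i` if `a`, `0 ≤ j` if `b`, `0 ≤ l` if `c`, and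
`0 ≤ i + j - 2 l` if `d`. -/
def EE (a b c d : Prop) : AddSubmonoid (ℤ × ℤ × ℤ) where
  carrier := {s | (a → 0 ≤ s.1) ∧ (b → 0 ≤ s.2.1) ∧ (c → 0 ≤ s.2.2) ∧
    (d → 0 ≤ s.1 + s.2.1 - 2 * s.2.2)}
  zero_mem' := by simp
  add_mem' := by
    rintro s t ⟨h1, h2, h3, h4⟩ ⟨g1, g2, g3, g4⟩
    refine ⟨fun h ↦ ?_, fun h ↦ ?_, fun h ↦ ?_, fun h ↦ ?_⟩
    · have := h1 h; have := g1 h; simp only [Prod.fst_add]; omega
    · have := h2 h; have := g2 h; simp only [Prod.snd_add, Prod.fst_add]; omega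
    · have := h3 h; have := g3 h; simp only [Prod.snd_add]; omega
    · have := h4 h; have := g4 h; simp only [Prod.snd_add, Prod.fst_add]; omega

/-- The Laurent polynomials in `x, y, z` with exponents in `E`. -/
noncomputable def Lam (k : Type*) {K : Type*} [Field k] [Field K] [Algebra k K] (x y z : K)
    (E : AddSubmonoid (ℤ × ℤ × ℤ)) : Subalgebra k K :=
  Algebra.adjoin k (N21_m x y z '' (E : Set (ℤ × ℤ × ℤ)))

theorem Lam_mono {x y z : K} {E E' : AddSubmonoid (ℤ × ℤ × ℤ)} (h : E ≤ E') :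
    Lam k x y z E ≤ Lam k x y z E' :=
  Algebra.adjoin_mono (Set.image_mono h)

theorem mem_Lam_iff {x y z : K} (hx : x ≠ 0) (hy : y ≠ 0) (hz : z ≠ 0)
    (E : AddSubmonoid (ℤ × ℤ × ℤ)) (f : K) :
    f ∈ Lam k x y z E ↔ f ∈ Submodule.span k (N21_m x y z '' (E : Set (ℤ × ℤ × ℤ))) := by
  have hcl : (Submonoid.closure (N21_m x y z '' (E : Set (ℤ × ℤ × ℤ))) : Set K) =
      N21_m x y z '' (E : Set (ℤ × ℤ × ℤ)) := by
    apply Set.Subset.antisymm
    · intro q hq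
      induction hq using Submonoid.closure_induction with
      | mem q hq => exact hq
      | one => exact ⟨0, E.zero_mem, by simp [N21_m]⟩
      | mul q r _ _ ihq ihr =>
        obtain ⟨s, hs, rfl⟩ := ihq
        obtain ⟨t, ht, rfl⟩ := ihr
        exact ⟨s + t, E.add_mem hs ht, N21_m_add hx hy hz s t⟩
    · exact Submonoid.subset_closure
  rw [Lam, ← Subalgebra.mem_toSubmodule, Algebra.adjoin_eq_span, hcl]

theorem Lam_inf {x y z : K} (h : AlgebraicIndependent k ![x, y, z])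
    (E E' : AddSubmonoid (ℤ × ℤ × ℤ)) {f : K} (h1 : f ∈ Lam k x y z E)
    (h2 : f ∈ Lam k x y z E') : f ∈ Lam k x y z (E ⊓ E') := by
  obtain ⟨hx, hy, hz, -⟩ := ind_ne h
  have hli := N21_li h
  rw [mem_Lam_iff hx hy hz, Finsupp.mem_span_image_iff_linearCombination] at h1 h2 ⊢
  obtain ⟨l1, hl1, e1⟩ := h1
  obtain ⟨l2, hl2, e2⟩ := h2
  have : l1 = l2 := hli (by rw [e1, e2])
  subst this
  refine ⟨l1, ?_, e1⟩
  rw [AddSubmonoid.coe_inf, Finsupp.supported_inter]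
  exact ⟨hl1, hl2⟩

/-- Laurent polynomials divided by powers of `U`. -/
theorem Lam_inf_loc {x y z : K} (h : AlgebraicIndependent k ![x, y, z])
    (E E' : AddSubmonoid (ℤ × ℤ × ℤ)) {U : K} (hU : U ≠ 0) (hUE : U ∈ Lam k x y z (E ⊓ E')) {f : K}
    (h1 : f ∈ Lam k x y z E ⊔ Algebra.adjoin k {U⁻¹})
    (h2 : f ∈ Lam k x y z E' ⊔ Algebra.adjoin k {U⁻¹}) :
    f ∈ Lam k x y z (E ⊓ E') ⊔ Algebra.adjoin k {U⁻¹} := by
  have hU1 : U ∈ Lam k x y z E := Lam_mono inf_le_left hUE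
  have hU2 : U ∈ Lam k x y z E' := Lam_mono inf_le_right hUE
  obtain ⟨n, r, hr, e1⟩ := (mem_sup_inv_iff _ hU1 hU f).1 h1
  obtain ⟨m, s, hs, e2⟩ := (mem_sup_inv_iff _ hU2 hU f).1 h2
  have hn : U ^ n * U⁻¹ ^ n = 1 := by rw [← mul_pow, mul_inv_cancel₀ hU, one_pow]
  have hm : U ^ m * U⁻¹ ^ m = 1 := by rw [← mul_pow, mul_inv_cancel₀ hU, one_pow]
  have k1 : f * U ^ (n + m) = r * U ^ m := by
    rw [e1, pow_add]
    linear_combination (r * U ^ m) * hn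
  have k2 : f * U ^ (n + m) = s * U ^ n := by
    rw [e2, pow_add]
    linear_combination (s * U ^ n) * hm
  have h3 : f * U ^ (n + m) ∈ Lam k x y z (E ⊓ E') := by
    apply Lam_inf h
    · rw [k1]; exact Subalgebra.mul_mem _ hr (Subalgebra.pow_mem _ hU1 _)
    · rw [k2]; exact Subalgebra.mul_mem _ hs (Subalgebra.pow_mem _ hU2 _)
  refine (mem_sup_inv_iff _ hUE hU f).2 ⟨n + m, f * U ^ (n + m), h3, ?_⟩
  rw [mul_assoc, ← mul_pow, mul_inv_cancel₀ hU, one_pow, mul_one]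

theorem m_mem {x y z : K} {E : AddSubmonoid (ℤ × ℤ × ℤ)} {s : ℤ × ℤ × ℤ} (hs : s ∈ E) {f : K}
    (hf : f = N21_m x y z s) : f ∈ Lam k x y z E := by
  rw [hf]
  exact Algebra.subset_adjoin ⟨s, hs, rfl⟩

theorem Lam_le {x y z : K} {E : AddSubmonoid (ℤ × ℤ × ℤ)} {P : Subalgebra k K}
    (h : ∀ s ∈ E, N21_m x y z s ∈ P) : Lam k x y z E ≤ P := by
  refine Algebra.adjoin_le ?_
  rintro _ ⟨s, hs, rfl⟩
  exact h s hs

end Lam

section Charts

variable {k : Type*} [Field k] {K : Type*} [Field K] [Algebra k K] {p : ℕ} [Fact p.Prime]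
  [CharP K p] {A v w : K}

/-- `Λ(E)[1/(A v w)]`. -/
noncomputable def LU (k : Type*) {K : Type*} [Field k] [Field K] [Algebra k K] (p : ℕ)
    (A v w : K) (E : AddSubmonoid (ℤ × ℤ × ℤ)) : Subalgebra k K :=
  Lam k (v - 1) (w - 1) (yy p A v w) E ⊔ Algebra.adjoin k {(A * v * w)⁻¹}

theorem LU_mono {E E' : AddSubmonoid (ℤ × ℤ × ℤ)} (h : E ≤ E') :
    LU k p A v w E ≤ LU k p A v w E' := sup_le_sup_right (Lam_mono h) _

theorem Avw_mem (h : Gen A v w) :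
    A ∈ Lam k (v - 1) (w - 1) (yy p A v w) (EE True True True True) ∧
    v ∈ Lam k (v - 1) (w - 1) (yy p A v w) (EE True True True True) ∧
    w ∈ Lam k (v - 1) (w - 1) (yy p A v w) (EE True True True True) := by
  have mb : v - 1 ∈ Lam k (v - 1) (w - 1) (yy p A v w) (EE True True True True) :=
    m_mem (s := (1, 0, 0)) (by simp [EE]) (by simp [N21_m])
  have md : w - 1 ∈ Lam k (v - 1) (w - 1) (yy p A v w) (EE True True True True) :=
    m_mem (s := (0, 1, 0)) (by simp [EE]) (by simp [N21_m])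
  have m5 : (v - 1) ^ 2 * yy p A v w ∈
      Lam k (v - 1) (w - 1) (yy p A v w) (EE True True True True) :=
    m_mem (s := (2, 0, 1)) (by simp [EE]) (by simp [N21_m])
  have m6 : (w - 1) ^ 2 * yy p A v w ∈
      Lam k (v - 1) (w - 1) (yy p A v w) (EE True True True True) :=
    m_mem (s := (0, 2, 1)) (by simp [EE]) (by simp [N21_m])
  have hv : v ∈ Lam k (v - 1) (w - 1) (yy p A v w) (EE True True True True) := by
    have := Subalgebra.add_mem _ mb (one_mem _)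
    rwa [sub_add_cancel] at this
  have hw : w ∈ Lam k (v - 1) (w - 1) (yy p A v w) (EE True True True True) := by
    have := Subalgebra.add_mem _ md (one_mem _)
    rwa [sub_add_cancel] at this
  refine ⟨?_, hv, hw⟩
  have hA := A_sub_one (A := A) (p := p) h.v1 h.w1 h.vw
  have : A = 1 + (((v - 1) ^ (p - 1) + (v - 1) ^ 2 * yy p A v w) * (w - 1) -
      (w - 1) ^ 2 * yy p A v w * (v - 1)) := by rw [← hA]; ring
  have h0 := Subalgebra.add_mem _ (one_mem _) (Subalgebra.sub_mem _ (Subalgebra.mul_mem _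
    (Subalgebra.add_mem _ (Subalgebra.pow_mem _ mb (p - 1)) m5) md) (Subalgebra.mul_mem _ m6 mb))
  rwa [← this] at h0

theorem EE_top_le (a b c d : Prop) : EE True True True True ≤ EE a b c d := by
  rintro s ⟨h1, h2, h3, h4⟩
  exact ⟨fun _ ↦ h1 trivial, fun _ ↦ h2 trivial, fun _ ↦ h3 trivial, fun _ ↦ h4 trivial⟩

/-- `Y0 ≤ Λ(E)[1/U]`. -/
theorem Y0_le_LU (h : Gen A v w) (a b c d : Prop) : Y0 k p A v w ≤ LU k p A v w (EE a b c d) := by
  refine le_trans ?_ (LU_mono (EE_top_le a b c d))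
  obtain ⟨mA, mv, mw⟩ := Avw_mem (k := k) (p := p) h
  have hL : Lam k (v - 1) (w - 1) (yy p A v w) (EE True True True True) ≤
      LU k p A v w (EE True True True True) := le_sup_left
  have hU : (A * v * w)⁻¹ ∈ LU k p A v w (EE True True True True) :=
    (le_sup_right : Algebra.adjoin k {(A * v * w)⁻¹} ≤ _) (Algebra.subset_adjoin rfl)
  have hA0 := h.A0
  have hv0 := h.v0
  have hw0 := h.w0
  rw [Y0]
  refine Algebra.adjoin_le ?_
  rintro x hx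
  simp only [Set.mem_insert_iff, Set.mem_singleton_iff] at hx
  rcases hx with rfl | rfl | rfl | rfl | rfl | rfl | rfl | rfl
  · exact hL (m_mem (s := (1, 0, 0)) (by simp [EE]) (by simp [N21_m]))
  · exact hL (m_mem (s := (0, 1, 0)) (by simp [EE]) (by simp [N21_m]))
  · exact hL (m_mem (s := (2, 0, 1)) (by simp [EE]) (by simp [N21_m]))
  · exact hL (m_mem (s := (1, 1, 1)) (by simp [EE]) (by simp [N21_m]))
  · exact hL (m_mem (s := (0, 2, 1)) (by simp [EE]) (by simp [N21_m]))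
  · have : A⁻¹ = v * w * (A * v * w)⁻¹ := by field_simp
    rw [this]
    exact Subalgebra.mul_mem _ (Subalgebra.mul_mem _ (hL mv) (hL mw)) hU
  · have : v⁻¹ = A * w * (A * v * w)⁻¹ := by field_simp
    rw [this]
    exact Subalgebra.mul_mem _ (Subalgebra.mul_mem _ (hL mA) (hL mw)) hU
  · have : w⁻¹ = A * v * (A * v * w)⁻¹ := by field_simp
    rw [this]
    exact Subalgebra.mul_mem _ (Subalgebra.mul_mem _ (hL mA) (hL mv)) hU

/-- The other inclusion. -/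
theorem LU_le {P : Subalgebra k K} (hY : Y0 k p A v w ≤ P) {E : AddSubmonoid (ℤ × ℤ × ℤ)}
    (h : ∀ s ∈ E, N21_m (v - 1) (w - 1) (yy p A v w) s ∈ P) : LU k p A v w E ≤ P := by
  refine sup_le (Lam_le h) (Algebra.adjoin_le ?_)
  simp only [Set.singleton_subset_iff, SetLike.mem_coe]
  rw [mul_inv, mul_inv]
  have h1 : A⁻¹ ∈ P := hY (Algebra.subset_adjoin (by simp))
  have h2 : v⁻¹ ∈ P := hY (Algebra.subset_adjoin (by simp))
  have h3 : w⁻¹ ∈ P := hY (Algebra.subset_adjoin (by simp))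
  exact P.mul_mem (P.mul_mem h1 h2) h3

/-- Products of natural powers in `Y0`. -/
theorem F13_Y0 (L : ℕ) : ∀ I J : ℕ, 2 * L ≤ I + J →
    (v - 1) ^ I * (w - 1) ^ J * yy p A v w ^ L ∈ Y0 k p A v w := by
  have mb : v - 1 ∈ Y0 k p A v w := beta_mem
  have md : w - 1 ∈ Y0 k p A v w := delta_mem
  induction L with
  | zero =>
    intro I J _
    rw [pow_zero, mul_one]
    exact Subalgebra.mul_mem _ (Subalgebra.pow_mem _ mb _) (Subalgebra.pow_mem _ md _)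
  | succ L ih =>
    intro I J hIJ
    by_cases hI : 2 ≤ I
    · obtain ⟨I', rfl⟩ := Nat.exists_eq_add_of_le hI
      have := ih I' J (by omega)
      have e : (v - 1) ^ (2 + I') * (w - 1) ^ J * yy p A v w ^ (L + 1) =
          (v - 1) ^ 2 * yy p A v w * ((v - 1) ^ I' * (w - 1) ^ J * yy p A v w ^ L) := by ring
      rw [e]
      exact Subalgebra.mul_mem _ bby_mem this
    by_cases hJ : 2 ≤ J
    · obtain ⟨J', rfl⟩ := Nat.exists_eq_add_of_le hJ
      have := ih I J' (by omega)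
      have e : (v - 1) ^ I * (w - 1) ^ (2 + J') * yy p A v w ^ (L + 1) =
          (w - 1) ^ 2 * yy p A v w * ((v - 1) ^ I * (w - 1) ^ J' * yy p A v w ^ L) := by ring
      rw [e]
      exact Subalgebra.mul_mem _ ddy_mem this
    have h1 : I = 1 := by omega
    have h2 : J = 1 := by omega
    have h3 : L = 0 := by omega
    subst h1 h2 h3
    have e : (v - 1) ^ 1 * (w - 1) ^ 1 * yy p A v w ^ (0 + 1) =
        (v - 1) * (w - 1) * yy p A v w := by ring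
    rw [e]
    exact bdy_mem

theorem m_Y0 {s : ℤ × ℤ × ℤ} (hs : s ∈ EE True True True True) :
    N21_m (v - 1) (w - 1) (yy p A v w) s ∈ Y0 k p A v w := by
  obtain ⟨h1, h2, h3, h4⟩ := hs
  obtain ⟨i, j, l⟩ := s
  obtain ⟨I, rfl⟩ := Int.eq_ofNat_of_zero_le (h1 trivial)
  obtain ⟨J, rfl⟩ := Int.eq_ofNat_of_zero_le (h2 trivial)
  obtain ⟨L, rfl⟩ := Int.eq_ofNat_of_zero_le (h3 trivial)
  have h5 := h4 trivial
  simp only at h5
  simp only [N21_m, zpow_natCast]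
  exact F13_Y0 L I J (by omega)

theorem m_P1 (h : Gen A v w) {s : ℤ × ℤ × ℤ} (hs : s ∈ EE False True True True) :
    N21_m (v - 1) (w - 1) (yy p A v w) s ∈ P1 k p A v w := by
  obtain ⟨-, h2, h3, h4⟩ := hs
  obtain ⟨i, j, l⟩ := s
  obtain ⟨J, rfl⟩ := Int.eq_ofNat_of_zero_le (h2 trivial)
  obtain ⟨L, rfl⟩ := Int.eq_ofNat_of_zero_le (h3 trivial)
  obtain ⟨W, hW⟩ := Int.eq_ofNat_of_zero_le (h4 trivial)
  simp only at hW
  have n1 : v - 1 ≠ 0 := sub_ne_zero.2 h.v1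
  have hi : i = W - J + 2 * L := by omega
  subst hi
  have e : N21_m (v - 1) (w - 1) (yy p A v w) ((W : ℤ) - J + 2 * L, (J : ℤ), (L : ℤ)) =
      ((w - 1) / (v - 1)) ^ J * (v - 1) ^ W * ((v - 1) ^ 2 * yy p A v w) ^ L := by
    simp only [N21_m]
    have e2 : ((v - 1) : K) ^ ((2 : ℤ) * L) = ((v - 1) ^ 2) ^ L := by
      rw [zpow_mul]; norm_cast
    rw [zpow_add₀ n1, zpow_sub₀ n1, e2, zpow_natCast, zpow_natCast, zpow_natCast, zpow_natCast,
      div_pow, mul_pow]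
    field_simp
  rw [e]
  have ht : (w - 1) / (v - 1) ∈ P1 k p A v w := Algebra.subset_adjoin (by simp)
  have hY := toY_le k p h .P1
  exact Subalgebra.mul_mem _ (Subalgebra.mul_mem _ (Subalgebra.pow_mem _ ht _)
    (Subalgebra.pow_mem _ (hY beta_mem) _)) (Subalgebra.pow_mem _ (hY bby_mem) _)

theorem m_P2 (h : Gen A v w) {s : ℤ × ℤ × ℤ} (hs : s ∈ EE True False True True) :
    N21_m (v - 1) (w - 1) (yy p A v w) s ∈ P2 k p A v w := by
  obtain ⟨h1, -, h3, h4⟩ := hs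
  obtain ⟨i, j, l⟩ := s
  obtain ⟨I, rfl⟩ := Int.eq_ofNat_of_zero_le (h1 trivial)
  obtain ⟨L, rfl⟩ := Int.eq_ofNat_of_zero_le (h3 trivial)
  obtain ⟨W, hW⟩ := Int.eq_ofNat_of_zero_le (h4 trivial)
  simp only at hW
  have n1 : w - 1 ≠ 0 := sub_ne_zero.2 h.w1
  have hi : j = W - I + 2 * L := by omega
  subst hi
  have e : N21_m (v - 1) (w - 1) (yy p A v w) ((I : ℤ), (W : ℤ) - I + 2 * L, (L : ℤ)) =
      ((v - 1) / (w - 1)) ^ I * (w - 1) ^ W * ((w - 1) ^ 2 * yy p A v w) ^ L := by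
    simp only [N21_m]
    have e2 : ((w - 1) : K) ^ ((2 : ℤ) * L) = ((w - 1) ^ 2) ^ L := by
      rw [zpow_mul]; norm_cast
    rw [zpow_add₀ n1, zpow_sub₀ n1, e2, zpow_natCast, zpow_natCast, zpow_natCast, zpow_natCast,
      div_pow, mul_pow]
    field_simp
  rw [e]
  have ht : (v - 1) / (w - 1) ∈ P2 k p A v w := Algebra.subset_adjoin (by simp)
  have hY := toY_le k p h .P2
  exact Subalgebra.mul_mem _ (Subalgebra.mul_mem _ (Subalgebra.pow_mem _ ht _)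
    (Subalgebra.pow_mem _ (hY delta_mem) _)) (Subalgebra.pow_mem _ (hY ddy_mem) _)

theorem m_P3 (h : Gen A v w) {s : ℤ × ℤ × ℤ} (hs : s ∈ EE True True True False) :
    N21_m (v - 1) (w - 1) (yy p A v w) s ∈ P3 k p A v w := by
  obtain ⟨h1, h2, h3, -⟩ := hs
  obtain ⟨i, j, l⟩ := s
  obtain ⟨I, rfl⟩ := Int.eq_ofNat_of_zero_le (h1 trivial)
  obtain ⟨J, rfl⟩ := Int.eq_ofNat_of_zero_le (h2 trivial)
  obtain ⟨L, rfl⟩ := Int.eq_ofNat_of_zero_le (h3 trivial)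
  simp only [N21_m, zpow_natCast]
  have hY := toY_le k p h .P3
  have ht : yy p A v w ∈ P3 k p A v w := Algebra.subset_adjoin (by simp)
  exact Subalgebra.mul_mem _ (Subalgebra.mul_mem _ (Subalgebra.pow_mem _ (hY beta_mem) _)
    (Subalgebra.pow_mem _ (hY delta_mem) _)) (Subalgebra.pow_mem _ ht _)

theorem m_P4 (h : Gen A v w) {s : ℤ × ℤ × ℤ} (hs : s ∈ EE True True False True) :
    N21_m (v - 1) (w - 1) (yy p A v w) s ∈ P4 k p A v w := by
  have hY := toY_le k p h .P4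
  by_cases h3 : 0 ≤ s.2.2
  · exact hY (m_Y0 ⟨hs.1, hs.2.1, fun _ ↦ h3, hs.2.2.2⟩)
  obtain ⟨h1, h2, -, h4⟩ := hs
  obtain ⟨i, j, l⟩ := s
  obtain ⟨I, rfl⟩ := Int.eq_ofNat_of_zero_le (h1 trivial)
  obtain ⟨J, rfl⟩ := Int.eq_ofNat_of_zero_le (h2 trivial)
  obtain ⟨L, hL⟩ := Int.eq_ofNat_of_zero_le (a := -l) (by simp only at h3; omega)
  have hl : l = -(L : ℤ) := by omega
  subst hl
  simp only [N21_m, zpow_natCast, zpow_neg]
  rw [← inv_pow]
  have ht : (yy p A v w)⁻¹ ∈ P4 k p A v w := Algebra.subset_adjoin (by simp)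
  exact Subalgebra.mul_mem _ (Subalgebra.mul_mem _ (Subalgebra.pow_mem _ (hY beta_mem) _)
    (Subalgebra.pow_mem _ (hY delta_mem) _)) (Subalgebra.pow_mem _ ht _)

/-- General intersection statement. -/
theorem LU_inf (h : Gen A v w) (hi : AlgebraicIndependent k ![v - 1, w - 1, yy p A v w])
    {a b c d a' b' c' d' a'' b'' c'' d'' : Prop}
    (hE : EE a b c d ⊓ EE a' b' c' d' ≤ EE a'' b'' c'' d'') {f : K}
    (h1 : f ∈ LU k p A v w (EE a b c d)) (h2 : f ∈ LU k p A v w (EE a' b' c' d')) :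
    f ∈ LU k p A v w (EE a'' b'' c'' d'') := by
  have hU : A * v * w ≠ 0 := mul_ne_zero (mul_ne_zero h.A0 h.v0) h.w0
  obtain ⟨mA, mv, mw⟩ := Avw_mem (k := k) (p := p) h
  have hUE : A * v * w ∈ Lam k (v - 1) (w - 1) (yy p A v w) (EE a b c d ⊓ EE a' b' c' d') :=
    Lam_mono (le_inf (EE_top_le _ _ _ _) (EE_top_le _ _ _ _))
      (Subalgebra.mul_mem _ (Subalgebra.mul_mem _ mA mv) mw)
  exact LU_mono hE (Lam_inf_loc hi _ _ hU hUE h1 h2)

theorem sup_le_LU {E : AddSubmonoid (ℤ × ℤ × ℤ)} {R : Subalgebra k K}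
    (hR : R ≤ LU k p A v w E) {t : K} {s : ℤ × ℤ × ℤ} (hs : s ∈ E)
    (ht : t = N21_m (v - 1) (w - 1) (yy p A v w) s) :
    R ⊔ Algebra.adjoin k {t} ≤ LU k p A v w E := by
  refine sup_le hR (Algebra.adjoin_le ?_)
  simp only [Set.singleton_subset_iff, SetLike.mem_coe]
  exact (le_sup_left : Lam k (v - 1) (w - 1) (yy p A v w) E ≤ _) (m_mem hs ht)

theorem P1_le_LU (h : Gen A v w) (c d : Prop) : P1 k p A v w ≤ LU k p A v w (EE False True c d) := by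
  rw [P1_eq k p A v w h.v1 h.w1 h.vw]
  refine sup_le_LU (Y0_le_LU h _ _ _ _) (s := (-1, 1, 0)) (by simp [EE]) ?_
  simp [N21_m, div_eq_mul_inv, mul_comm]

theorem P2_le_LU (h : Gen A v w) (c d : Prop) : P2 k p A v w ≤ LU k p A v w (EE True False c d) := by
  rw [P2_eq k p A v w h.v1 h.w1 h.vw]
  refine sup_le_LU (Y0_le_LU h _ _ _ _) (s := (1, -1, 0)) (by simp [EE]) ?_
  simp [N21_m, div_eq_mul_inv]

theorem P3_le_LU (h : Gen A v w) (a b c : Prop) :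
    P3 k p A v w ≤ LU k p A v w (EE a b c False) := by
  rw [P3_eq k p A v w]
  refine sup_le_LU (Y0_le_LU h _ _ _ _) (s := (0, 0, 1)) (by simp [EE]) ?_
  simp [N21_m]

theorem P4_le_LU (h : Gen A v w) (a b d : Prop) :
    P4 k p A v w ≤ LU k p A v w (EE a b False d) := by
  rw [P4_eq k p A v w]
  refine sup_le_LU (Y0_le_LU h _ _ _ _) (s := (0, 0, -1)) (by simp [EE]) ?_
  simp [N21_m]

section Inter

variable (h : Gen A v w) (hi : AlgebraicIndependent k ![v - 1, w - 1, yy p A v w])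
include h hi

/-- I1. -/
theorem inter_P1 {f : K} (h1 : f ∈ P1 k p A v w ⊔ Algebra.adjoin k {(v - 1)⁻¹})
    (h2 : f ∈ P1 k p A v w ⊔ Algebra.adjoin k {((v - 1) ^ 2 * yy p A v w)⁻¹}) :
    f ∈ P1 k p A v w := by
  have e1 : P1 k p A v w ⊔ Algebra.adjoin k {(v - 1)⁻¹} ≤
      LU k p A v w (EE False True True False) :=
    sup_le_LU (P1_le_LU h _ _) (s := (-1, 0, 0)) (by simp [EE]) (by simp [N21_m])
  have e2 : P1 k p A v w ⊔ Algebra.adjoin k {((v - 1) ^ 2 * yy p A v w)⁻¹} ≤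
      LU k p A v w (EE False True False True) :=
    sup_le_LU (P1_le_LU h _ _) (s := (-2, 0, -1)) (by simp [EE])
      (by simp [N21_m, zpow_neg, mul_comm])
  refine LU_le (toY_le k p h .P1) (fun s hs ↦ m_P1 h hs) (LU_inf h hi ?_ (e1 h1) (e2 h2))
  rintro s ⟨⟨-, a2, a3, -⟩, ⟨-, -, -, b4⟩⟩
  exact ⟨False.elim, a2, a3, b4⟩

/-- I2. -/
theorem inter_P2 {f : K} (h1 : f ∈ P2 k p A v w ⊔ Algebra.adjoin k {(w - 1)⁻¹})
    (h2 : f ∈ P2 k p A v w ⊔ Algebra.adjoin k {((w - 1) ^ 2 * yy p A v w)⁻¹}) :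
    f ∈ P2 k p A v w := by
  have e1 : P2 k p A v w ⊔ Algebra.adjoin k {(w - 1)⁻¹} ≤
      LU k p A v w (EE True False True False) :=
    sup_le_LU (P2_le_LU h _ _) (s := (0, -1, 0)) (by simp [EE]) (by simp [N21_m])
  have e2 : P2 k p A v w ⊔ Algebra.adjoin k {((w - 1) ^ 2 * yy p A v w)⁻¹} ≤
      LU k p A v w (EE True False False True) :=
    sup_le_LU (P2_le_LU h _ _) (s := (0, -2, -1)) (by simp [EE])
      (by simp [N21_m, zpow_neg, mul_comm])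
  refine LU_le (toY_le k p h .P2) (fun s hs ↦ m_P2 h hs) (LU_inf h hi ?_ (e1 h1) (e2 h2))
  rintro s ⟨⟨a1, -, a3, -⟩, ⟨-, -, -, b4⟩⟩
  exact ⟨a1, False.elim, a3, b4⟩

/-- I3. -/
theorem inter_P3 {f : K} (h1 : f ∈ P3 k p A v w ⊔ Algebra.adjoin k {(v - 1)⁻¹})
    (h2 : f ∈ P3 k p A v w ⊔ Algebra.adjoin k {(w - 1)⁻¹}) : f ∈ P3 k p A v w := by
  have e1 : P3 k p A v w ⊔ Algebra.adjoin k {(v - 1)⁻¹} ≤
      LU k p A v w (EE False True True False) :=
    sup_le_LU (P3_le_LU h _ _ _) (s := (-1, 0, 0)) (by simp [EE]) (by simp [N21_m])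
  have e2 : P3 k p A v w ⊔ Algebra.adjoin k {(w - 1)⁻¹} ≤
      LU k p A v w (EE True False True False) :=
    sup_le_LU (P3_le_LU h _ _ _) (s := (0, -1, 0)) (by simp [EE]) (by simp [N21_m])
  refine LU_le (toY_le k p h .P3) (fun s hs ↦ m_P3 h hs) (LU_inf h hi ?_ (e1 h1) (e2 h2))
  rintro s ⟨⟨-, a2, a3, -⟩, ⟨b1, -, -, -⟩⟩
  exact ⟨b1, a2, a3, False.elim⟩

/-- I4. -/
theorem inter_P4 {f : K}
    (h1 : f ∈ P4 k p A v w ⊔ Algebra.adjoin k {((v - 1) ^ 2 * yy p A v w)⁻¹})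
    (h2 : f ∈ P4 k p A v w ⊔ Algebra.adjoin k {((w - 1) ^ 2 * yy p A v w)⁻¹}) :
    f ∈ P4 k p A v w := by
  have e1 : P4 k p A v w ⊔ Algebra.adjoin k {((v - 1) ^ 2 * yy p A v w)⁻¹} ≤
      LU k p A v w (EE False True False True) :=
    sup_le_LU (P4_le_LU h _ _ _) (s := (-2, 0, -1)) (by simp [EE])
      (by simp [N21_m, zpow_neg, mul_comm])
  have e2 : P4 k p A v w ⊔ Algebra.adjoin k {((w - 1) ^ 2 * yy p A v w)⁻¹} ≤
      LU k p A v w (EE True False False True) :=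
    sup_le_LU (P4_le_LU h _ _ _) (s := (0, -2, -1)) (by simp [EE])
      (by simp [N21_m, zpow_neg, mul_comm])
  refine LU_le (toY_le k p h .P4) (fun s hs ↦ m_P4 h hs) (LU_inf h hi ?_ (e1 h1) (e2 h2))
  rintro s ⟨⟨-, a2, -, a4⟩, ⟨b1, -, -, -⟩⟩
  exact ⟨b1, a2, False.elim, a4⟩

/-- `Y0 = P1 ⊓ P2`. -/
theorem Y0_eq_inf : Y0 k p A v w = P1 k p A v w ⊓ P2 k p A v w := by
  refine le_antisymm (le_inf (toY_le k p h .P1) (toY_le k p h .P2)) ?_
  rintro f ⟨h1, h2⟩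
  refine LU_le le_rfl (fun s hs ↦ m_Y0 hs)
    (LU_inf h hi ?_ (P1_le_LU h True True h1) (P2_le_LU h True True h2))
  rintro s ⟨⟨-, a2, a3, a4⟩, ⟨b1, -, -, -⟩⟩
  exact ⟨b1, a2, a3, a4⟩

/-- `P4 = P1[1/n'] ⊓ P2[1/n]`. -/
theorem P4_eq_inf (hy : yy p A v w ≠ 0) : P4 k p A v w =
    (P1 k p A v w ⊔ Algebra.adjoin k {((v - 1) ^ 2 * yy p A v w)⁻¹}) ⊓
      (P2 k p A v w ⊔ Algebra.adjoin k {((w - 1) ^ 2 * yy p A v w)⁻¹}) := by
  have hg : ∀ (S : Subalgebra k K) (g : K), g⁻¹ ∈ S ⊔ Algebra.adjoin k {g⁻¹} := fun S g ↦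
    (le_sup_right : Algebra.adjoin k {g⁻¹} ≤ S ⊔ _) (Algebra.subset_adjoin rfl)
  refine le_antisymm (le_inf (P4_le_v h hy ((toY_le k p h .P1).trans le_sup_left) (hg _ _))
    (P4_le_w h hy ((toY_le k p h .P2).trans le_sup_left) (hg _ _))) ?_
  rintro f ⟨h1, h2⟩
  have e1 : P1 k p A v w ⊔ Algebra.adjoin k {((v - 1) ^ 2 * yy p A v w)⁻¹} ≤
      LU k p A v w (EE False True False True) :=
    sup_le_LU (P1_le_LU h _ _) (s := (-2, 0, -1)) (by simp [EE])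
      (by simp [N21_m, zpow_neg, mul_comm])
  have e2 : P2 k p A v w ⊔ Algebra.adjoin k {((w - 1) ^ 2 * yy p A v w)⁻¹} ≤
      LU k p A v w (EE True False False True) :=
    sup_le_LU (P2_le_LU h _ _) (s := (0, -2, -1)) (by simp [EE])
      (by simp [N21_m, zpow_neg, mul_comm])
  refine LU_le (toY_le k p h .P4) (fun s hs ↦ m_P4 h hs) (LU_inf h hi ?_ (e1 h1) (e2 h2))
  rintro s ⟨⟨-, a2, -, a4⟩, ⟨b1, -, -, -⟩⟩
  exact ⟨b1, a2, False.elim, a4⟩

end Inter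

end Charts

end H1F.FLIP
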