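import Pool.Agent.Lib.H1F.FLIP.F13

/-!
# H1F FLIP F14: smallness without residue fields

If `R = R[1/f] ∩ R[1/g]` then a localization of `R` at a prime of height one contains `1/f`
or `1/g`.
-/

open CategoryTheory CategoryTheory.Limits AlgebraicGeometry Order

universe u

namespace H1F.FLIP

set_option linter.unusedSectionVars false

section Alg

variable {k : Type*} [Field k] {K : Type*} [Field K] [Algebra k K]

/-- In a local domain of dimension one every nonzero element divides a power of every nonunit. -/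
theorem F14_pow {O : Type*} [CommRing O] [IsDomain O] [IsLocalRing O] [Ring.KrullDimLE 1 O]
    {f b : O} (hf : ¬ IsUnit f) (hb : b ≠ 0) : ∃ m : ℕ, b ∣ f ^ m := by
  have h : f ∈ (Ideal.span {b}).radical := by
    rw [Ideal.radical_eq_sInf]
    rw [Ideal.mem_sInf]
    rintro J ⟨hJ, hJp⟩
    have hJb : J ≠ ⊥ := by
      intro h0
      rw [h0] at hJ
      exact hb (hJ (Ideal.mem_span_singleton_self b))
    have hm : J.IsMaximal := Ideal.isMaximal_of_isPrime_of_ne_bot J hJb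
    rw [IsLocalRing.eq_maximalIdeal hm]
    exact hf
  obtain ⟨m, hm⟩ := h
  exact ⟨m, Ideal.mem_span_singleton.1 hm⟩

theorem F14_inv {O : Subalgebra k K} {x : K} (hx : x ∈ O) (h : IsUnit (⟨x, hx⟩ : O)) :
    x⁻¹ ∈ O := by
  obtain ⟨z, hz⟩ := h.exists_right_inv
  have : x * z = 1 := congrArg Subtype.val hz
  rw [← eq_inv_of_mul_eq_one_right this]
  exact z.2

/-- F14a. -/
theorem inv_mem_of_inter (O R : Subalgebra k K) [IsLocalRing O] [Ring.KrullDimLE 1 O]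
    (hfr : ∀ x : K, ∃ a ∈ O, ∃ b ∈ O, b ≠ 0 ∧ x = a * b⁻¹)
    (hRO : R ≤ O)
    (hloc : ∀ f ∈ O, ∃ r ∈ R, ∃ s ∈ R, s ≠ 0 ∧ s⁻¹ ∈ O ∧ f = r * s⁻¹) {f g : K} (hf : f ∈ R)
    (hg : g ∈ R) (hf0 : f ≠ 0) (hg0 : g ≠ 0)
    (hinter : ∀ x, x ∈ R ⊔ Algebra.adjoin k {f⁻¹} → x ∈ R ⊔ Algebra.adjoin k {g⁻¹} → x ∈ R) :
    f⁻¹ ∈ O ∨ g⁻¹ ∈ O := by
  by_contra hcon
  push Not at hcon
  -- every element of `K` has a multiple by a unit of `O` in `R[1/q]`, `q = f, g`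
  have key : ∀ q ∈ R, q ≠ 0 → q⁻¹ ∉ O → ∀ x : K, ∃ s ∈ R, s ≠ 0 ∧ s⁻¹ ∈ O ∧
      s * x ∈ R ⊔ Algebra.adjoin k {q⁻¹} := by
    intro q hq hq0 hqi x
    obtain ⟨a, ha, b, hb, hb0, rfl⟩ := hfr x
    have hqn : ¬ IsUnit (⟨q, hRO hq⟩ : O) := fun hu ↦ hqi (F14_inv (hRO hq) hu)
    have hb0' : (⟨b, hb⟩ : O) ≠ 0 := fun h0 ↦ hb0 (congrArg Subtype.val h0)
    obtain ⟨m, ⟨c, hc⟩, hm⟩ := F14_pow hqn hb0'
    have hm' : q ^ m = b * c := congrArg Subtype.val hm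
    have hac : a * c ∈ O := O.mul_mem ha hc
    obtain ⟨r, hr, s, hs, hs0, hsi, hrs⟩ := hloc _ hac
    refine ⟨s, hs, hs0, hsi, ?_⟩
    have e : s * (a * b⁻¹) = r * (q⁻¹) ^ m := by
      have hc0 : c ≠ 0 := by
        intro h0
        rw [h0, mul_zero] at hm'
        exact pow_ne_zero m hq0 hm'
      have h1 : (q⁻¹) ^ m = (b * c)⁻¹ := by rw [inv_pow, hm']
      rw [h1]
      have h2 : a * c * s = r := by rw [hrs, mul_assoc, inv_mul_cancel₀ hs0, mul_one]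
      rw [← h2]
      field_simp
    rw [e]
    exact (mem_sup_inv_iff R hq hq0 _).2 ⟨m, r, hr, rfl⟩
  -- hence `O = K`
  apply hcon.1
  obtain ⟨s, hs, hs0, hsi, hsx⟩ := key f hf hf0 hcon.1 f⁻¹
  obtain ⟨t, ht, ht0, hti, htx⟩ := key g hg hg0 hcon.2 f⁻¹
  have h1 : t * (s * f⁻¹) ∈ R ⊔ Algebra.adjoin k {f⁻¹} :=
    Subalgebra.mul_mem _ ((le_sup_left : R ≤ _) ht) hsx
  have h2 : t * (s * f⁻¹) ∈ R ⊔ Algebra.adjoin k {g⁻¹} := by
    have : t * (s * f⁻¹) = s * (t * f⁻¹) := by ring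
    rw [this]
    exact Subalgebra.mul_mem _ ((le_sup_left : R ≤ _) hs) htx
  have h3 := hRO (hinter _ h1 h2)
  have h4 : f⁻¹ = s⁻¹ * (t⁻¹ * (t * (s * f⁻¹))) := by field_simp
  rw [h4]
  exact O.mul_mem hsi (O.mul_mem hti h3)

end Alg

section Geo

variable {k : Type u} [Field k] {K : Type u} [Field K] [Algebra k K] {p : ℕ} [Fact p.Prime]
  [CharP K p] {A v w : K} {X X' Y : Over (Spec (CommRingCat.of k))}
  {a : Atlas (fun c : {c : Ch // c.inX} ↦ ring k p A v w c.1) X}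
  {a' : Atlas (fun c : {c : Ch // c.inX'} ↦ ring k p A v w c.1) X'}
  {b : Atlas (fun c : {c : Ch // c.inY} ↦ ring k p A v w c.1) Y}
  {L : X.left → Subalgebra k K} {L' : X'.left → Subalgebra k K} {M : Y.left → Subalgebra k K}

/-- Codimension at most one: dimension at most one. -/
theorem LocData.krullDimLE {ι : Type} [Finite ι] [Nonempty ι] {R : ι → Subalgebra k K}
    {a : Atlas R X} (h : LocData a L) {x : X.left} (hx : coheight x ≤ 1) :
    Ring.KrullDimLE 1 (L x) := by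
  rw [Ring.krullDimLE_iff, h.ringKrullDim_eq x]
  exact_mod_cast hx

/-- Every element of `K` is a quotient of elements of the local ring. -/
theorem LocData.frac {ι : Type} [Finite ι] [Nonempty ι] {R : ι → Subalgebra k K}
    {a : Atlas R X} (h : LocData a L) (hfr : ∀ i, IsFractionRing (R i) K) (x : X.left) (y : K) :
    ∃ r ∈ L x, ∃ s ∈ L x, s ≠ 0 ∧ y = r * s⁻¹ := by
  obtain ⟨i, x', rfl⟩ := a.cover x
  have := hfr i
  obtain ⟨r, s, hs, rfl⟩ := IsFractionRing.div_surjective (A := R i) y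
  refine ⟨r, h.le i x' r.2, s, h.le i x' s.2, ?_, div_eq_mul_inv _ _⟩
  have := nonZeroDivisors.ne_zero hs
  intro h0
  exact this (Subtype.ext h0)

/-- F14b: points of codimension at most one of `X` lie in the open sets `GX`. -/
theorem cod_X_new (h : Gen A v w) (hi : AlgebraicIndependent k ![v - 1, w - 1, yy p A v w])
    (hy : yy p A v w ≠ 0)
    (hfr : ∀ c : {c : Ch // c.inX}, IsFractionRing (ring k p A v w c.1) K) (hL : LocData a L)
    (x : X.left)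
    (hx : coheight x ≤ 1) : ∃ (i : {c : Ch // c.inX}) (j : {c : Ch // c.inY}) (g : K),
      GX p A v w i.1 j.1 g ∧ ring k p A v w j.1 ⊔ Algebra.adjoin k {g⁻¹} ≤ L x := by
  have hdim := hL.krullDimLE hx
  have hfrac := hL.frac hfr x
  obtain ⟨i, y, rfl⟩ := a.cover x
  have hloc := hL.isLocal (a.c i y)
  have hle := hL.le i y
  have n1 : v - 1 ≠ 0 := sub_ne_zero.2 h.v1
  have n2 : w - 1 ≠ 0 := sub_ne_zero.2 h.w1
  by_cases hiY : toY i.1 = .Y0
  · have hY : Y0 k p A v w ≤ L (a.c i y) := by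
      have := (toY_le k p h i.1).trans hle
      rwa [hiY] at this
    have hsup : ∀ g : K, g⁻¹ ∈ L (a.c i y) →
        Y0 k p A v w ⊔ Algebra.adjoin k {g⁻¹} ≤ L (a.c i y) := fun g hg ↦
      sup_le hY (Algebra.adjoin_le (by simpa using hg))
    obtain ⟨c, hc⟩ := i
    cases c with
    | P1 =>
      rcases inv_mem_of_inter (L (a.c ⟨.P1, hc⟩ y)) (P1 k p A v w) hfrac hle
        (fun f hf ↦ (hL.loc _ y f).1 hf) (toY_le k p h .P1 beta_mem) (toY_le k p h .P1 bby_mem)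
        n1 (mul_ne_zero (pow_ne_zero _ n1) hy) (fun x ↦ inter_P1 h hi) with h1 | h1
      · exact ⟨⟨.P1, hc⟩, ⟨.Y0, trivial⟩, v - 1, Or.inr (Or.inl ⟨rfl, rfl, Or.inl rfl⟩),
          hsup _ h1⟩
      · exact ⟨⟨.P1, hc⟩, ⟨.Y0, trivial⟩, _, Or.inr (Or.inl ⟨rfl, rfl, Or.inr rfl⟩),
          hsup _ h1⟩
    | P2 =>
      rcases inv_mem_of_inter (L (a.c ⟨.P2, hc⟩ y)) (P2 k p A v w) hfrac hle
        (fun f hf ↦ (hL.loc _ y f).1 hf) (toY_le k p h .P2 delta_mem) (toY_le k p h .P2 ddy_mem)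
        n2 (mul_ne_zero (pow_ne_zero _ n2) hy) (fun x ↦ inter_P2 h hi) with h1 | h1
      · exact ⟨⟨.P2, hc⟩, ⟨.Y0, trivial⟩, w - 1, Or.inr (Or.inr ⟨rfl, rfl, Or.inl rfl⟩),
          hsup _ h1⟩
      · exact ⟨⟨.P2, hc⟩, ⟨.Y0, trivial⟩, _, Or.inr (Or.inr ⟨rfl, rfl, Or.inr rfl⟩),
          hsup _ h1⟩
    | NI f => exact absurd hiY (by simp [toY])
    | NII f => exact absurd hiY (by simp [toY])
    | M f => exact absurd hiY (by simp [toY])
    | T6 => exact absurd hiY (by simp [toY])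
    | P3 => exact False.elim hc
    | P4 => exact False.elim hc
    | Y0 => exact False.elim hc
  · have hi' := inX_cases i.2 hiY
    refine ⟨i, ⟨i.1, hi'.1⟩, 1, Or.inl ⟨rfl, rfl⟩, sup_le hle (Algebra.adjoin_le ?_)⟩
    simp

/-- F14c: points of codimension at most one of `X'` lie in the open sets `GX'`. -/
theorem cod_X'_new (h : Gen A v w) (hi : AlgebraicIndependent k ![v - 1, w - 1, yy p A v w])
    (hy : yy p A v w ≠ 0)
    (hfr : ∀ c : {c : Ch // c.inX'}, IsFractionRing (ring k p A v w c.1) K)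
    (hL : LocData a' L') (x : X'.left)
    (hx : coheight x ≤ 1) : ∃ (i : {c : Ch // c.inX'}) (j : {c : Ch // c.inY}) (g : K),
      GX' p A v w i.1 j.1 g ∧ ring k p A v w j.1 ⊔ Algebra.adjoin k {g⁻¹} ≤ L' x := by
  have hdim := hL.krullDimLE hx
  have hfrac := hL.frac hfr x
  obtain ⟨i, y, rfl⟩ := a'.cover x
  have hloc := hL.isLocal (a'.c i y)
  have hle := hL.le i y
  have n1 : v - 1 ≠ 0 := sub_ne_zero.2 h.v1
  have n2 : w - 1 ≠ 0 := sub_ne_zero.2 h.w1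
  by_cases hiY : toY i.1 = .Y0
  · have hY : Y0 k p A v w ≤ L' (a'.c i y) := by
      have := (toY_le k p h i.1).trans hle
      rwa [hiY] at this
    have hsup : ∀ g : K, g⁻¹ ∈ L' (a'.c i y) →
        Y0 k p A v w ⊔ Algebra.adjoin k {g⁻¹} ≤ L' (a'.c i y) := fun g hg ↦
      sup_le hY (Algebra.adjoin_le (by simpa using hg))
    obtain ⟨c, hc⟩ := i
    cases c with
    | P3 =>
      rcases inv_mem_of_inter (L' (a'.c ⟨.P3, hc⟩ y)) (P3 k p A v w) hfrac hle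
        (fun f hf ↦ (hL.loc _ y f).1 hf) (toY_le k p h .P3 beta_mem)
        (toY_le k p h .P3 delta_mem) n1 n2 (fun x ↦ inter_P3 h hi) with h1 | h1
      · exact ⟨⟨.P3, hc⟩, ⟨.Y0, trivial⟩, v - 1, Or.inr (Or.inl ⟨rfl, rfl, Or.inl rfl⟩),
          hsup _ h1⟩
      · exact ⟨⟨.P3, hc⟩, ⟨.Y0, trivial⟩, w - 1, Or.inr (Or.inl ⟨rfl, rfl, Or.inr rfl⟩),
          hsup _ h1⟩
    | P4 =>
      rcases inv_mem_of_inter (L' (a'.c ⟨.P4, hc⟩ y)) (P4 k p A v w) hfrac hle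
        (fun f hf ↦ (hL.loc _ y f).1 hf) (toY_le k p h .P4 bby_mem) (toY_le k p h .P4 ddy_mem)
        (mul_ne_zero (pow_ne_zero _ n1) hy) (mul_ne_zero (pow_ne_zero _ n2) hy)
        (fun x ↦ inter_P4 h hi) with h1 | h1
      · exact ⟨⟨.P4, hc⟩, ⟨.Y0, trivial⟩, _, Or.inr (Or.inr ⟨rfl, rfl, Or.inl rfl⟩),
          hsup _ h1⟩
      · exact ⟨⟨.P4, hc⟩, ⟨.Y0, trivial⟩, _, Or.inr (Or.inr ⟨rfl, rfl, Or.inr rfl⟩),
          hsup _ h1⟩
    | NI f => exact absurd hiY (by simp [toY])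
    | NII f => exact absurd hiY (by simp [toY])
    | M f => exact absurd hiY (by simp [toY])
    | T6 => exact absurd hiY (by simp [toY])
    | P1 => exact False.elim hc
    | P2 => exact False.elim hc
    | Y0 => exact False.elim hc
  · have hi' := inX'_cases i.2 hiY
    refine ⟨i, ⟨i.1, hi'.1⟩, 1, Or.inl ⟨rfl, rfl⟩, sup_le hle (Algebra.adjoin_le ?_)⟩
    simp

end Geo

end H1F.FLIP
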