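import Pool.Agent.Lib.H1F.FLIP.F14

/-!
# H1F FLIP F15: smallness, correspondence of points, transport of divisors
-/

open CategoryTheory CategoryTheory.Limits AlgebraicGeometry Order

universe u

namespace H1F.FLIP

set_option linter.unusedSectionVars false

section Geo

variable {k : Type u} [Field k] {K : Type u} [Field K] [Algebra k K] {p : ℕ} [Fact p.Prime]
  [CharP K p] {A v w : K} {X X' Y : Over (Spec (CommRingCat.of k))}
  {a : Atlas (fun c : {c : Ch // c.inX} ↦ ring k p A v w c.1) X}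
  {a' : Atlas (fun c : {c : Ch // c.inX'} ↦ ring k p A v w c.1) X'}
  {b : Atlas (fun c : {c : Ch // c.inY} ↦ ring k p A v w c.1) Y}
  {L : X.left → Subalgebra k K} {L' : X'.left → Subalgebra k K} {M : Y.left → Subalgebra k K}

/-- F15a: `X ⟶ Y` is small, and an isomorphism on local rings at points of codimension one. -/
theorem small_X (h : Gen A v w) (hi : AlgebraicIndependent k ![v - 1, w - 1, yy p A v w])
    (hy : yy p A v w ≠ 0)
    (hfr : ∀ c : {c : Ch // c.inX}, IsFractionRing (ring k p A v w c.1) K)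
    (hL : LocData a L) (hM : LocData b M) (f : X ⟶ Y)
    (hf : ∀ (i : {c : Ch // c.inX}) (j : {c : Ch // c.inY})
      (hij : ring k p A v w j.1 ≤ ring k p A v w i.1),
      a.c i ≫ f.left = specIncl hij ≫ b.c j) :
    IsSmall f.left ∧ ∀ x : X.left, coheight x ≤ 1 → M (f.left x) = L x := by
  have hcod := cod_X_new h hi hy hfr hL
  have := isSmall_of_good hL hM f hf (hs_X h) (fun i j g ↦ GX p A v w i.1 j.1 g)
    (fun i j g hg ↦ GX_spec h hy hg)
    ⟨⟨.T6, trivial⟩, ⟨.T6, trivial⟩, 1, Or.inl ⟨rfl, rfl⟩⟩ hcod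
  exact ⟨this.1, fun x hx ↦ this.2 x (hcod x hx)⟩

/-- F15b: `X' ⟶ Y` is small, and an isomorphism on local rings at points of codimension one. -/
theorem small_X' (h : Gen A v w) (hi : AlgebraicIndependent k ![v - 1, w - 1, yy p A v w])
    (hy : yy p A v w ≠ 0)
    (hfr : ∀ c : {c : Ch // c.inX'}, IsFractionRing (ring k p A v w c.1) K)
    (hL : LocData a' L') (hM : LocData b M) (f : X' ⟶ Y)
    (hf : ∀ (i : {c : Ch // c.inX'}) (j : {c : Ch // c.inY})
      (hij : ring k p A v w j.1 ≤ ring k p A v w i.1),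
      a'.c i ≫ f.left = specIncl hij ≫ b.c j) :
    IsSmall f.left ∧ ∀ x : X'.left, coheight x ≤ 1 → M (f.left x) = L' x := by
  have hcod := cod_X'_new h hi hy hfr hL
  have := isSmall_of_good hL hM f hf (hs_X' h) (fun i j g ↦ GX' p A v w i.1 j.1 g)
    (fun i j g hg ↦ GX'_spec h hy hg)
    ⟨⟨.T6, trivial⟩, ⟨.T6, trivial⟩, 1, Or.inl ⟨rfl, rfl⟩⟩ hcod
  exact ⟨this.1, fun x hx ↦ this.2 x (hcod x hx)⟩

/-- F15c: every local ring of `X'` at a point of codimension one is a local ring of `X`. -/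
theorem exists_point (h : Gen A v w) (hi : AlgebraicIndependent k ![v - 1, w - 1, yy p A v w])
    (hy : yy p A v w ≠ 0)
    (hfr : ∀ c : {c : Ch // c.inX'}, IsFractionRing (ring k p A v w c.1) K) (hL : LocData a L)
    (hL' : LocData a' L') (z : X'.left)
    (hz : coheight z ≤ 1) : ∃ x : X.left, L x = L' z ∧ coheight x = coheight z := by
  suffices hx : ∃ x : X.left, L x = L' z by
    obtain ⟨x, hx⟩ := hx
    exact ⟨x, hx, hL.coheight_eq hL' hx⟩
  obtain ⟨i, j, g, hg, hle⟩ := cod_X'_new h hi hy hfr hL' z hz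
  have key : ∀ i0 : {c : Ch // c.inX}, g ∈ ring k p A v w i0.1 →
      ring k p A v w i.1 ≤ ring k p A v w i0.1 ⊔ Algebra.adjoin k {g⁻¹} →
      ring k p A v w i0.1 ≤ ring k p A v w j.1 ⊔ Algebra.adjoin k {g⁻¹} →
      ∃ x : X.left, L x = L' z := fun i0 h1 h2 h3 ↦
    hL.exists_point hL' z i0 i h1 h2 ((sup_le h3 le_sup_right).trans hle)
  obtain ⟨i, hi⟩ := i
  obtain ⟨j, hj⟩ := j
  change GX' p A v w i j g at hg
  have h1 : v - 1 ≠ 0 := sub_ne_zero.2 h.v1
  have h2 : w - 1 ≠ 0 := sub_ne_zero.2 h.w1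
  have hgi : ∀ (S : Subalgebra k K) (g : K), g⁻¹ ∈ S ⊔ Algebra.adjoin k {g⁻¹} := fun S g ↦
    (le_sup_right : Algebra.adjoin k {g⁻¹} ≤ S ⊔ _) (Algebra.subset_adjoin rfl)
  have hYl1 : ∀ g : K, Y0 k p A v w ≤ P1 k p A v w ⊔ Algebra.adjoin k {g⁻¹} := fun g ↦
    (toY_le k p h .P1).trans le_sup_left
  have hYl2 : ∀ g : K, Y0 k p A v w ≤ P2 k p A v w ⊔ Algebra.adjoin k {g⁻¹} := fun g ↦
    (toY_le k p h .P2).trans le_sup_left
  rcases hg with ⟨rfl, rfl⟩ | ⟨rfl, rfl, rfl | rfl⟩ | ⟨rfl, rfl, rfl | rfl⟩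
  · have hX : i.inX := by
      cases i <;> first | exact trivial | exact False.elim hi | exact False.elim hj
    exact key ⟨i, hX⟩ (one_mem _) le_sup_left le_sup_left
  · exact key ⟨.P1, trivial⟩ (toY_le k p h .P1 beta_mem) (P3_le_v k p h (hYl1 _) (hgi _ _))
      (P1_le k p h le_sup_left (hgi _ _))
  · exact key ⟨.P2, trivial⟩ (toY_le k p h .P2 delta_mem) (P3_le_w k p h (hYl2 _) (hgi _ _))
      (P2_le k p h le_sup_left (hgi _ _))
  · exact key ⟨.P1, trivial⟩ (toY_le k p h .P1 bby_mem) (P4_le_v h hy (hYl1 _) (hgi _ _))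
      (P1_le' h hy le_sup_left (hgi _ _))
  · exact key ⟨.P2, trivial⟩ (toY_le k p h .P2 ddy_mem) (P4_le_w h hy (hYl2 _) (hgi _ _))
      (P2_le' h hy le_sup_left (hgi _ _))

end Geo

section Transport

variable {k : Type u} [Field k] {K : Type u} [Field K] [Algebra k K]
  {ι κ : Type} [Finite ι] [Nonempty ι] [Finite κ] [Nonempty κ]
  {R : ι → Subalgebra k K} {S : κ → Subalgebra k K}
  {X X' : Over (Spec (CommRingCat.of k))} {a : Atlas R X} {a' : Atlas S X'}
  {L : X.left → Subalgebra k K} {L' : X'.left → Subalgebra k K}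

open Classical in
/-- The strict transform: `Δ' z' = Δ z` if `z`, `z'` are points of codimension one with the same
local ring. -/
noncomputable def transport {T : Type*} [Zero T] (L : X.left → Subalgebra k K)
    (L' : X'.left → Subalgebra k K) (Δ : X.left → T) : X'.left → T := fun z' ↦
  if h : coheight z' = 1 ∧ ∃ z : X.left, coheight z = 1 ∧ L z = L' z' then Δ h.2.choose else 0

theorem transport_eq {T : Type*} [Zero T] (hL : LocData a L) (Δ : X.left → T) {z : X.left}
    {z' : X'.left} (hz : coheight z = 1) (hz' : coheight z' = 1) (h : L z = L' z') :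
    transport L L' Δ z' = Δ z := by
  have h1 : coheight z' = 1 ∧ ∃ z : X.left, coheight z = 1 ∧ L z = L' z' := ⟨hz', z, hz, h⟩
  unfold transport
  rw [dif_pos h1]
  congr 1
  exact hL.ext (h1.2.choose_spec.2.trans h.symm)

theorem transport_support {T : Type*} [Zero T] (Δ : X.left → T) {z' : X'.left}
    (h : transport L L' Δ z' ≠ 0) : coheight z' = 1 := by
  unfold transport at h
  by_contra hcon
  rw [dif_neg (fun h' ↦ hcon h'.1)] at h
  exact h rfl

end Transport

end H1F.FLIP
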