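import Pool.Agent.Lib.H1F.FLIP.F5

/-!
# H1F FLIP F8: a local ring whose residue field is generated by one element has residue field of
transcendence degree at most one
-/

universe u

namespace H1F.FLIP

variable {k : Type u} [Field k] {K : Type u} [Field K] [Algebra k K]

/-- The residue class of `x ∈ O` (zero outside `O`). -/
noncomputable def rs (O : Subalgebra k K) [IsLocalRing O] (x : K) (hx : x ∈ O) :
    IsLocalRing.ResidueField O := IsLocalRing.residue O ⟨x, hx⟩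

/-- F8a. -/
theorem trdeg_le_one (O : Subalgebra k K) [IsLocalRing O] (G : Set K)
    (hG : Algebra.adjoin k G ≤ O)
    (hloc : ∀ f ∈ O, ∃ r ∈ Algebra.adjoin k G, ∃ s ∈ Algebra.adjoin k G,
      s ≠ 0 ∧ s⁻¹ ∈ O ∧ f = r * s⁻¹)
    (τ : IsLocalRing.ResidueField O)
    (hgen : ∀ g (hg : g ∈ G), rs O g (hG (Algebra.subset_adjoin hg)) ∈ Algebra.adjoin k {τ}) :
    Algebra.trdeg k (IsLocalRing.ResidueField O) ≤ 1 := by
  -- residues of elements of the ring
  have key : ∀ g (hg : g ∈ Algebra.adjoin k G), rs O g (hG hg) ∈ Algebra.adjoin k {τ} := by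
    intro g hg
    induction hg using Algebra.adjoin_induction with
    | mem x hx => exact hgen x hx
    | algebraMap r => exact Subalgebra.algebraMap_mem _ r
    | add x y hx hy ihx ihy => exact Subalgebra.add_mem _ ihx ihy
    | mul x y hx hy ihx ihy =>
      have : rs O (x * y) (hG (mul_mem hx hy)) = rs O x (hG hx) * rs O y (hG hy) :=
        map_mul (IsLocalRing.residue O) ⟨x, hG hx⟩ ⟨y, hG hy⟩
      rw [this]
      exact Subalgebra.mul_mem _ ihx ihy
  have halg : Algebra.IsAlgebraic (Algebra.adjoin k {τ}) (IsLocalRing.ResidueField O) := by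
    refine ⟨fun x ↦ ?_⟩
    obtain ⟨⟨f, hf⟩, rfl⟩ := IsLocalRing.residue_surjective x
    obtain ⟨r, hr, s, hs, hs0, hsi, hfe⟩ := hloc f hf
    have h1 : rs O f hf * rs O s (hG hs) = rs O r (hG hr) := by
      have : (⟨f, hf⟩ : O) * ⟨s, hG hs⟩ = ⟨r, hG hr⟩ := by
        apply Subtype.ext
        change f * s = r
        rw [hfe, mul_assoc, inv_mul_cancel₀ hs0, mul_one]
      unfold rs
      rw [← map_mul, this]
    have h2 : rs O s (hG hs) ≠ 0 := by
      unfold rs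
      rw [Ne, IsLocalRing.residue_eq_zero_iff, IsLocalRing.mem_maximalIdeal, mem_nonunits_iff,
        not_not]
      exact IsUnit.of_mul_eq_one ⟨s⁻¹, hsi⟩ (Subtype.ext (mul_inv_cancel₀ hs0))
    refine ⟨Polynomial.C ⟨rs O s (hG hs), key s hs⟩ * Polynomial.X -
      Polynomial.C ⟨rs O r (hG hr), key r hr⟩, ?_, ?_⟩
    · intro h0
      have := congrArg (fun q ↦ Polynomial.coeff q 1) h0
      simp only [Polynomial.coeff_sub, Polynomial.coeff_C_mul, Polynomial.coeff_X_one, mul_one,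
        Polynomial.coeff_zero, Polynomial.coeff_C, one_ne_zero, if_false, sub_zero] at this
      exact h2 (congrArg Subtype.val this)
    · rw [map_sub, map_mul, Polynomial.aeval_C, Polynomial.aeval_C, Polynomial.aeval_X]
      change rs O s (hG hs) * rs O f hf - rs O r (hG hr) = 0
      rw [← h1]
      ring
  have := Algebra.IsAlgebraic.trdeg_le_cardinalMk k ({τ} : Set (IsLocalRing.ResidueField O))
  simpa using this

section Res

variable {O : Subalgebra k K} [IsLocalRing O]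

theorem rs_zero {x : K} (hx : x ∈ O) (h : x = 0 ∨ x⁻¹ ∉ O) : rs O x hx = 0 := by
  unfold rs
  rw [IsLocalRing.residue_eq_zero_iff, IsLocalRing.mem_maximalIdeal, mem_nonunits_iff]
  intro hu
  rcases h with h | h
  · subst h
    have : (⟨0, hx⟩ : O) = 0 := rfl
    rw [this] at hu
    exact not_isUnit_zero hu
  · obtain ⟨z, hz⟩ := hu.exists_right_inv
    have : x * z = 1 := congrArg Subtype.val hz
    rw [← eq_inv_of_mul_eq_one_right this] at h
    exact h z.2

theorem rs_mul {x y : K} (hx : x ∈ O) (hy : y ∈ O) (hxy : x * y ∈ O) :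
    rs O (x * y) hxy = rs O x hx * rs O y hy :=
  map_mul (IsLocalRing.residue O) ⟨x, hx⟩ ⟨y, hy⟩

theorem rs_congr {x y : K} (hx : x ∈ O) (hy : y ∈ O) (h : x = y) : rs O x hx = rs O y hy := by
  subst h; rfl

theorem rs_inv_one {x : K} (h0 : x ≠ 0) (hxi : x⁻¹ ∈ O) (h1 : x - 1 ∈ O)
    (h : rs O (x - 1) h1 = 0) : rs O x⁻¹ hxi = 1 := by
  have hx : x ∈ O := by
    have := O.add_mem h1 O.one_mem
    rwa [sub_add_cancel] at this
  have e1 : rs O x hx = 1 := by
    have : (⟨x, hx⟩ : O) = ⟨x - 1, h1⟩ + 1 := Subtype.ext (by simp)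
    unfold rs at h ⊢
    rw [this, map_add, h, zero_add, map_one]
  have e2 : rs O x⁻¹ hxi * rs O x hx = 1 := by
    have : (⟨x⁻¹, hxi⟩ : O) * ⟨x, hx⟩ = 1 := Subtype.ext (inv_mul_cancel₀ h0)
    unfold rs
    rw [← map_mul, this, map_one]
  rwa [e1, mul_one] at e2

end Res

section Charts

variable {p : ℕ} {A v w : K} {O : Subalgebra k K} [IsLocalRing O]

/-- `A - 1` lies in the ideal generated by `v - 1` and `w - 1` of `Y0`. -/
theorem A_sub_one (hv : v ≠ 1) (hw : w ≠ 1) (hvw : v ≠ w) :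
    A - 1 = ((v - 1) ^ (p - 1) + (v - 1) ^ 2 * yy p A v w) * (w - 1) -
      (w - 1) ^ 2 * yy p A v w * (v - 1) := by
  have h1 : v - 1 ≠ 0 := sub_ne_zero.2 hv
  have h2 : w - 1 ≠ 0 := sub_ne_zero.2 hw
  have h3 : v - w ≠ 0 := sub_ne_zero.2 hvw
  have hy : yy p A v w * ((v - 1) * (w - 1) * (v - w)) =
      A - 1 - (v - 1) ^ (p - 1) * (w - 1) := by
    rw [yy]
    field_simp
  linear_combination -hy

/-- Residues of the units. -/
theorem rs_units (hA0 : A ≠ 0) (hv0 : v ≠ 0) (hw0 : w ≠ 0) (hv : v ≠ 1) (hw : w ≠ 1)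
    (hvw : v ≠ w) (hY : Y0 k p A v w ≤ O) (hb : v - 1 ∈ O) (hd : w - 1 ∈ O)
    (hb0 : rs O (v - 1) hb = 0) (hd0 : rs O (w - 1) hd = 0) :
    rs O A⁻¹ (hY (Algebra.subset_adjoin (by simp))) = 1 ∧
    rs O v⁻¹ (hY (Algebra.subset_adjoin (by simp))) = 1 ∧
    rs O w⁻¹ (hY (Algebra.subset_adjoin (by simp))) = 1 := by
  have m5 : (v - 1) ^ 2 * yy p A v w ∈ O := hY (Algebra.subset_adjoin (by simp))
  have m6 : (w - 1) ^ 2 * yy p A v w ∈ O := hY (Algebra.subset_adjoin (by simp))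
  have hA1 : A - 1 ∈ O := by
    rw [A_sub_one (p := p) hv hw hvw]
    exact O.sub_mem (O.mul_mem (O.add_mem (O.pow_mem hb _) m5) hd) (O.mul_mem m6 hb)
  refine ⟨rs_inv_one hA0 _ hA1 ?_, rs_inv_one hv0 _ hb hb0, rs_inv_one hw0 _ hd hd0⟩
  have e : (⟨A - 1, hA1⟩ : O) =
      (⟨v - 1, hb⟩ ^ (p - 1) + ⟨(v - 1) ^ 2 * yy p A v w, m5⟩) * ⟨w - 1, hd⟩ -
      ⟨(w - 1) ^ 2 * yy p A v w, m6⟩ * ⟨v - 1, hb⟩ :=
    Subtype.ext (A_sub_one (p := p) hv hw hvw)
  unfold rs at hb0 hd0 ⊢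
  rw [e, map_sub, map_mul, map_mul, hb0, hd0, mul_zero, mul_zero, sub_zero]

end Charts

end H1F.FLIP
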