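import Pool.Agent.Lib.H1F.FLIP.F7
import Pool.Agent.Lib.H1F.FLIP.F8

/-!
# H1F FLIP F9: the points of `X` and `X'` over `y0` have residue fields of transcendence degree
at most one
-/

universe u

namespace H1F.FLIP

variable {k : Type u} [Field k] {K : Type u} [Field K] [Algebra k K] {p : ℕ} [Fact p.Prime]
  [CharP K p] {A v w : K} {O : Subalgebra k K} [IsLocalRing O]

/-- F9a: the chart `P1`. -/
theorem trdeg_P1 (h : Gen A v w) (hR : P1 k p A v w ≤ O)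
    (hloc : ∀ f ∈ O, ∃ r ∈ P1 k p A v w, ∃ s ∈ P1 k p A v w, s ≠ 0 ∧ s⁻¹ ∈ O ∧ f = r * s⁻¹)
    (h1 : (v - 1)⁻¹ ∉ O) (h2 : ((v - 1) ^ 2 * yy p A v w)⁻¹ ∉ O) :
    Algebra.trdeg k (IsLocalRing.ResidueField O) ≤ 1 := by
  have hY : Y0 k p A v w ≤ O := (toY_le k p h .P1).trans hR
  have ht : (w - 1) / (v - 1) ∈ O := hR (Algebra.subset_adjoin (by simp))
  have hb : v - 1 ∈ O := hY (Algebra.subset_adjoin (by simp))
  have hd : w - 1 ∈ O := hY (Algebra.subset_adjoin (by simp))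
  have m5 : (v - 1) ^ 2 * yy p A v w ∈ O := hY (Algebra.subset_adjoin (by simp))
  have n1 : v - 1 ≠ 0 := sub_ne_zero.2 h.v1
  have hb0 : rs O (v - 1) hb = 0 := rs_zero hb (Or.inr h1)
  have hd0 : rs O (w - 1) hd = 0 := by
    have e : w - 1 = (w - 1) / (v - 1) * (v - 1) := by field_simp
    rw [rs_congr hd (O.mul_mem ht hb) e, rs_mul ht hb, hb0, mul_zero]
  have hn : -(((v - 1) / (w - 1)) ^ 2 * nn p A v w + p * ((v - 1) / (w - 1))) =
      -((v - 1) ^ 2 * yy p A v w) := by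
    have h2 : w - 1 ≠ 0 := sub_ne_zero.2 h.w1
    rw [nn_eq p A v w h.v1 h.w1 h.vw, CharP.cast_eq_zero]
    field_simp
    ring
  have h30 : rs O (-((v - 1) ^ 2 * yy p A v w)) (O.neg_mem m5) = 0 := by
    refine rs_zero _ (Or.inr ?_)
    rw [inv_neg]
    intro hcon
    apply h2
    have := O.neg_mem hcon
    rwa [neg_neg] at this
  have hu := rs_units h.A0 h.v0 h.w0 h.v1 h.w1 h.vw hY hb hd hb0 hd0
  refine trdeg_le_one O _ hR hloc (rs O ((w - 1) / (v - 1)) ht) ?_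
  intro g hg
  simp only [Set.mem_insert_iff, Set.mem_singleton_iff] at hg
  rcases hg with rfl | rfl | rfl | rfl | rfl | rfl
  · exact Algebra.subset_adjoin rfl
  · rw [hb0]; exact zero_mem _
  · rw [rs_congr _ (O.neg_mem m5) hn, h30]
    exact zero_mem _
  · rw [hu.1]; exact one_mem _
  · rw [hu.2.1]; exact one_mem _
  · rw [hu.2.2]; exact one_mem _

/-- F9b: the chart `P2`. -/
theorem trdeg_P2 (h : Gen A v w) (hR : P2 k p A v w ≤ O)
    (hloc : ∀ f ∈ O, ∃ r ∈ P2 k p A v w, ∃ s ∈ P2 k p A v w, s ≠ 0 ∧ s⁻¹ ∈ O ∧ f = r * s⁻¹)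
    (h1 : (w - 1)⁻¹ ∉ O) (h2 : ((w - 1) ^ 2 * yy p A v w)⁻¹ ∉ O) :
    Algebra.trdeg k (IsLocalRing.ResidueField O) ≤ 1 := by
  have hY : Y0 k p A v w ≤ O := (toY_le k p h .P2).trans hR
  have ht : (v - 1) / (w - 1) ∈ O := hR (Algebra.subset_adjoin (by simp))
  have hb : v - 1 ∈ O := hY (Algebra.subset_adjoin (by simp))
  have hd : w - 1 ∈ O := hY (Algebra.subset_adjoin (by simp))
  have m6 : (w - 1) ^ 2 * yy p A v w ∈ O := hY (Algebra.subset_adjoin (by simp))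
  have n2 : w - 1 ≠ 0 := sub_ne_zero.2 h.w1
  have hd0 : rs O (w - 1) hd = 0 := rs_zero hd (Or.inr h1)
  have hb0 : rs O (v - 1) hb = 0 := by
    have e : v - 1 = (v - 1) / (w - 1) * (w - 1) := by field_simp
    rw [rs_congr hb (O.mul_mem ht hd) e, rs_mul ht hd, hd0, mul_zero]
  have hu := rs_units h.A0 h.v0 h.w0 h.v1 h.w1 h.vw hY hb hd hb0 hd0
  refine trdeg_le_one O _ hR hloc (rs O ((v - 1) / (w - 1)) ht) ?_
  intro g hg
  simp only [Set.mem_insert_iff, Set.mem_singleton_iff] at hg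
  rcases hg with rfl | rfl | rfl | rfl | rfl | rfl
  · exact Algebra.subset_adjoin rfl
  · rw [hd0]; exact zero_mem _
  · rw [rs_congr _ m6 (nn_eq p A v w h.v1 h.w1 h.vw), rs_zero m6 (Or.inr h2)]
    exact zero_mem _
  · rw [hu.1]; exact one_mem _
  · rw [hu.2.1]; exact one_mem _
  · rw [hu.2.2]; exact one_mem _

omit [Fact p.Prime] [CharP K p] in
/-- F9c: the chart `P3`. -/
theorem trdeg_P3 (h : Gen A v w) (hR : P3 k p A v w ≤ O)
    (hloc : ∀ f ∈ O, ∃ r ∈ P3 k p A v w, ∃ s ∈ P3 k p A v w, s ≠ 0 ∧ s⁻¹ ∈ O ∧ f = r * s⁻¹)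
    (h1 : (v - 1)⁻¹ ∉ O) (h2 : (w - 1)⁻¹ ∉ O) :
    Algebra.trdeg k (IsLocalRing.ResidueField O) ≤ 1 := by
  have hY : Y0 k p A v w ≤ O := (le_sup_left.trans (P3_eq k p A v w).ge).trans hR
  have ht : yy p A v w ∈ O := hR (Algebra.subset_adjoin (by simp))
  have hb : v - 1 ∈ O := hY (Algebra.subset_adjoin (by simp))
  have hd : w - 1 ∈ O := hY (Algebra.subset_adjoin (by simp))
  have hb0 : rs O (v - 1) hb = 0 := rs_zero hb (Or.inr h1)
  have hd0 : rs O (w - 1) hd = 0 := rs_zero hd (Or.inr h2)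
  have hu := rs_units h.A0 h.v0 h.w0 h.v1 h.w1 h.vw hY hb hd hb0 hd0
  refine trdeg_le_one O _ hR hloc (rs O (yy p A v w) ht) ?_
  intro g hg
  simp only [Set.mem_insert_iff, Set.mem_singleton_iff] at hg
  rcases hg with rfl | rfl | rfl | rfl | rfl | rfl
  · rw [hb0]; exact zero_mem _
  · rw [hd0]; exact zero_mem _
  · exact Algebra.subset_adjoin rfl
  · rw [hu.1]; exact one_mem _
  · rw [hu.2.1]; exact one_mem _
  · rw [hu.2.2]; exact one_mem _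

omit [Fact p.Prime] [CharP K p] in
/-- F9d: the chart `P4`. -/
theorem trdeg_P4 (h : Gen A v w) (hR : P4 k p A v w ≤ O)
    (hloc : ∀ f ∈ O, ∃ r ∈ P4 k p A v w, ∃ s ∈ P4 k p A v w, s ≠ 0 ∧ s⁻¹ ∈ O ∧ f = r * s⁻¹)
    (h1 : (v - 1)⁻¹ ∉ O) (h2 : (w - 1)⁻¹ ∉ O) (h3 : ((v - 1) ^ 2 * yy p A v w)⁻¹ ∉ O)
    (h4 : ((w - 1) ^ 2 * yy p A v w)⁻¹ ∉ O) :
    Algebra.trdeg k (IsLocalRing.ResidueField O) ≤ 1 := by
  have hY : Y0 k p A v w ≤ O := (le_sup_left.trans (P4_eq k p A v w).ge).trans hR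
  have ht : (yy p A v w)⁻¹ ∈ O := hR (Algebra.subset_adjoin (by simp))
  have hb : v - 1 ∈ O := hY (Algebra.subset_adjoin (by simp))
  have hd : w - 1 ∈ O := hY (Algebra.subset_adjoin (by simp))
  have m5 : (v - 1) ^ 2 * yy p A v w ∈ O := hY (Algebra.subset_adjoin (by simp))
  have m6 : (w - 1) ^ 2 * yy p A v w ∈ O := hY (Algebra.subset_adjoin (by simp))
  have m7 : (v - 1) * (w - 1) * yy p A v w ∈ O := hY (Algebra.subset_adjoin (by simp))
  have hb0 : rs O (v - 1) hb = 0 := rs_zero hb (Or.inr h1)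
  have hd0 : rs O (w - 1) hd = 0 := rs_zero hd (Or.inr h2)
  have h50 : rs O ((v - 1) ^ 2 * yy p A v w) m5 = 0 := rs_zero m5 (Or.inr h3)
  have h60 : rs O ((w - 1) ^ 2 * yy p A v w) m6 = 0 := rs_zero m6 (Or.inr h4)
  have h70 : rs O ((v - 1) * (w - 1) * yy p A v w) m7 = 0 := by
    have e : (v - 1) * (w - 1) * yy p A v w * ((v - 1) * (w - 1) * yy p A v w) =
        (v - 1) ^ 2 * yy p A v w * ((w - 1) ^ 2 * yy p A v w) := by ring
    have e2 := rs_mul (O := O) m7 m7 (O.mul_mem m7 m7)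
    rw [rs_congr _ (O.mul_mem m5 m6) e, rs_mul m5 m6, h50, zero_mul] at e2
    exact mul_self_eq_zero.1 e2.symm
  have hu := rs_units h.A0 h.v0 h.w0 h.v1 h.w1 h.vw hY hb hd hb0 hd0
  refine trdeg_le_one O _ hR hloc (rs O (yy p A v w)⁻¹ ht) ?_
  intro g hg
  simp only [Set.mem_insert_iff, Set.mem_singleton_iff] at hg
  rcases hg with rfl | rfl | rfl | rfl | rfl | rfl | rfl | rfl | rfl
  · rw [hb0]; exact zero_mem _
  · rw [hd0]; exact zero_mem _
  · rw [h50]; exact zero_mem _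
  · rw [h70]; exact zero_mem _
  · rw [h60]; exact zero_mem _
  · exact Algebra.subset_adjoin rfl
  · rw [hu.1]; exact one_mem _
  · rw [hu.2.1]; exact one_mem _
  · rw [hu.2.2]; exact one_mem _

end H1F.FLIP
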